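import Pool.Agent.Helper26.FLR.KapD2

set_option autoImplicit false

namespace Pool.Agent.RepFLR

open Classical

end Pool.Agent.RepFLR

namespace Pool.Agent.RepFLR

open Classical

theorem bal_pot_aux {m q : ℕ} [NeZero q] (f : Multiset (Edge m q)) (ψ : Vtx m q → ℤ) :
    (f.map (fun e => ψ e.i - ψ e.j)).sum = ∑ v : Vtx m q, ψ v *
      (f.map (fun e => (if e.i = v then (1:ℤ) else 0) - (if e.j = v then (1:ℤ) else 0))).sum := by
  induction f using Multiset.induction_on with
  | empty => simp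
  | cons e s ih =>
    rw [Multiset.map_cons, Multiset.sum_cons, ih]
    have : ∀ v : Vtx m q, ψ v * ((e ::ₘ s).map (fun e => (if e.i = v then (1:ℤ) else 0) -
        (if e.j = v then (1:ℤ) else 0))).sum =
        ((if e.i = v then ψ v else 0) - (if e.j = v then ψ v else 0)) +
        ψ v * (s.map (fun e => (if e.i = v then (1:ℤ) else 0) -
        (if e.j = v then (1:ℤ) else 0))).sum := by
      intro v
      rw [Multiset.map_cons, Multiset.sum_cons, mul_add]
      congr 1
      split_ifs <;> simp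
    rw [Finset.sum_congr rfl (fun v _ => this v), Finset.sum_add_distrib,
      Finset.sum_sub_distrib]
    simp

theorem bal_pot {m q : ℕ} [NeZero q] (j0 : Vtx m q) (f : Multiset (Edge m q)) (hb : bal j0 f)
    (ψ : Vtx m q → ℤ) :
    (f.map (fun e => ψ e.i - ψ e.j)).sum = ψ (Sum.inl 0) - ψ j0 := by
  rw [bal_pot_aux]
  have : ∀ v : Vtx m q, ψ v * (f.map (fun e => (if e.i = v then (1:ℤ) else 0) -
      (if e.j = v then (1:ℤ) else 0))).sum =
      (if Sum.inl 0 = v then ψ v else 0) - (if j0 = v then ψ v else 0) := by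
    intro v
    rw [hb v]
    split_ifs <;> simp
  rw [Finset.sum_congr rfl (fun v _ => this v), Finset.sum_sub_distrib]
  simp

theorem wt_zero {m : ℕ} (kk : Fin (m+1) → ℕ) (a b : Fin (m+1)) (h : wt kk a b = 0) :
    kk a * (m+2) + (a : ℕ) < kk b * (m+2) + (b : ℕ) := by
  unfold wt at h
  have h1 : kk a - kk b = 0 := by omega
  have h2 : ¬ (kk a = kk b ∧ b ≤ a) := by
    intro hh
    rw [if_pos hh] at h
    omega
  have h3 : kk a ≤ kk b := by omega
  have ha := a.2
  rcases Nat.lt_or_ge (kk a) (kk b) with h4 | h4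
  · have h5 : (kk a + 1) * (m+2) ≤ kk b * (m+2) := Nat.mul_le_mul_right _ h4
    have h6 : (kk a + 1) * (m+2) = kk a * (m+2) + (m+2) := by ring
    omega
  · have h5 : kk a = kk b := by omega
    have h6 : a < b := by
      by_contra hh
      exact h2 ⟨h5, not_lt.mp hh⟩
    rw [h5]
    have := Fin.lt_def.mp h6
    omega

/-- Cost lemma, one closed set: an edge inside `A` forces an edge inside `A` of positive cost. -/
theorem cost_pos {m q : ℕ} [NeZero q] (kk : Fin (m+1) → ℕ) (j0 : Vtx m q)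
    (f : Multiset (Edge m q)) (hb : bal j0 f)
    (ps : Vtx m q → Fin (m+1)) (hps : ∀ e ∈ f, ps e.i = e.a ∧ ps e.j = e.b)
    (A : Set (Vtx m q)) (hA : ∀ e ∈ f, (e.i ∈ A ↔ e.j ∈ A)) (ho : Sum.inl 0 ∉ A)
    (e1 : Edge m q) (he1 : e1 ∈ f) (h1 : e1.i ∈ A) :
    ∃ e ∈ f, e.i ∈ A ∧ 1 ≤ wt kk e.a e.b := by
  by_contra hcon
  push Not at hcon
  have hw : ∀ e ∈ f, e.i ∈ A → wt kk e.a e.b = 0 := by
    intro e he hi
    have := hcon e he hi
    omega
  -- the sink is not in A
  have hj : j0 ∉ A := by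
    intro hj
    have h := bal_pot j0 f hb (fun v => if v ∈ A then 1 else 0)
    have h0 : (f.map (fun e => (if e.i ∈ A then (1:ℤ) else 0) - (if e.j ∈ A then 1 else 0))).sum
        = 0 := by
      apply Multiset.sum_eq_zero
      intro x hx
      rw [Multiset.mem_map] at hx
      obtain ⟨e, he, rfl⟩ := hx
      by_cases hi : e.i ∈ A
      · rw [if_pos hi, if_pos ((hA e he).mp hi)]; simp
      · rw [if_neg hi, if_neg (fun h => hi ((hA e he).mpr h))]; simp
    rw [h0] at h
    rw [if_neg ho, if_pos hj] at h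
    omega
  set ψ : Vtx m q → ℤ := fun v => if v ∈ A then ((kk (ps v) * (m+2) + (ps v : ℕ) : ℕ) : ℤ) else 0
    with hψ
  have h := bal_pot j0 f hb ψ
  have hr : ψ (Sum.inl 0) - ψ j0 = 0 := by
    simp only [hψ]
    rw [if_neg ho, if_neg hj]; simp
  rw [hr] at h
  have hneg : ∀ e ∈ f, ψ e.i - ψ e.j ≤ 0 := by
    intro e he
    by_cases hi : e.i ∈ A
    · have hj' := (hA e he).mp hi
      have hz := wt_zero kk e.a e.b (hw e he hi)
      simp only [hψ]
      rw [if_pos hi, if_pos hj', (hps e he).1, (hps e he).2]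
      have : ((kk e.a * (m+2) + (e.a : ℕ) : ℕ) : ℤ) < ((kk e.b * (m+2) + (e.b : ℕ) : ℕ) : ℤ) := by
        exact_mod_cast hz
      linarith
    · have hj' : e.j ∉ A := fun h => hi ((hA e he).mpr h)
      simp only [hψ]
      rw [if_neg hi, if_neg hj']; simp
  have hlt : ψ e1.i - ψ e1.j < 0 := by
    have hj' := (hA e1 he1).mp h1
    have hz := wt_zero kk e1.a e1.b (hw e1 he1 h1)
    simp only [hψ]
    rw [if_pos h1, if_pos hj', (hps e1 he1).1, (hps e1 he1).2]
    have : ((kk e1.a * (m+2) + (e1.a : ℕ) : ℕ) : ℤ) < ((kk e1.b * (m+2) + (e1.b : ℕ) : ℕ) : ℤ) := by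
      exact_mod_cast hz
    linarith
  obtain ⟨s, hs⟩ := Multiset.exists_cons_of_mem he1
  rw [hs, Multiset.map_cons, Multiset.sum_cons] at h
  have hs' : (s.map (fun e => ψ e.i - ψ e.j)).sum ≤ 0 := by
    have h1 : 0 ≤ (s.map (fun e => -(ψ e.i - ψ e.j))).sum := by
      apply Multiset.sum_nonneg
      intro x hx
      rw [Multiset.mem_map] at hx
      obtain ⟨e, he, rfl⟩ := hx
      have := hneg e (by rw [hs]; exact Multiset.mem_cons_of_mem he)
      linarith
    have h2 : (s.map (fun e => -(ψ e.i - ψ e.j))).sum = -(s.map (fun e => ψ e.i - ψ e.j)).sum :=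
      Multiset.sum_map_neg
    linarith
  linarith

end Pool.Agent.RepFLR
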