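import Pool.Agent.Helper26.FLR.CostE1

set_option autoImplicit false

namespace Pool.Agent.RepFLR

open Classical

end Pool.Agent.RepFLR

namespace Pool.Agent.RepFLR

open Classical

theorem j7517_card {E : Type} (f : Multiset E) (w : E → ℕ) :
    (f.filter (fun e => 1 ≤ w e)).card ≤ (f.map w).sum := by
  induction f using Multiset.induction_on with
  | empty => simp
  | cons a s ih =>
    by_cases h : 1 ≤ w a
    · rw [Multiset.filter_cons_of_pos (p := fun e => 1 ≤ w e) s h, Multiset.card_cons, Multiset.map_cons,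
        Multiset.sum_cons]
      omega
    · rw [Multiset.filter_cons_of_neg (p := fun e => 1 ≤ w e) s h, Multiset.map_cons, Multiset.sum_cons]
      omega

theorem j7517_cover {E γ : Type} (f : Multiset E) (w : E → ℕ) (cl : E → γ) (C : Finset γ)
    (h : ∀ c ∈ C, ∃ e ∈ f, cl e = c ∧ 1 ≤ w e) : C.card ≤ (f.map w).sum := by
  classical
  have h1 : C ⊆ ((f.filter (fun e => 1 ≤ w e)).map cl).toFinset := by
    intro c hc
    obtain ⟨e, he, hec, hw⟩ := h c hc
    rw [Multiset.mem_toFinset, Multiset.mem_map]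
    exact ⟨e, Multiset.mem_filter.2 ⟨he, hw⟩, hec⟩
  calc C.card ≤ ((f.filter (fun e => 1 ≤ w e)).map cl).toFinset.card := Finset.card_le_card h1
    _ ≤ ((f.filter (fun e => 1 ≤ w e)).map cl).card := Multiset.toFinset_card_le _
    _ = (f.filter (fun e => 1 ≤ w e)).card := Multiset.card_map _ _
    _ ≤ (f.map w).sum := j7517_card f w

theorem cost_classes {m q : ℕ} [NeZero q] {γ : Type} (kk : Fin (m+1) → ℕ) (j0 : Vtx m q)
    (f : Multiset (Edge m q)) (hb : bal j0 f)
    (ps : Vtx m q → Fin (m+1)) (hps : ∀ e ∈ f, ps e.i = e.a ∧ ps e.j = e.b)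
    (cl : Vtx m q → γ) (hcl : ∀ e ∈ f, cl e.i = cl e.j) (C : Finset γ)
    (hC : ∀ c ∈ C, c ≠ cl (Sum.inl 0) ∧ ∃ e ∈ f, cl e.i = c) :
    C.card ≤ wf kk f := by
  refine j7517_cover f (fun e => wt kk e.a e.b) (fun e => cl e.i) C ?_
  intro c hc
  obtain ⟨h0, e1, he1, hc1⟩ := hC c hc
  obtain ⟨e, he, h1, h2⟩ := cost_pos kk j0 f hb ps hps {v | cl v = c}
    (fun e he => by
      show cl e.i = c ↔ cl e.j = c
      rw [hcl e he])
    (fun h => h0 (by
      have : cl (Sum.inl 0) = c := h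
      exact this.symm)) e1 he1 hc1
  exact ⟨e, he, h1, h2⟩

/-- the same after removing one edge `e0`: only the classes different from that of `e0` count -/
theorem cost_classes_erase {m q : ℕ} [NeZero q] {γ : Type} (kk : Fin (m+1) → ℕ) (j0 : Vtx m q)
    (e0 : Edge m q) (g : Multiset (Edge m q)) (hb : bal j0 (e0 ::ₘ g))
    (ps : Vtx m q → Fin (m+1)) (hps : ∀ e ∈ e0 ::ₘ g, ps e.i = e.a ∧ ps e.j = e.b)
    (cl : Vtx m q → γ) (hcl : ∀ e ∈ e0 ::ₘ g, cl e.i = cl e.j) (C : Finset γ)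
    (hC : ∀ c ∈ C, c ≠ cl (Sum.inl 0) ∧ c ≠ cl e0.i ∧ ∃ e ∈ g, cl e.i = c) :
    C.card ≤ wf kk g := by
  refine j7517_cover g (fun e => wt kk e.a e.b) (fun e => cl e.i) C ?_
  intro c hc
  obtain ⟨h0, h3, e1, he1, hc1⟩ := hC c hc
  obtain ⟨e, he, h1, h2⟩ := cost_pos kk j0 (e0 ::ₘ g) hb ps hps {v | cl v = c}
    (fun e he => by
      show cl e.i = c ↔ cl e.j = c
      rw [hcl e he])
    (fun h => h0 (by
      have : cl (Sum.inl 0) = c := h
      exact this.symm)) e1 (Multiset.mem_cons_of_mem he1) hc1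
  have h4 : cl e.i = c := h1
  rcases Multiset.mem_cons.1 he with h5 | h5
  · subst h5
    exact absurd h4.symm h3
  · exact ⟨e, h5, h4, h2⟩

end Pool.Agent.RepFLR
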