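import Mathlib

set_option autoImplicit false

/-!
Definitions for the representation of finite local rings (MP_4a16d5_al).
Positions are `Fin (m+1)`, `0` is the head position.  Labels are `Fin q`, letters are `Fin q × Fin q`,
vertices are `Fin q ⊕ (Fin (m+1) × (Fin q × Fin q))`.
-/

namespace Pool.Agent.RepFLR

open Classical

/-- cost of the matrix unit `(a,b)` -/
def wt {m : ℕ} (kk : Fin (m+1) → ℕ) (a b : Fin (m+1)) : ℕ :=
  (kk a - kk b) + (if kk a = kk b ∧ b ≤ a then 1 else 0)

/-- letters -/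
abbrev Ltr (q : ℕ) : Type := Fin q × Fin q

/-- vertices -/
abbrev Vtx (m q : ℕ) : Type := Fin q ⊕ (Fin (m+1) × Ltr q)

/-- edges: the variable `(X_ab)_{ij}` -/
@[ext] structure Edge (m q : ℕ) where
  a : Fin (m+1)
  b : Fin (m+1)
  i : Vtx m q
  j : Vtx m q

/-- the fresh letter with level `t` (`1 ≤ t ≤ q`) and rank `r` (`r < t`) -/
def ltr (q : ℕ) [NeZero q] (t r : ℕ) : Ltr q := (Fin.ofNat q (t-1), Fin.ofNat q r)

/-- rank of `i` in `S` -/
noncomputable def rk {q : ℕ} (S : Finset (Fin q)) (i : Fin q) : ℕ := (S.filter (fun j => j < i)).card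

/-- the signed integral measure on words (inclusion-exclusion) -/
noncomputable def nu {q : ℕ} [NeZero q] (S : Finset (Fin q)) (x : Fin q → Ltr q) : ℤ :=
  if S = ∅ then 1 else
    ∑ T : {T : Finset (Fin q) // T ∈ S.ssubsets},
      (-1)^(S.card - T.1.card - 1) * nu T.1 x *
        (if ∀ i ∈ S \ T.1, x i = ltr q S.card (rk S i) then 1 else 0)
termination_by S.card
decreasing_by exact Finset.card_lt_card (Finset.mem_ssubsets.mp T.2)

/-- a state: one word for each position (the one at position `0` is a dummy) -/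
abbrev St (m q : ℕ) : Type := Fin (m+1) → Fin q → Ltr q

/-- weight of a state -/
noncomputable def nuy {m q : ℕ} [NeZero q] (y : St m q) : ℤ := ∏ b, nu Finset.univ (y b)

/-- position of a vertex in a state -/
noncomputable def pos {m q : ℕ} (y : St m q) : Vtx m q → Fin (m+1)
  | Sum.inl _ => 0
  | Sum.inr (b, x) => if ∃ l, y b l = x then b else 0

/-- label of a letter vertex in a state -/
noncomputable def lbl {m q : ℕ} [NeZero q] (y : St m q) : Vtx m q → Fin q
  | Sum.inl _ => 0
  | Sum.inr (b, x) => if h : ∃ l, y b l = x then Classical.choose h else 0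

/-- the edge is satisfied in the state -/
def ok {m q : ℕ} [NeZero q] (y : St m q) (e : Edge m q) : Prop :=
  pos y e.i = e.a ∧ pos y e.j = e.b ∧ (e.a ≠ 0 → e.b ≠ 0 → lbl y e.i = lbl y e.j) ∧
    (e.a = 0 → e.b = 0 → e.i = e.j)

/-- the recorded (head, label) pairs of an edge -/
noncomputable def prs {m q : ℕ} [NeZero q] (y : St m q) (e : Edge m q) : Finset (Vtx m q × Fin q) :=
  if e.a = 0 ∧ e.b ≠ 0 then {(e.i, lbl y e.j)}
  else if e.a ≠ 0 ∧ e.b = 0 then {(e.j, lbl y e.i)} else ∅

/-- all recorded pairs of a monomial, with the special pair -/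
noncomputable def Qf {m q : ℕ} [NeZero q] (y : St m q) (f : Multiset (Edge m q)) :
    Finset (Vtx m q × Fin q) :=
  insert (Sum.inl 0, 0) (f.toFinset.biUnion (prs y))

/-- matchings -/
def IsM {α β : Type} (Q : Finset (α × β)) : Prop :=
  ∀ x ∈ Q, ∀ z ∈ Q, (x.1 = z.1 ↔ x.2 = z.2)

/-- the weight of a matching with `j` pairs -/
def kh (rm j : ℕ) : ℤ :=
  if j ≤ rm + 1 then (-1)^(j-1) * ((rm.factorial / (j-1).factorial : ℕ) : ℤ) else 0

/-- the functional on pair sets -/
noncomputable def kap {α β : Type} (rm : ℕ) (Q : Finset (α × β)) : ℤ :=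
  if IsM Q then kh rm Q.card else 0

/-- weight of a monomial -/
def wf {m q : ℕ} (kk : Fin (m+1) → ℕ) (f : Multiset (Edge m q)) : ℕ :=
  (f.map (fun e => wt kk e.a e.b)).sum

/-- the balance condition, with source `inl 0` and sink `j0` -/
def bal {m q : ℕ} [NeZero q] (j0 : Vtx m q) (f : Multiset (Edge m q)) : Prop :=
  ∀ v : Vtx m q,
    (f.map (fun e => (if e.i = v then (1:ℤ) else 0) - (if e.j = v then (1:ℤ) else 0))).sum
      = (if Sum.inl 0 = v then (1:ℤ) else 0) - (if j0 = v then (1:ℤ) else 0)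

/-- the average of the monomial -/
noncomputable def Yf {m q : ℕ} [NeZero q] (rm : ℕ) (f : Multiset (Edge m q)) : ℤ :=
  ∑ y : St m q, nuy y * (if ∀ e ∈ f, ok y e then kap rm (Qf y f) else 0)

/-- the functional on monomials -/
noncomputable def EE {m q : ℕ} [NeZero q] (p : ℕ) (kk : Fin (m+1) → ℕ) (rm : ℕ) (j0 : Vtx m q)
    (f : Multiset (Edge m q)) : ℤ :=
  if bal j0 f then (p:ℤ)^(wf kk f) * Yf rm f else 0

end Pool.Agent.RepFLR
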