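import Pool.Agent.Helper26.FLR.RingK

set_option autoImplicit false

namespace Pool.Agent.RepFLR

open Classical

section
variable {q : ℕ} [NeZero q]

end

section
variable {q : ℕ} [NeZero q]

end

section
variable {q : ℕ} [NeZero q]

end

section
variable {m q : ℕ} [NeZero q]

theorem pos_letter (y : St m q) (b : Fin (m+1)) (l : Fin q) : pos y (Sum.inr (b, y b l)) = b := by
  unfold pos
  simp only
  rw [if_pos ⟨l, rfl⟩]

end

section
variable {m q : ℕ} [NeZero q]

theorem lbl_letter (y : St m q) (b : Fin (m+1)) (hinj : Function.Injective (y b)) (l : Fin q) :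
    lbl y (Sum.inr (b, y b l)) = l := by
  have h : ∃ l', y b l' = y b l := ⟨l, rfl⟩
  unfold lbl
  simp only
  rw [dif_pos h]
  exact hinj (Classical.choose_spec h)

end

section
variable {m q : ℕ} [NeZero q]

theorem lbl_spec (y : St m q) (v : Vtx m q) (h : pos y v ≠ 0) :
    v = Sum.inr (pos y v, y (pos y v) (lbl y v)) := by
  match v, h with
  | Sum.inl i, h => exact absurd rfl h
  | Sum.inr (b, x), h =>
    have hx : ∃ l, y b l = x := by
      by_contra hcon
      apply h
      unfold pos
      simp only
      rw [if_neg hcon]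
    have hp : pos y (Sum.inr (b, x)) = b := by
      unfold pos
      simp only
      rw [if_pos hx]
    have hl : y b (lbl y (Sum.inr (b, x))) = x := by
      unfold lbl
      simp only
      rw [dif_pos hx]
      exact Classical.choose_spec hx
    rw [hp, hl]

end

section
variable {m q : ℕ} [NeZero q]

theorem nuy_inj (y : St m q) (h : nuy y ≠ 0) (b : Fin (m+1)) : Function.Injective (y b) := by
  have h1 : nu Finset.univ (y b) ≠ 0 := by
    unfold nuy at h
    exact Finset.prod_ne_zero_iff.mp h b (Finset.mem_univ b)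
  have h2 := nu_inj Finset.univ (y b) h1
  rw [Finset.coe_univ] at h2
  exact Set.injOn_univ.mp h2

end

section
variable {m q : ℕ} [NeZero q]

theorem nuy_total : ∑ y : St m q, nuy y = 1 := by
  have h0 : ∑ u : Fin q → Ltr q, nu Finset.univ u = 1 := by
    have h := nu_total (q := q) ∅ (fun _ => (0, 0))
    rw [nu_empty] at h
    simpa using h
  have h1 : ∏ _b : Fin (m+1), ∑ u : Fin q → Ltr q, nu Finset.univ u
      = ∑ y : St m q, ∏ b, nu Finset.univ (y b) := by
    rw [Finset.prod_univ_sum, Fintype.piFinset_univ]
  unfold nuy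
  rw [← h1, h0]
  simp

end

section
variable {m q : ℕ} [NeZero q]

theorem Qf_cons (y : St m q) (e : Edge m q) (f : Multiset (Edge m q)) :
    Qf y (e ::ₘ f) = prs y e ∪ Qf y f := by
  unfold Qf
  rw [Multiset.toFinset_cons, Finset.biUnion_insert, Finset.union_insert]

end

section
variable {m q : ℕ} [NeZero q]

/-- first coordinates of recorded pairs are heads -/
theorem Qf_head (y : St m q) (f : Multiset (Edge m q)) (hok : ∀ e ∈ f, ok y e)
    (x : Vtx m q × Fin q) (hx : x ∈ Qf y f) : pos y x.1 = 0 := by
  unfold Qf at hx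
  rw [Finset.mem_insert, Finset.mem_biUnion] at hx
  rcases hx with rfl | ⟨e, he, hxe⟩
  · rfl
  · rw [Multiset.mem_toFinset] at he
    obtain ⟨h1, h2, -, -⟩ := hok e he
    unfold prs at hxe
    by_cases c1 : e.a = 0 ∧ e.b ≠ 0
    · rw [if_pos c1, Finset.mem_singleton] at hxe
      rw [hxe]
      simp only
      rw [h1, c1.1]
    · rw [if_neg c1] at hxe
      by_cases c2 : e.a ≠ 0 ∧ e.b = 0
      · rw [if_pos c2, Finset.mem_singleton] at hxe
        rw [hxe]
        simp only
        rw [h2, c2.2]
      · rw [if_neg c2] at hxe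
        exact absurd hxe (Finset.notMem_empty x)

end

end Pool.Agent.RepFLR
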