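import Pool.Agent.Helper26.FLR.Fa

set_option autoImplicit false

namespace Pool.Agent.RepFLR

open Classical

section
variable {m q : ℕ} [NeZero q]

end

section
variable {m q : ℕ} [NeZero q]

end

section
variable {m q : ℕ} [NeZero q]

/-- the number of head vertices is divisible by `q` -/
theorem heads_dvd (y : St m q) (hinj : ∀ b, Function.Injective (y b)) :
    q ∣ (Finset.univ.filter (fun v : Vtx m q => pos y v = 0)).card := by
  have h1 := Finset.card_filter_add_card_filter_not (s := (Finset.univ : Finset (Vtx m q)))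
    (p := fun v => pos y v = 0)
  have h2 : (Finset.univ.filter (fun v : Vtx m q => ¬ pos y v = 0)) =
      ((Finset.univ.filter (fun b : Fin (m+1) => b ≠ 0)) ×ˢ (Finset.univ : Finset (Fin q))).image
        (fun x => (Sum.inr (x.1, y x.1 x.2) : Vtx m q)) := by
    ext v
    simp only [Finset.mem_filter, Finset.mem_univ, true_and, Finset.mem_image, Finset.mem_product,
      and_true]
    constructor
    · intro hv
      exact ⟨(pos y v, lbl y v), hv, (lbl_spec y v hv).symm⟩
    · rintro ⟨⟨b, l⟩, hb, rfl⟩
      rw [pos_letter]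
      exact hb
  have h3 : (Finset.univ.filter (fun v : Vtx m q => ¬ pos y v = 0)).card =
      (Finset.univ.filter (fun b : Fin (m+1) => b ≠ 0)).card * q := by
    rw [h2, Finset.card_image_of_injective, Finset.card_product, Finset.card_univ,
      Fintype.card_fin]
    rintro ⟨b, l⟩ ⟨b', l'⟩ h
    simp only [Sum.inr.injEq, Prod.mk.injEq] at h
    obtain ⟨h4, h5⟩ := h
    subst h4
    rw [hinj b h5]
  have h4 : (Finset.univ : Finset (Vtx m q)).card = q + (m + 1) * (q * q) := by
    rw [Finset.card_univ]
    simp
  rw [h3, h4] at h1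
  have h5 : q ∣ q + (m + 1) * (q * q) :=
    Dvd.dvd.add dvd_rfl ⟨(m + 1) * q, by ring⟩
  rw [← h1] at h5
  exact (Nat.dvd_add_left (Dvd.intro_left _ rfl)).1 h5

end

end Pool.Agent.RepFLR
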