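import Pool.Agent.Helper26.FLR.Fb

set_option autoImplicit false

namespace Pool.Agent.RepFLR

open Classical

section
variable {m q : ℕ} [NeZero q]

end

section
variable {m q : ℕ} [NeZero q]

end

section
variable {m q : ℕ} [NeZero q]

end

section
variable {m q : ℕ} [NeZero q]

end

section
variable {m q : ℕ} [NeZero q]

/-- class of a vertex in a state, relative to a monomial -/
noncomputable def cls (y : St m q) (f : Multiset (Edge m q)) (v : Vtx m q) : Fin q ⊕ Vtx m q :=
  if pos y v ≠ 0 then Sum.inl (lbl y v)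
  else if h : ∃ l, (v, l) ∈ Qf y f then Sum.inl (Classical.choose h) else Sum.inr v

end

section
variable {m q : ℕ} [NeZero q]

theorem mem_Qf_aux (y : St m q) (f : Multiset (Edge m q)) (x : Vtx m q × Fin q) :
    x ∈ Qf y f ↔ x = (Sum.inl 0, 0) ∨ ∃ e ∈ f, x ∈ prs y e := by
  unfold Qf
  rw [Finset.mem_insert, Finset.mem_biUnion]
  simp only [Multiset.mem_toFinset]

theorem cls_of_mem (y : St m q) (f : Multiset (Edge m q)) (hM : IsM (Qf y f))
    (v : Vtx m q) (l : Fin q) (hv : pos y v = 0) (h : (v, l) ∈ Qf y f) :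
    cls y f v = Sum.inl l := by
  unfold cls
  rw [if_neg (by simpa using hv)]
  have hex : ∃ l, (v, l) ∈ Qf y f := ⟨l, h⟩
  rw [dif_pos hex]
  have hc := Classical.choose_spec hex
  have := (hM _ hc _ h).1 rfl
  exact congrArg Sum.inl this

theorem cls_of_pos (y : St m q) (f : Multiset (Edge m q)) (v : Vtx m q) (hv : pos y v ≠ 0) :
    cls y f v = Sum.inl (lbl y v) := by
  unfold cls
  rw [if_pos hv]

theorem cls_of_not (y : St m q) (f : Multiset (Edge m q)) (v : Vtx m q) (hv : pos y v = 0)
    (h : ¬ ∃ l, (v, l) ∈ Qf y f) : cls y f v = Sum.inr v := by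
  unfold cls
  rw [if_neg (by simpa using hv), dif_neg h]

end

section
variable {m q : ℕ} [NeZero q]

theorem cls_edge (y : St m q) (f : Multiset (Edge m q)) (hok : ∀ e ∈ f, ok y e)
    (hM : IsM (Qf y f)) (e : Edge m q) (he : e ∈ f) : cls y f e.i = cls y f e.j := by
  obtain ⟨h1, h2, h3, h4⟩ := hok e he
  by_cases ha : e.a = 0
  · by_cases hb : e.b = 0
    · rw [h4 ha hb]
    · have hmem : (e.i, lbl y e.j) ∈ Qf y f := by
        rw [mem_Qf_aux]
        refine Or.inr ⟨e, he, ?_⟩
        unfold prs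
        rw [if_pos ⟨ha, hb⟩]
        exact Finset.mem_singleton_self _
      rw [cls_of_mem y f hM e.i _ (by rw [h1, ha]) hmem, cls_of_pos y f e.j (by rw [h2]; exact hb)]
  · by_cases hb : e.b = 0
    · have hmem : (e.j, lbl y e.i) ∈ Qf y f := by
        rw [mem_Qf_aux]
        refine Or.inr ⟨e, he, ?_⟩
        unfold prs
        rw [if_neg (fun h => ha h.1), if_pos ⟨ha, hb⟩]
        exact Finset.mem_singleton_self _
      rw [cls_of_mem y f hM e.j _ (by rw [h2, hb]) hmem, cls_of_pos y f e.i (by rw [h1]; exact ha)]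
    · rw [cls_of_pos y f e.i (by rw [h1]; exact ha), cls_of_pos y f e.j (by rw [h2]; exact hb),
        h3 ha hb]

end

section
variable {m q : ℕ} [NeZero q]

theorem cls_head_inj (y : St m q) (f : Multiset (Edge m q))
    (hM : IsM (Qf y f)) (v v' : Vtx m q) (hv : pos y v = 0) (hv' : pos y v' = 0)
    (h : cls y f v = cls y f v') : v = v' := by
  by_cases h1 : ∃ l, (v, l) ∈ Qf y f
  · obtain ⟨l, hl⟩ := h1
    rw [cls_of_mem y f hM v l hv hl] at h
    by_cases h2 : ∃ l, (v', l) ∈ Qf y f
    · obtain ⟨l', hl'⟩ := h2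
      rw [cls_of_mem y f hM v' l' hv' hl'] at h
      have hll : l = l' := Sum.inl.inj h
      exact (hM _ hl _ hl').2 hll
    · rw [cls_of_not y f v' hv' h2] at h
      exact absurd h (by simp)
  · rw [cls_of_not y f v hv h1] at h
    by_cases h2 : ∃ l, (v', l) ∈ Qf y f
    · obtain ⟨l', hl'⟩ := h2
      rw [cls_of_mem y f hM v' l' hv' hl'] at h
      exact absurd h (by simp)
    · rw [cls_of_not y f v' hv' h2] at h
      exact Sum.inr.inj h

end

section
variable {m q : ℕ} [NeZero q]

/-- the number of recorded pairs is bounded by the weight -/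
theorem Qf_card (kk : Fin (m+1) → ℕ) (j0 : Vtx m q) (y : St m q) (f : Multiset (Edge m q))
    (hb : bal j0 f) (hok : ∀ e ∈ f, ok y e) (hM : IsM (Qf y f)) :
    (Qf y f).card ≤ wf kk f + 1 := by
  have hcl : ∀ x ∈ Qf y f, cls y f x.1 = Sum.inl x.2 := by
    intro x hx
    exact cls_of_mem y f hM x.1 x.2 (Qf_head y f hok x hx) hx
  have h0 : ((Sum.inl 0, 0) : Vtx m q × Fin q) ∈ Qf y f := by
    rw [mem_Qf_aux]; exact Or.inl rfl
  have hc0 : cls y f (Sum.inl 0) = Sum.inl 0 := hcl _ h0
  have hcard : (((Qf y f).erase (Sum.inl 0, 0)).image (fun x => cls y f x.1)).card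
      = ((Qf y f).erase (Sum.inl 0, 0)).card := by
    apply Finset.card_image_of_injOn
    intro x hx z hz hxz
    have hx' : x ∈ Qf y f := Finset.mem_of_mem_erase hx
    have hz' : z ∈ Qf y f := Finset.mem_of_mem_erase hz
    simp only [hcl x hx', hcl z hz'] at hxz
    have h2 : x.2 = z.2 := Sum.inl.inj hxz
    exact Prod.ext ((hM x hx' z hz').2 h2) h2
  have hle := cost_classes kk j0 f hb (pos y) (fun e he => ⟨(hok e he).1, (hok e he).2.1⟩)
    (cls y f) (fun e he => cls_edge y f hok hM e he)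
    (((Qf y f).erase (Sum.inl 0, 0)).image (fun x => cls y f x.1)) (by
      intro c hc
      obtain ⟨x, hx, rfl⟩ := Finset.mem_image.1 hc
      have hx' : x ∈ Qf y f := Finset.mem_of_mem_erase hx
      have hne : x ≠ (Sum.inl 0, 0) := Finset.ne_of_mem_erase hx
      refine ⟨?_, ?_⟩
      · rw [hcl x hx', hc0]
        intro h
        have h2 : x.2 = 0 := Sum.inl.inj h
        exact hne (Prod.ext ((hM x hx' _ h0).2 h2) h2)
      · rcases (mem_Qf_aux y f x).1 hx' with h | ⟨e, he, hxe⟩
        · exact absurd h hne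
        · refine ⟨e, he, ?_⟩
          unfold prs at hxe
          split_ifs at hxe with h1 h2
          · rw [Finset.mem_singleton] at hxe
            rw [hxe]
          · rw [Finset.mem_singleton] at hxe
            rw [hxe, cls_edge y f hok hM e he]
          · simp at hxe)
  rw [hcard, Finset.card_erase_of_mem h0] at hle
  omega

end

end Pool.Agent.RepFLR
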