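import Pool.Agent.Helper26.FLR.Fc

set_option autoImplicit false

namespace Pool.Agent.RepFLR

open Classical

section
variable {m q : ℕ} [NeZero q]

end

section
variable {m q : ℕ} [NeZero q]

end

section
variable {m q : ℕ} [NeZero q]

end

section
variable {m q : ℕ} [NeZero q]

/-- the value of a monomial in a state -/
noncomputable def val (rm : ℕ) (y : St m q) (f : Multiset (Edge m q)) : ℤ :=
  if ∀ e ∈ f, ok y e then kap rm (Qf y f) else 0

end

section
variable {m q : ℕ} [NeZero q]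

theorem R1_pt_ne (rm : ℕ) (y : St m q) (a b c d : Fin (m+1)) (hbc : b ≠ c) (i v j : Vtx m q)
    (g : Multiset (Edge m q)) : val rm y (⟨a, b, i, v⟩ ::ₘ ⟨c, d, v, j⟩ ::ₘ g) = 0 := by
  rw [val, if_neg]
  intro h
  have h1 := h ⟨a, b, i, v⟩ (by simp)
  have h2 := h ⟨c, d, v, j⟩ (by simp)
  exact hbc (h1.2.1.symm.trans h2.1)

end

section
variable {m q : ℕ} [NeZero q]

theorem R2_pt (rm : ℕ) (y : St m q) (i j : Vtx m q) (g : Multiset (Edge m q)) :
    ∑ a, val rm y (⟨a, a, i, j⟩ ::ₘ g) = if i = j then val rm y g else 0 := by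
  by_cases hij : i = j
  · subst hij
    rw [if_pos rfl]
    rw [Finset.sum_eq_single (pos y i)]
    · have hok : ok y ⟨pos y i, pos y i, i, i⟩ := ⟨rfl, rfl, fun _ _ => rfl, fun _ _ => rfl⟩
      have hprs : prs y ⟨pos y i, pos y i, i, i⟩ = ∅ := by
        unfold prs
        by_cases h0 : pos y i = 0
        · simp [h0]
        · simp [h0]
      unfold val
      rw [Qf_cons, hprs, Finset.empty_union]
      have hiff : (∀ e ∈ (⟨pos y i, pos y i, i, i⟩ ::ₘ g : Multiset (Edge m q)), ok y e) ↔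
          ∀ e ∈ g, ok y e := by
        rw [Multiset.forall_mem_cons]
        exact ⟨fun h => h.2, fun h => ⟨hok, h⟩⟩
      by_cases hg : ∀ e ∈ g, ok y e
      · rw [if_pos hg, if_pos (hiff.mpr hg)]
      · rw [if_neg hg, if_neg (fun h => hg (hiff.mp h))]
    · intro a _ ha
      rw [val, if_neg]
      intro h
      have h1 := h ⟨a, a, i, i⟩ (by simp)
      exact ha h1.1.symm
    · intro h
      exact absurd (Finset.mem_univ _) h
  · rw [if_neg hij]
    refine Finset.sum_eq_zero ?_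
    intro a _
    rw [val, if_neg]
    intro h
    obtain ⟨h1, h2, h3, h4⟩ := h ⟨a, a, i, j⟩ (by simp)
    simp only at h1 h2 h3 h4
    by_cases ha : a = 0
    · exact hij (h4 ha ha)
    · have e1 := lbl_spec y i (by rw [h1]; exact ha)
      have e2 := lbl_spec y j (by rw [h2]; exact ha)
      rw [h1, h3 ha ha] at e1
      rw [h2] at e2
      exact hij (e1.trans e2.symm)

end

section
variable {m q : ℕ} [NeZero q]

theorem row_pt (rm : ℕ) (y : St m q) (a b : Fin (m+1)) (ha : a ≠ 0) (j : Vtx m q)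
    (g : Multiset (Edge m q)) : val rm y (⟨a, b, Sum.inl 0, j⟩ ::ₘ g) = 0 := by
  rw [val, if_neg]
  intro h
  have h1 := (h ⟨a, b, Sum.inl 0, j⟩ (by simp)).1
  have h2 : (0 : Fin (m+1)) = a := h1
  exact ha h2.symm

end

section
variable {m q : ℕ} [NeZero q]

theorem col_pt (rm : ℕ) (y : St m q) (b bs : Fin (m+1)) (hbs : bs ≠ 0) (hb : b ≠ bs) (x : Ltr q)
    (g : Multiset (Edge m q)) :
    val rm y (⟨0, b, Sum.inl 0, Sum.inr (bs, x)⟩ ::ₘ g) = 0 := by
  rw [val, if_neg]
  intro h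
  obtain ⟨h1, h2, h3, h4⟩ := h ⟨0, b, Sum.inl 0, Sum.inr (bs, x)⟩ (by simp)
  have h2' : (if ∃ l, y bs l = x then bs else 0) = b := h2
  by_cases hx : ∃ l, y bs l = x
  · rw [if_pos hx] at h2'
    exact hb h2'.symm
  · rw [if_neg hx] at h2'
    have h5 := h4 rfl h2'.symm
    cases h5

end

section
variable {m q : ℕ} [NeZero q]

theorem col_pt0 (rm : ℕ) (y : St m q) (b : Fin (m+1)) (hb : b ≠ 0)
    (g : Multiset (Edge m q)) :
    val rm y (⟨0, b, Sum.inl 0, Sum.inl 0⟩ ::ₘ g) = 0 := by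
  rw [val, if_neg]
  intro h
  have h1 := (h ⟨0, b, Sum.inl 0, Sum.inl 0⟩ (by simp)).2.1
  have h2 : (0 : Fin (m+1)) = b := h1
  exact hb h2.symm

end

end Pool.Agent.RepFLR
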