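import Pool.Agent.Helper26.FLR.Fd

set_option autoImplicit false

namespace Pool.Agent.RepFLR

open Classical

section
variable {m q : ℕ} [NeZero q]

end

section
variable {m q : ℕ} [NeZero q]

end

section
variable {m q : ℕ} [NeZero q]

end

section
variable {m q : ℕ} [NeZero q]

end

section
variable {m q : ℕ} [NeZero q]

end

section
variable {m q : ℕ} [NeZero q]

end

section
variable {m q : ℕ} [NeZero q]

end

section
variable {m q : ℕ} [NeZero q]

theorem R1_val1 (rm : ℕ) (y : St m q) (E : Edge m q) (g : Multiset (Edge m q))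
    (hg : ∀ e ∈ g, ok y e) :
    val rm y (E ::ₘ g) = if ok y E then kap rm (prs y E ∪ Qf y g) else 0 := by
  unfold val
  rw [Qf_cons]
  by_cases h : ok y E
  · rw [if_pos h, if_pos]
    intro e he
    rcases Multiset.mem_cons.mp he with rfl | he
    · exact h
    · exact hg e he
  · rw [if_neg h, if_neg]
    intro h2
    exact h (h2 E (Multiset.mem_cons_self _ _))

theorem R1_val2 (rm : ℕ) (y : St m q) (A B : Edge m q) (g : Multiset (Edge m q))
    (hg : ∀ e ∈ g, ok y e) :
    val rm y (A ::ₘ B ::ₘ g) =
      if ok y A ∧ ok y B then kap rm (prs y A ∪ (prs y B ∪ Qf y g)) else 0 := by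
  unfold val
  rw [Qf_cons, Qf_cons]
  by_cases h : ok y A ∧ ok y B
  · rw [if_pos h, if_pos]
    intro e he
    rcases Multiset.mem_cons.mp he with rfl | he
    · exact h.1
    · rcases Multiset.mem_cons.mp he with rfl | he
      · exact h.2
      · exact hg e he
  · rw [if_neg h, if_neg]
    intro h2
    exact h ⟨h2 A (Multiset.mem_cons_self _ _),
      h2 B (Multiset.mem_cons_of_mem (Multiset.mem_cons_self _ _))⟩

theorem R1_sum_letters (y : St m q) (b : Fin (m+1)) (hb : b ≠ 0)
    (hinj : Function.Injective (y b)) (F : Vtx m q → ℤ) (hF : ∀ v, pos y v ≠ b → F v = 0) :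
    ∑ v, F v = ∑ l, F (Sum.inr (b, y b l)) := by
  have hi : Function.Injective (fun l : Fin q => (Sum.inr (b, y b l) : Vtx m q)) := by
    intro l l' h
    have h1 := Sum.inr.inj h
    exact hinj (Prod.mk.inj h1).2
  have h0 : ∑ l, F (Sum.inr (b, y b l)) = ∑ v ∈ Finset.univ.map ⟨_, hi⟩, F v := by
    rw [Finset.sum_map]; rfl
  rw [h0]
  symm
  apply Finset.sum_subset (Finset.subset_univ _)
  intro v _ hv
  apply hF
  intro hp
  apply hv
  rw [Finset.mem_map]
  have h1 := lbl_spec y v (by rw [hp]; exact hb)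
  refine ⟨lbl y v, Finset.mem_univ _, ?_⟩
  rw [hp] at h1
  exact h1.symm

theorem R1_notM {α β : Type} (rm : ℕ) (Q : Finset (α × β)) (x z : α × β) (hx : x ∈ Q) (hz : z ∈ Q)
    (h : ¬ (x.1 = z.1 ↔ x.2 = z.2)) : kap rm Q = 0 := by
  unfold kap
  rw [if_neg]
  intro hM
  exact h (hM x hx z hz)

theorem R1_notM_sup {α β : Type} (rm : ℕ) (Q Q' : Finset (α × β)) (hQ : Q ⊆ Q') (h : ¬ IsM Q) :
    kap rm Q' = 0 := by
  unfold kap
  rw [if_neg]
  intro hM
  exact h (fun x hx z hz => hM x (hQ hx) z (hQ hz))

theorem R1_Qf_ne (y : St m q) (g : Multiset (Edge m q)) : (Qf y g).Nonempty :=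
  ⟨_, Finset.mem_insert_self _ _⟩

set_option maxHeartbeats 4000000 in
theorem R1_pt (rm : ℕ) (N : ℤ) (hN : N ∣ (q : ℤ)) (y : St m q)
    (hinj : ∀ b, Function.Injective (y b)) (a b c : Fin (m+1)) (i j : Vtx m q)
    (g : Multiset (Edge m q))
    (hs : (∀ e ∈ ((⟨a, c, i, j⟩ : Edge m q) ::ₘ g), ok y e) → IsM (Qf y (⟨a, c, i, j⟩ ::ₘ g)) →
      (Qf y (⟨a, c, i, j⟩ ::ₘ g)).card ≤ rm) :
    N ∣ (∑ v, val rm y (⟨a, b, i, v⟩ ::ₘ ⟨b, c, v, j⟩ ::ₘ g)) - val rm y (⟨a, c, i, j⟩ ::ₘ g) := by
  by_cases hg : ∀ e ∈ g, ok y e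
  swap
  · have h1 : ∀ v, val rm y (⟨a, b, i, v⟩ ::ₘ ⟨b, c, v, j⟩ ::ₘ g) = 0 := by
      intro v
      unfold val
      rw [if_neg]
      intro h
      exact hg (fun e he => h e (Multiset.mem_cons_of_mem (Multiset.mem_cons_of_mem he)))
    have h2 : val rm y (⟨a, c, i, j⟩ ::ₘ g) = 0 := by
      unfold val
      rw [if_neg]
      intro h
      exact hg (fun e he => h e (Multiset.mem_cons_of_mem he))
    simp only [h1, h2, Finset.sum_const_zero, sub_zero, dvd_zero]
  simp only [R1_val2 rm y _ _ g hg]
  rw [R1_val1 rm y _ g hg]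
  have hs' : ok y ⟨a, c, i, j⟩ → IsM (prs y ⟨a, c, i, j⟩ ∪ Qf y g) →
      (prs y ⟨a, c, i, j⟩ ∪ Qf y g).card ≤ rm := by
    intro h1 h2
    rw [← Qf_cons] at h2 ⊢
    refine hs ?_ h2
    intro e he
    rcases Multiset.mem_cons.mp he with rfl | he
    · exact h1
    · exact hg e he
  clear hs
  have hQh : ∀ x ∈ Qf y g, pos y x.1 = 0 := fun x hx => Qf_head y g hg x hx
  have hQne : (Qf y g).Nonempty := R1_Qf_ne y g
  generalize Qf y g = Q at *
  by_cases hb : b = 0
  · subst hb
    by_cases ha : a = 0
    · -- (2a)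
      subst ha
      have key : ∀ v, (if ok y ⟨0, 0, i, v⟩ ∧ ok y ⟨0, c, v, j⟩ then
          kap rm (prs y ⟨0, 0, i, v⟩ ∪ (prs y ⟨0, c, v, j⟩ ∪ Q)) else 0) =
          if i = v then (if ok y ⟨0, c, i, j⟩ then kap rm (prs y ⟨0, c, i, j⟩ ∪ Q) else 0) else 0 := by
        intro v
        by_cases hv : i = v
        · subst hv
          rw [if_pos rfl]
          by_cases h : ok y ⟨0, c, i, j⟩
          · have h1 : ok y ⟨0, 0, i, i⟩ :=
              ⟨h.1, h.1, fun h => absurd rfl h, fun _ _ => rfl⟩
            rw [if_pos ⟨h1, h⟩, if_pos h]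
            have h2 : prs y ⟨0, 0, i, i⟩ = ∅ := by simp [prs]
            rw [h2, Finset.empty_union]
          · rw [if_neg h, if_neg (fun h' => h h'.2)]
        · rw [if_neg hv, if_neg]
          intro h
          exact hv (h.1.2.2.2 rfl rfl)
      rw [Finset.sum_congr rfl (fun v _ => key v), Finset.sum_ite_eq, if_pos (Finset.mem_univ _),
        sub_self]
      exact dvd_zero _
    · by_cases hc : c = 0
      · -- (2b)
        subst hc
        have key : ∀ v, (if ok y ⟨a, 0, i, v⟩ ∧ ok y ⟨0, 0, v, j⟩ then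
            kap rm (prs y ⟨a, 0, i, v⟩ ∪ (prs y ⟨0, 0, v, j⟩ ∪ Q)) else 0) =
            if j = v then (if ok y ⟨a, 0, i, j⟩ then kap rm (prs y ⟨a, 0, i, j⟩ ∪ Q) else 0) else 0 := by
          intro v
          by_cases hv : j = v
          · subst hv
            rw [if_pos rfl]
            by_cases h : ok y ⟨a, 0, i, j⟩
            · have h1 : ok y ⟨0, 0, j, j⟩ :=
                ⟨h.2.1, h.2.1, fun h => absurd rfl h, fun _ _ => rfl⟩
              rw [if_pos ⟨h, h1⟩, if_pos h]
              have h2 : prs y ⟨0, 0, j, j⟩ = ∅ := by simp [prs]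
              rw [h2, Finset.empty_union]
            · rw [if_neg h, if_neg (fun h' => h h'.1)]
          · rw [if_neg hv, if_neg]
            intro h
            exact hv (h.2.2.2.2 rfl rfl).symm
        rw [Finset.sum_congr rfl (fun v _ => key v), Finset.sum_ite_eq, if_pos (Finset.mem_univ _),
          sub_self]
        exact dvd_zero _
      · -- (2c)
        have hE : ok y ⟨a, c, i, j⟩ ↔ (pos y i = a ∧ pos y j = c ∧ lbl y i = lbl y j) :=
          ⟨fun h => ⟨h.1, h.2.1, h.2.2.1 ha hc⟩, fun h => ⟨h.1, h.2.1, fun _ _ => h.2.2,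
            fun h' => absurd h' ha⟩⟩
        have hA : ∀ v, ok y ⟨a, 0, i, v⟩ ↔ (pos y i = a ∧ pos y v = 0) := fun v =>
          ⟨fun h => ⟨h.1, h.2.1⟩, fun h => ⟨h.1, h.2, fun _ h' => absurd rfl h',
            fun h' => absurd h' ha⟩⟩
        have hB : ∀ v, ok y ⟨0, c, v, j⟩ ↔ (pos y v = 0 ∧ pos y j = c) := fun v =>
          ⟨fun h => ⟨h.1, h.2.1⟩, fun h => ⟨h.1, h.2, fun h' => absurd rfl h',
            fun _ h' => absurd h' hc⟩⟩
        have pE : prs y ⟨a, c, i, j⟩ = ∅ := by simp [prs, ha, hc]
        have pA : ∀ v, prs y ⟨a, 0, i, v⟩ = {(v, lbl y i)} := by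
          intro v; simp [prs, ha]
        have pB : ∀ v, prs y ⟨0, c, v, j⟩ = {(v, lbl y j)} := by
          intro v; simp [prs, hc]
        simp only [pE, pA, pB, hE, hA, hB] at hs' ⊢
        by_cases hij : pos y i = a ∧ pos y j = c
        swap
        · rw [if_neg (fun h => hij ⟨h.1, h.2.1⟩)]
          have : ∀ v : Vtx m q, (if (pos y i = a ∧ pos y v = 0) ∧ pos y v = 0 ∧ pos y j = c then
              kap rm ({(v, lbl y i)} ∪ ({(v, lbl y j)} ∪ Q)) else 0) = 0 := by
            intro v
            rw [if_neg]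
            intro h
            exact hij ⟨h.1.1, h.2.2⟩
          simp only [this, Finset.sum_const_zero, sub_zero, dvd_zero]
        by_cases hl : lbl y i = lbl y j
        swap
        · rw [if_neg (fun h => hl h.2.2)]
          have : ∀ v : Vtx m q, (if (pos y i = a ∧ pos y v = 0) ∧ pos y v = 0 ∧ pos y j = c then
              kap rm ({(v, lbl y i)} ∪ ({(v, lbl y j)} ∪ Q)) else 0) = 0 := by
            intro v
            rw [R1_notM rm _ (v, lbl y i) (v, lbl y j) (by simp) (by simp)
              (fun h => hl (h.mp rfl))]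
            simp
          simp only [this, Finset.sum_const_zero, sub_zero, dvd_zero]
        rw [if_pos ⟨hij.1, hij.2, hl⟩, Finset.empty_union]
        have key : ∀ v : Vtx m q, (if (pos y i = a ∧ pos y v = 0) ∧ pos y v = 0 ∧ pos y j = c then
              kap rm ({(v, lbl y i)} ∪ ({(v, lbl y j)} ∪ Q)) else 0) =
              if pos y v = 0 then kap rm (insert (v, lbl y i) Q) else 0 := by
          intro v
          by_cases hv : pos y v = 0
          · rw [if_pos ⟨⟨hij.1, hv⟩, hv, hij.2⟩, if_pos hv, ← hl, ← Finset.insert_eq,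
              ← Finset.insert_eq, Finset.insert_idem]
          · rw [if_neg hv, if_neg (fun h => hv h.1.2)]
        rw [Finset.sum_congr rfl (fun v _ => key v), ← Finset.sum_filter]
        by_cases hM : IsM Q
        · have hk := kap_sum rm N (Finset.univ.filter (fun v : Vtx m q => pos y v = 0)) Q
            (fun x hx => by
              rw [Finset.mem_filter]
              exact ⟨Finset.mem_univ _, hQh x hx⟩) hQne (by
              have := hs' ⟨hij.1, hij.2, hl⟩
              rw [Finset.empty_union] at this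
              exact this hM) (hN.trans (by exact_mod_cast heads_dvd y hinj)) (lbl y i)
          convert hk
        · rw [R1_notM_sup rm Q Q (Finset.Subset.refl _) hM]
          have : ∀ v : Vtx m q, kap rm (insert (v, lbl y i) Q) = 0 := fun v =>
            R1_notM_sup rm Q _ (Finset.subset_insert _ _) hM
          simp only [this, Finset.sum_const_zero, sub_zero, dvd_zero]
  · -- (1)
    rw [R1_sum_letters y b hb (hinj b) _ (by
      intro v hv
      rw [if_neg]
      intro h
      exact hv h.1.2.1)]
    have hA : ∀ l, ok y ⟨a, b, i, Sum.inr (b, y b l)⟩ ↔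
        (pos y i = a ∧ (a ≠ 0 → lbl y i = l)) := by
      intro l
      constructor
      · intro h
        refine ⟨h.1, fun ha => ?_⟩
        have := h.2.2.1 ha hb
        simpa [lbl_letter y b (hinj b) l] using this
      · intro h
        refine ⟨h.1, pos_letter y b l, fun ha _ => ?_, fun _ h' => absurd h' hb⟩
        simpa [lbl_letter y b (hinj b) l] using h.2 ha
    have hB : ∀ l, ok y ⟨b, c, Sum.inr (b, y b l), j⟩ ↔
        (pos y j = c ∧ (c ≠ 0 → l = lbl y j)) := by
      intro l
      constructor
      · intro h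
        refine ⟨h.2.1, fun hc => ?_⟩
        have := h.2.2.1 hb hc
        simpa [lbl_letter y b (hinj b) l] using this
      · intro h
        refine ⟨pos_letter y b l, h.1, fun _ hc => ?_, fun h' => absurd h' hb⟩
        simpa [lbl_letter y b (hinj b) l] using h.2 hc
    have pA : ∀ l, prs y ⟨a, b, i, Sum.inr (b, y b l)⟩ = if a = 0 then {(i, l)} else ∅ := by
      intro l
      simp [prs, hb, lbl_letter y b (hinj b) l]
    have pB : ∀ l, prs y ⟨b, c, Sum.inr (b, y b l), j⟩ = if c = 0 then {(j, l)} else ∅ := by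
      intro l
      simp [prs, hb, lbl_letter y b (hinj b) l]
    simp only [hA, hB, pA, pB]
    by_cases ha : a = 0
    · by_cases hc : c = 0
      · -- (1d)
        subst ha; subst hc
        have hE : ok y ⟨0, 0, i, j⟩ ↔ (pos y i = 0 ∧ pos y j = 0 ∧ i = j) :=
          ⟨fun h => ⟨h.1, h.2.1, h.2.2.2 rfl rfl⟩, fun h => ⟨h.1, h.2.1, fun h' => absurd rfl h',
            fun _ _ => h.2.2⟩⟩
        have pE : prs y ⟨0, 0, i, j⟩ = ∅ := by simp [prs]
        simp only [hE, pE, Finset.empty_union] at hs' ⊢
        simp only [ne_eq, not_true_eq_false, false_imp_iff, and_true, if_true]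
        by_cases hij : i = j
        · subst hij
          by_cases hp : pos y i = 0
          · have key : ∀ l, (if pos y i = 0 ∧ pos y i = 0 then
                kap rm ({(i, l)} ∪ ({(i, l)} ∪ Q)) else 0) = kap rm (insert (i, l) Q) := by
              intro l
              rw [if_pos ⟨hp, hp⟩, ← Finset.insert_eq,
                ← Finset.insert_eq, Finset.insert_idem]
            rw [Finset.sum_congr rfl (fun l _ => key l), if_pos ⟨hp, hp, rfl⟩]
            by_cases hM : IsM Q
            · have hk := kap_sum' rm N Q hQne (hs' ⟨hp, hp, rfl⟩ hM) (by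
                rw [Fintype.card_fin]
                exact hN) i
              convert hk
            · rw [R1_notM_sup rm Q Q (Finset.Subset.refl _) hM]
              have : ∀ l : Fin q, kap rm (insert (i, l) Q) = 0 := fun v =>
                R1_notM_sup rm Q _ (Finset.subset_insert _ _) hM
              simp only [this, Finset.sum_const_zero, sub_zero, dvd_zero]
          · simp only [hp, false_and, if_false, Finset.sum_const_zero, sub_zero, dvd_zero]
        · rw [if_neg (fun h => hij h.2.2)]
          have : ∀ l : Fin q, (if pos y i = 0 ∧ pos y j = 0 then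
                kap rm ({(i, l)} ∪ ({(j, l)} ∪ Q)) else 0) = 0 := by
            intro l
            rw [R1_notM rm _ (i, l) (j, l) (by simp) (by simp)
              (fun h => hij (h.mpr rfl))]
            simp
          simp only [this, Finset.sum_const_zero, sub_zero, dvd_zero]
      · -- (1b)
        subst ha
        have hE : ok y ⟨0, c, i, j⟩ ↔ (pos y i = 0 ∧ pos y j = c) :=
          ⟨fun h => ⟨h.1, h.2.1⟩, fun h => ⟨h.1, h.2, fun h' => absurd rfl h',
            fun _ h' => absurd h' hc⟩⟩
        have pE : prs y ⟨0, c, i, j⟩ = {(i, lbl y j)} := by simp [prs, hc]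
        simp only [hE, pE, if_neg hc, Finset.empty_union]
        simp only [ne_eq, not_true_eq_false, false_imp_iff, and_true, if_true, hc, not_false_eq_true,
          true_imp_iff]
        have key : ∀ l, (if pos y i = 0 ∧ pos y j = c ∧ l = lbl y j then
            kap rm ({(i, l)} ∪ Q) else 0) = if l = lbl y j then
              (if pos y i = 0 ∧ pos y j = c then kap rm ({(i, lbl y j)} ∪ Q) else 0) else 0 := by
          intro l
          by_cases hl : l = lbl y j
          · subst hl
            rw [if_pos rfl]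
            by_cases h : pos y i = 0 ∧ pos y j = c
            · rw [if_pos h, if_pos ⟨h.1, h.2, rfl⟩]
            · rw [if_neg h, if_neg (fun h' => h ⟨h'.1, h'.2.1⟩)]
          · rw [if_neg hl, if_neg (fun h' => hl h'.2.2)]
        rw [Finset.sum_congr rfl (fun l _ => key l), Finset.sum_ite_eq', if_pos (Finset.mem_univ _),
          sub_self]
        exact dvd_zero _
    · by_cases hc : c = 0
      · -- (1c)
        subst hc
        have hE : ok y ⟨a, 0, i, j⟩ ↔ (pos y i = a ∧ pos y j = 0) :=
          ⟨fun h => ⟨h.1, h.2.1⟩, fun h => ⟨h.1, h.2, fun _ h' => absurd rfl h',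
            fun h' => absurd h' ha⟩⟩
        have pE : prs y ⟨a, 0, i, j⟩ = {(j, lbl y i)} := by simp [prs, ha]
        simp only [hE, pE, if_neg ha, Finset.empty_union]
        simp only [ne_eq, not_true_eq_false, false_imp_iff, and_true, if_true, ha, not_false_eq_true,
          true_imp_iff]
        have key : ∀ l, (if (pos y i = a ∧ lbl y i = l) ∧ pos y j = 0 then
            kap rm ({(j, l)} ∪ Q) else 0) = if lbl y i = l then
              (if pos y i = a ∧ pos y j = 0 then kap rm ({(j, lbl y i)} ∪ Q) else 0) else 0 := by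
          intro l
          by_cases hl : lbl y i = l
          · subst hl
            rw [if_pos rfl]
            by_cases h : pos y i = a ∧ pos y j = 0
            · rw [if_pos h, if_pos ⟨⟨h.1, rfl⟩, h.2⟩]
            · rw [if_neg h, if_neg (fun h' => h ⟨h'.1.1, h'.2⟩)]
          · rw [if_neg hl, if_neg (fun h' => hl h'.1.2)]
        rw [Finset.sum_congr rfl (fun l _ => key l), Finset.sum_ite_eq, if_pos (Finset.mem_univ _),
          sub_self]
        exact dvd_zero _
      · -- (1a)
        have hE : ok y ⟨a, c, i, j⟩ ↔ (pos y i = a ∧ pos y j = c ∧ lbl y i = lbl y j) :=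
          ⟨fun h => ⟨h.1, h.2.1, h.2.2.1 ha hc⟩, fun h => ⟨h.1, h.2.1, fun _ _ => h.2.2,
            fun h' => absurd h' ha⟩⟩
        have pE : prs y ⟨a, c, i, j⟩ = ∅ := by simp [prs, ha, hc]
        simp only [hE, pE, if_neg ha, if_neg hc, Finset.empty_union]
        simp only [ne_eq, ha, hc, not_false_eq_true, true_imp_iff]
        have key : ∀ l, (if (pos y i = a ∧ lbl y i = l) ∧ pos y j = c ∧ l = lbl y j then
            kap rm Q else 0) = if lbl y i = l then
              (if pos y i = a ∧ pos y j = c ∧ lbl y i = lbl y j then kap rm Q else 0) else 0 := by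
          intro l
          by_cases hl : lbl y i = l
          · subst hl
            rw [if_pos rfl]
            by_cases h : pos y i = a ∧ pos y j = c ∧ lbl y i = lbl y j
            · rw [if_pos h, if_pos ⟨⟨h.1, rfl⟩, h.2.1, h.2.2⟩]
            · rw [if_neg h, if_neg (fun h' => h ⟨h'.1.1, h'.2.1, h'.2.2⟩)]
          · rw [if_neg hl, if_neg (fun h' => hl h'.1.2)]
        rw [Finset.sum_congr rfl (fun l _ => key l), Finset.sum_ite_eq, if_pos (Finset.mem_univ _),
          sub_self]
        exact dvd_zero _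

end

end Pool.Agent.RepFLR
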