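import Pool.Agent.Helper26.FLR.Fe

set_option autoImplicit false

namespace Pool.Agent.RepFLR

open Classical

section
variable {m q : ℕ} [NeZero q]

end

section
variable {m q : ℕ} [NeZero q]

end

section
variable {q : ℕ} [NeZero q]

end

section
variable {q : ℕ} [NeZero q]

end

section
variable {m q : ℕ} [NeZero q]

end

section
variable {m q : ℕ} [NeZero q]

end

section
variable {m q : ℕ} [NeZero q]

end

section
variable {m q : ℕ} [NeZero q]

end

section
variable {m q : ℕ} [NeZero q]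

end

section
variable {m q : ℕ} [NeZero q]

end

section
variable {m q : ℕ} [NeZero q]

end

section
variable {m q : ℕ} [NeZero q]

end

section
variable {m q : ℕ} [NeZero q]

end

section
variable {m q : ℕ} [NeZero q]

end

section
variable {m q : ℕ} [NeZero q]

end

section
variable {m q : ℕ} [NeZero q]

end

section
variable {m q : ℕ} [NeZero q]

theorem Yf_eq_7644 (rm : ℕ) (f : Multiset (Edge m q)) :
    Yf rm f = ∑ y : St m q, nuy y * val rm y f := rfl

theorem EE_zero_7644 (p : ℕ) (kk : Fin (m+1) → ℕ) (rm : ℕ) (j0 : Vtx m q) (f : Multiset (Edge m q))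
    (h : ∀ y : St m q, val rm y f = 0) : EE p kk rm j0 f = 0 := by
  unfold EE
  split_ifs
  · rw [Yf_eq_7644, Finset.sum_eq_zero (fun y _ => by rw [h y, mul_zero]), mul_zero]
  · rfl

theorem bal_cons_7644 (j0 : Vtx m q) (a b c : Fin (m+1)) (i j v : Vtx m q)
    (g : Multiset (Edge m q)) :
    bal j0 ((⟨a, b, i, v⟩ : Edge m q) ::ₘ ⟨b, c, v, j⟩ ::ₘ g) ↔
      bal j0 ((⟨a, c, i, j⟩ : Edge m q) ::ₘ g) := by
  unfold bal
  refine forall_congr' fun w => ?_
  simp only [Multiset.map_cons, Multiset.sum_cons]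
  constructor
  · intro h; rw [← h]; ring
  · intro h; rw [← h]; ring

theorem bal_loop_7644 (j0 : Vtx m q) (a : Fin (m+1)) (i : Vtx m q)
    (g : Multiset (Edge m q)) :
    bal j0 ((⟨a, a, i, i⟩ : Edge m q) ::ₘ g) ↔ bal j0 g := by
  unfold bal
  refine forall_congr' fun w => ?_
  simp only [Multiset.map_cons, Multiset.sum_cons]
  constructor
  · intro h; rw [← h]; ring
  · intro h; rw [← h]; ring

theorem bal_indep_7644 (j0 : Vtx m q) (a b a' b' : Fin (m+1)) (i j : Vtx m q)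
    (g : Multiset (Edge m q)) :
    bal j0 ((⟨a, b, i, j⟩ : Edge m q) ::ₘ g) ↔ bal j0 ((⟨a', b', i, j⟩ : Edge m q) ::ₘ g) := by
  unfold bal
  refine forall_congr' fun w => ?_
  simp only [Multiset.map_cons, Multiset.sum_cons]

theorem wf_cons_7644 (kk : Fin (m+1) → ℕ) (e : Edge m q) (g : Multiset (Edge m q)) :
    wf kk (e ::ₘ g) = wt kk e.a e.b + wf kk g := by
  unfold wf
  simp only [Multiset.map_cons, Multiset.sum_cons]

end

theorem wt_self_7644 {m : ℕ} (kk : Fin (m+1) → ℕ) (a : Fin (m+1)) : wt kk a a = 1 := by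
  unfold wt
  simp

theorem wt_tri_7644 {m : ℕ} (kk : Fin (m+1) → ℕ) (a b c : Fin (m+1)) :
    wt kk a c ≤ wt kk a b + wt kk b c := by
  unfold wt
  by_cases h1 : kk a = kk c ∧ c ≤ a
  · rw [if_pos h1]
    obtain ⟨h1, h2⟩ := h1
    by_cases h3 : kk a = kk b
    · by_cases h4 : b ≤ a
      · rw [if_pos ⟨h3, h4⟩]; omega
      · have h5 : c ≤ b := h2.trans (not_le.1 h4).le
        rw [if_pos (⟨h3.symm.trans h1, h5⟩ : kk b = kk c ∧ c ≤ b)]; omega
    · omega
  · rw [if_neg h1]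
    omega

theorem nu_empty_7644 {q : ℕ} [NeZero q] (x : Fin q → Ltr q) : nu ∅ x = 1 := by
  rw [nu]
  simp

section
variable {m q : ℕ} [NeZero q]

theorem nuy_corner_7644 (bs : Fin (m+1)) :
    ∑ y : St m q, nuy y * (if y bs 0 = (0, 0) then 1 else 0) = 1 := by
  have h1 : ∀ y : St m q, nuy y * (if y bs 0 = (0, 0) then 1 else 0) =
      ∏ b, (nu Finset.univ (y b) * (if b = bs then (if y b 0 = (0, 0) then 1 else 0) else 1)) := by
    intro y
    rw [Finset.prod_mul_distrib, Finset.prod_ite_eq']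
    simp only [Finset.mem_univ, if_true]
    rfl
  rw [Finset.sum_congr rfl (fun y _ => h1 y)]
  have h2 := Finset.prod_univ_sum (fun _ : Fin (m+1) => (Finset.univ : Finset (Fin q → Ltr q)))
    (fun b u => nu Finset.univ u * (if b = bs then (if u 0 = (0, 0) then (1 : ℤ) else 0) else 1))
  rw [Fintype.piFinset_univ] at h2
  rw [← h2]
  apply Finset.prod_eq_one
  intro b _
  by_cases hb : b = bs
  · simp only [hb, if_true]
    have h3 := nu_total {(0 : Fin q)} (fun _ => ((0, 0) : Ltr q))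
    rw [nu_single] at h3
    simpa using h3
  · simp only [hb, if_false]
    have h3 := nu_total (∅ : Finset (Fin q)) (fun _ => ((0, 0) : Ltr q))
    rw [nu_empty_7644] at h3
    simpa using h3

end

section
variable {m q : ℕ} [NeZero q]

theorem EE_R1_ne (p : ℕ) (kk : Fin (m+1) → ℕ) (rm : ℕ) (j0 : Vtx m q)
    (a b c d : Fin (m+1)) (hbc : b ≠ c) (i v j : Vtx m q) (g : Multiset (Edge m q)) :
    EE p kk rm j0 (⟨a, b, i, v⟩ ::ₘ ⟨c, d, v, j⟩ ::ₘ g) = 0 :=
  EE_zero_7644 p kk rm j0 _ (fun y => R1_pt_ne rm y a b c d hbc i v j g)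

end

section
variable {m q : ℕ} [NeZero q]

theorem EE_R1 (p M KK rm : ℕ) (hq : q = p^M) (hKM : KK ≤ M) (hKr : KK ≤ rm)
    (kk : Fin (m+1) → ℕ) (hanti : Antitone kk) (j0 : Vtx m q)
    (a b c : Fin (m+1)) (i j : Vtx m q) (g : Multiset (Edge m q)) :
    ((p:ℤ)^KK) ∣ (∑ v, EE p kk rm j0 (⟨a, b, i, v⟩ ::ₘ ⟨b, c, v, j⟩ ::ₘ g)) -
      (p:ℤ)^(wt kk a b + wt kk b c - wt kk a c) * EE p kk rm j0 (⟨a, c, i, j⟩ ::ₘ g) := by
  by_cases hbal : bal j0 ((⟨a, c, i, j⟩ : Edge m q) ::ₘ g)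
  · have hbal' : ∀ v, bal j0 ((⟨a, b, i, v⟩ : Edge m q) ::ₘ ⟨b, c, v, j⟩ ::ₘ g) := fun v =>
      (bal_cons_7644 j0 a b c i j v g).2 hbal
    obtain ⟨W, hW⟩ : ∃ W, W = wt kk a b + wt kk b c + wf kk g := ⟨_, rfl⟩
    have htri := wt_tri_7644 kk a b c
    have e1 : ∀ v, EE p kk rm j0 ((⟨a, b, i, v⟩ : Edge m q) ::ₘ ⟨b, c, v, j⟩ ::ₘ g) =
        (p:ℤ)^W * ∑ y : St m q, nuy y * val rm y (⟨a, b, i, v⟩ ::ₘ ⟨b, c, v, j⟩ ::ₘ g) := by
      intro v
      unfold EE
      rw [if_pos (hbal' v), wf_cons_7644, wf_cons_7644, Yf_eq_7644]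
      congr 2
      simp only
      omega
    have e2 : (p:ℤ)^(wt kk a b + wt kk b c - wt kk a c) * EE p kk rm j0 (⟨a, c, i, j⟩ ::ₘ g) =
        (p:ℤ)^W * ∑ y : St m q, nuy y * val rm y (⟨a, c, i, j⟩ ::ₘ g) := by
      unfold EE
      rw [if_pos hbal, wf_cons_7644, Yf_eq_7644, ← mul_assoc, ← pow_add]
      congr 2
      simp only
      omega
    rw [Finset.sum_congr rfl (fun v _ => e1 v), e2, ← Finset.mul_sum, Finset.sum_comm, ← mul_sub,
      ← Finset.sum_sub_distrib]
    by_cases hKW : KK ≤ W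
    · exact Dvd.dvd.mul_right (pow_dvd_pow _ hKW) _
    · apply Dvd.dvd.mul_left
      apply Finset.dvd_sum
      intro y _
      rw [← Finset.mul_sum, ← mul_sub]
      by_cases hy : nuy y = 0
      · rw [hy, zero_mul]; exact dvd_zero _
      · apply Dvd.dvd.mul_left
        refine R1_pt rm ((p:ℤ)^KK) ?_ y (nuy_inj y hy) a b c i j g ?_
        · rw [hq]
          push_cast
          exact pow_dvd_pow _ hKM
        · intro hok hM
          have h1 := Qf_card kk j0 y _ hbal hok hM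
          rw [wf_cons_7644] at h1
          simp only at h1
          omega
  · have hbal' : ∀ v, ¬ bal j0 ((⟨a, b, i, v⟩ : Edge m q) ::ₘ ⟨b, c, v, j⟩ ::ₘ g) := fun v h =>
      hbal ((bal_cons_7644 j0 a b c i j v g).1 h)
    have e1 : ∀ v, EE p kk rm j0 ((⟨a, b, i, v⟩ : Edge m q) ::ₘ ⟨b, c, v, j⟩ ::ₘ g) = 0 := by
      intro v
      unfold EE
      rw [if_neg (hbal' v)]
    have e2 : EE p kk rm j0 ((⟨a, c, i, j⟩ : Edge m q) ::ₘ g) = 0 := by
      unfold EE
      rw [if_neg hbal]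
    rw [Finset.sum_eq_zero (fun v _ => e1 v), e2]
    simp

end

section
variable {m q : ℕ} [NeZero q]

theorem EE_R2 (p : ℕ) (kk : Fin (m+1) → ℕ) (rm : ℕ) (j0 : Vtx m q)
    (i j : Vtx m q) (g : Multiset (Edge m q)) :
    ∑ a, EE p kk rm j0 (⟨a, a, i, j⟩ ::ₘ g) = if i = j then (p:ℤ) * EE p kk rm j0 g else 0 := by
  by_cases hbal : bal j0 ((⟨0, 0, i, j⟩ : Edge m q) ::ₘ g)
  · have e1 : ∀ a, EE p kk rm j0 ((⟨a, a, i, j⟩ : Edge m q) ::ₘ g) =
        (p:ℤ)^(1 + wf kk g) * ∑ y : St m q, nuy y * val rm y (⟨a, a, i, j⟩ ::ₘ g) := by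
      intro a
      unfold EE
      rw [if_pos ((bal_indep_7644 j0 0 0 a a i j g).1 hbal), wf_cons_7644, Yf_eq_7644]
      simp only [wt_self_7644]
    rw [Finset.sum_congr rfl (fun a _ => e1 a), ← Finset.mul_sum, Finset.sum_comm]
    have e2 : ∀ y : St m q, ∑ a, nuy y * val rm y ((⟨a, a, i, j⟩ : Edge m q) ::ₘ g) =
        nuy y * (if i = j then val rm y g else 0) := by
      intro y
      rw [← Finset.mul_sum, R2_pt]
    rw [Finset.sum_congr rfl (fun y _ => e2 y)]
    by_cases hij : i = j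
    · subst hij
      simp only [if_true]
      unfold EE
      rw [if_pos ((bal_loop_7644 j0 0 i g).1 hbal), Yf_eq_7644, pow_add, pow_one, mul_assoc]
    · simp only [hij, if_false, mul_zero, Finset.sum_const_zero]
  · have e1 : ∀ a, EE p kk rm j0 ((⟨a, a, i, j⟩ : Edge m q) ::ₘ g) = 0 := by
      intro a
      unfold EE
      rw [if_neg (fun h => hbal ((bal_indep_7644 j0 a a 0 0 i j g).1 h))]
    rw [Finset.sum_eq_zero (fun a _ => e1 a)]
    by_cases hij : i = j
    · subst hij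
      rw [if_pos rfl]
      unfold EE
      rw [if_neg (fun h => hbal ((bal_loop_7644 j0 0 i g).2 h)), mul_zero]
    · rw [if_neg hij]

end

section
variable {m q : ℕ} [NeZero q]

theorem EE_row (p : ℕ) (kk : Fin (m+1) → ℕ) (rm : ℕ) (j0 : Vtx m q) (a b : Fin (m+1)) (ha : a ≠ 0)
    (j : Vtx m q) (g : Multiset (Edge m q)) :
    EE p kk rm j0 (⟨a, b, Sum.inl 0, j⟩ ::ₘ g) = 0 :=
  EE_zero_7644 p kk rm j0 _ (fun y => row_pt rm y a b ha j g)

end

section
variable {m q : ℕ} [NeZero q]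

/-- the sink vertex for the last level-zero position `bs` -/
noncomputable def snk (m q : ℕ) [NeZero q] (bs : Fin (m+1)) : Vtx m q :=
  if bs = 0 then Sum.inl 0 else Sum.inr (bs, (0, 0))

end

section
variable {m q : ℕ} [NeZero q]

theorem EE_col (p : ℕ) (kk : Fin (m+1) → ℕ) (rm : ℕ) (bs b : Fin (m+1)) (hb : b ≠ bs)
    (g : Multiset (Edge m q)) :
    EE p kk rm (snk m q bs) (⟨0, b, Sum.inl 0, snk m q bs⟩ ::ₘ g) = 0 := by
  apply EE_zero_7644
  intro y
  unfold snk
  by_cases h : bs = 0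
  · rw [if_pos h]
    exact col_pt0 rm y b (by rw [← h]; exact hb) g
  · rw [if_neg h]
    exact col_pt rm y b bs h hb (0, 0) g

end

section
variable {m q : ℕ} [NeZero q]

theorem kap_single_7644 (rm : ℕ) :
    kap rm ({(Sum.inl 0, 0)} : Finset (Vtx m q × Fin q)) = (rm.factorial : ℤ) := by
  unfold kap
  rw [if_pos, Finset.card_singleton]
  · unfold kh
    rw [if_pos (by omega)]
    simp
  · intro x hx z hz
    rw [Finset.mem_singleton] at hx hz
    rw [hx, hz]
    simp

theorem Qf_single_7644 (y : St m q) (e : Edge m q) :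
    Qf y {e} = insert (Sum.inl 0, 0) (prs y e) := by
  unfold Qf
  simp

theorem val_corner_7644 (rm : ℕ) (y : St m q) (bs : Fin (m+1)) (hbs : bs ≠ 0)
    (hinj : Function.Injective (y bs)) :
    val rm y {⟨0, bs, Sum.inl 0, Sum.inr (bs, (0, 0))⟩} =
      (if y bs 0 = (0, 0) then 1 else 0) * (rm.factorial : ℤ) := by
  unfold val
  have hprs : prs y (⟨0, bs, Sum.inl 0, Sum.inr (bs, (0, 0))⟩ : Edge m q) =
      {(Sum.inl 0, lbl y (Sum.inr (bs, (0, 0))))} := by
    unfold prs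
    rw [if_pos ⟨rfl, hbs⟩]
  rw [Qf_single_7644, hprs]
  by_cases h0 : y bs 0 = (0, 0)
  · have hl := lbl_letter y bs hinj 0
    have hp := pos_letter y bs 0
    rw [h0] at hl hp
    rw [if_pos h0, one_mul, if_pos, hl]
    · rw [Finset.pair_eq_singleton]
      exact kap_single_7644 rm
    · intro e he
      rw [Multiset.mem_singleton] at he
      subst he
      refine ⟨rfl, hp, fun h => absurd rfl h, fun _ h => absurd h hbs⟩
  · rw [if_neg h0, zero_mul]
    split_ifs with hok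
    · have h1 := hok _ (Multiset.mem_singleton_self _)
      have h2 : pos y (Sum.inr (bs, (0, 0))) = bs := h1.2.1
      have h3 := lbl_spec y (Sum.inr (bs, (0, 0))) (by rw [h2]; exact hbs)
      rw [h2] at h3
      simp only [Sum.inr.injEq, Prod.mk.injEq, true_and] at h3
      unfold kap
      rw [if_neg]
      intro hM
      have h4 := hM (Sum.inl 0, 0) (Finset.mem_insert_self _ _)
        (Sum.inl 0, lbl y (Sum.inr (bs, (0, 0)))) (Finset.mem_insert_of_mem
          (Finset.mem_singleton_self _))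
      have h5 : (0 : Fin q) = lbl y (Sum.inr (bs, (0, 0))) := h4.1 rfl
      rw [← h5] at h3
      exact h0 h3.symm
    · rfl

theorem EE_corner (p : ℕ) (kk : Fin (m+1) → ℕ) (rm : ℕ) (bs : Fin (m+1)) :
    EE p kk rm (snk m q bs) {⟨0, bs, Sum.inl 0, snk m q bs⟩} =
      (p:ℤ)^(wt kk 0 bs) * (rm.factorial : ℤ) := by
  have hbal : bal (snk m q bs) ({⟨0, bs, Sum.inl 0, snk m q bs⟩} : Multiset (Edge m q)) := by
    intro v
    simp
  have hwf : wf kk ({⟨0, bs, Sum.inl 0, snk m q bs⟩} : Multiset (Edge m q)) = wt kk 0 bs := by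
    unfold wf
    simp
  unfold EE
  rw [if_pos hbal, hwf, Yf_eq_7644]
  congr 1
  by_cases h : bs = 0
  · subst h
    have hs : snk m q 0 = Sum.inl 0 := by unfold snk; simp
    rw [hs]
    have h1 : ∀ y : St m q, val rm y {⟨0, 0, Sum.inl 0, Sum.inl 0⟩} = (rm.factorial : ℤ) := by
      intro y
      unfold val
      rw [if_pos]
      · rw [Qf_single_7644]
        have : prs y (⟨0, 0, Sum.inl 0, Sum.inl 0⟩ : Edge m q) = ∅ := by
          unfold prs
          simp
        rw [this, insert_empty_eq]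
        exact kap_single_7644 rm
      · intro e he
        rw [Multiset.mem_singleton] at he
        subst he
        exact ⟨rfl, rfl, fun h => absurd rfl h, fun _ _ => rfl⟩
    rw [Finset.sum_congr rfl (fun y _ => by rw [h1 y]), ← Finset.sum_mul, nuy_total, one_mul]
  · have hs : snk m q bs = Sum.inr (bs, (0, 0)) := by unfold snk; simp [h]
    rw [hs]
    have h1 : ∀ y : St m q, nuy y * val rm y {⟨0, bs, Sum.inl 0, Sum.inr (bs, (0, 0))⟩} =
        (nuy y * (if y bs 0 = (0, 0) then 1 else 0)) * (rm.factorial : ℤ) := by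
      intro y
      by_cases hy : nuy y = 0
      · rw [hy]; ring
      · rw [val_corner_7644 rm y bs h (nuy_inj y hy bs)]; ring
    rw [Finset.sum_congr rfl (fun y _ => h1 y), ← Finset.sum_mul, nuy_corner_7644, one_mul]

end

end Pool.Agent.RepFLR
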