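import Pool.Agent.Helper26.FLR.Ff

set_option autoImplicit false

namespace Pool.Agent.RepFLR

open Classical

section
variable {m q : ℕ} [NeZero q]

end

section
variable {m q : ℕ} [NeZero q]

end

section
variable {m q : ℕ} [NeZero q]

end

section
variable {m q : ℕ} [NeZero q]

end

section
variable {m q : ℕ} [NeZero q]

end

section
variable {m q : ℕ} [NeZero q]

end

section
variable {m q : ℕ} [NeZero q]

end

section
variable {m q : ℕ} [NeZero q]

end

section
variable {m q : ℕ} [NeZero q]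

/-- visible head of a monomial -/
def hdv (f : Multiset (Edge m q)) (v : Vtx m q) : Prop :=
  ∃ e ∈ f, (e.i = v ∧ e.a = 0) ∨ (e.j = v ∧ e.b = 0)

end

section
variable {m q : ℕ} [NeZero q]

/-- adjacency by edges of `f` -/
def adj (f : Multiset (Edge m q)) (u v : Vtx m q) : Prop :=
  ∃ e ∈ f, (e.i = u ∧ e.j = v) ∨ (e.i = v ∧ e.j = u)

end

section
variable {m q : ℕ} [NeZero q]

/-- good vertices: connected to a visible head -/
def good (f : Multiset (Edge m q)) (v : Vtx m q) : Prop :=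
  ∃ h, hdv f h ∧ Relation.ReflTransGen (adj f) h v

end

section
variable {m q : ℕ} [NeZero q]

/-- adjacency of positions by bad edges -/
def padj (f : Multiset (Edge m q)) (b c : Fin (m+1)) : Prop :=
  ∃ e ∈ f, ¬ good f e.i ∧ ((e.a = b ∧ e.b = c) ∨ (e.a = c ∧ e.b = b))

end

section
variable {m q : ℕ} [NeZero q]

/-- positions reachable from `a` by bad edges -/
noncomputable def Bs (f : Multiset (Edge m q)) (a : Fin (m+1)) : Finset (Fin (m+1)) :=
  Finset.univ.filter (fun b => Relation.ReflTransGen (padj f) a b)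

end

theorem j7799_card {E : Type} (f : Multiset E) (w : E → ℕ) :
    (f.filter (fun e => 1 ≤ w e)).card ≤ (f.map w).sum := by
  induction f using Multiset.induction_on with
  | empty => simp
  | cons a s ih =>
    by_cases h : 1 ≤ w a
    · rw [Multiset.filter_cons_of_pos (p := fun e => 1 ≤ w e) s h, Multiset.card_cons, Multiset.map_cons,
        Multiset.sum_cons]
      omega
    · rw [Multiset.filter_cons_of_neg (p := fun e => 1 ≤ w e) s h, Multiset.map_cons, Multiset.sum_cons]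
      omega

theorem j7799_cover {E γ : Type} (f : Multiset E) (w : E → ℕ) (cl : E → γ) (C : Finset γ)
    (h : ∀ c ∈ C, ∃ e ∈ f, cl e = c ∧ 1 ≤ w e) : C.card ≤ (f.map w).sum := by
  classical
  have h1 : C ⊆ ((f.filter (fun e => 1 ≤ w e)).map cl).toFinset := by
    intro c hc
    obtain ⟨e, he, hec, hw⟩ := h c hc
    rw [Multiset.mem_toFinset, Multiset.mem_map]
    exact ⟨e, Multiset.mem_filter.2 ⟨he, hw⟩, hec⟩
  calc C.card ≤ ((f.filter (fun e => 1 ≤ w e)).map cl).toFinset.card := Finset.card_le_card h1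
    _ ≤ ((f.filter (fun e => 1 ≤ w e)).map cl).card := Multiset.toFinset_card_le _
    _ = (f.filter (fun e => 1 ≤ w e)).card := Multiset.card_map _ _
    _ ≤ (f.map w).sum := j7799_card f w

-- G lemmas

theorem G_cover {E : Type} (s : Multiset E) (lo hi : E → ℕ) (w : E → ℕ) (hw : ∀ e ∈ s, hi e - lo e ≤ w e)
    (T : Finset ℕ) (h : ∀ t ∈ T, ∃ e ∈ s, lo e ≤ t ∧ t < hi e) : T.card ≤ (s.map w).sum := by
  induction s using Multiset.induction_on generalizing T with
  | empty =>
    have : T = ∅ := by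
      rw [Finset.eq_empty_iff_forall_notMem]
      intro t ht
      obtain ⟨e, he, _⟩ := h t ht
      exact absurd he (Multiset.notMem_zero e)
    simp [this]
  | cons e s ih =>
    rw [Multiset.map_cons, Multiset.sum_cons]
    have h1 : (T.filter (fun t => ¬ (lo e ≤ t ∧ t < hi e))).card ≤ (s.map w).sum := by
      apply ih (fun e' he' => hw e' (Multiset.mem_cons_of_mem he'))
      intro t ht
      rw [Finset.mem_filter] at ht
      obtain ⟨e', he', h'⟩ := h t ht.1
      rcases Multiset.mem_cons.1 he' with h5 | h5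
      · subst h5; exact absurd h' ht.2
      · exact ⟨e', h5, h'⟩
    have h2 : (T.filter (fun t => (lo e ≤ t ∧ t < hi e))).card ≤ w e := by
      refine le_trans (Finset.card_le_card (t := Finset.Ico (lo e) (hi e)) ?_) ?_
      · intro t ht
        rw [Finset.mem_filter] at ht
        exact Finset.mem_Ico.2 ht.2
      · rw [Nat.card_Ico]; exact hw e (Multiset.mem_cons_self e s)
    have h3 := Finset.card_filter_add_card_filter_not (s := T) (fun t => (lo e ≤ t ∧ t < hi e))
    omega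

/-- thresholds -/
theorem G_cross {m q : ℕ} [NeZero q] (kk : Fin (m+1) → ℕ) (j0 : Vtx m q)
    (f : Multiset (Edge m q)) (hb : bal j0 f)
    (ps : Vtx m q → Fin (m+1)) (hps : ∀ e ∈ f, ps e.i = e.a ∧ ps e.j = e.b)
    (U : Set (Vtx m q)) (hU : ∀ e ∈ f, (e.i ∈ U ↔ e.j ∈ U))
    (t : ℕ) (ht : t < kk (ps (Sum.inl 0))) (ht' : t < kk (ps j0))
    (hno : ∀ e ∈ f, e.i ∈ U → ¬ (t < kk e.a ∧ kk e.b ≤ t)) :
    ∀ e ∈ f, e.i ∈ U → (t < kk e.a ↔ t < kk e.b) := by
  -- 1_U balanced
  have h1 : (if (Sum.inl 0 : Vtx m q) ∈ U then (1:ℤ) else 0) - (if j0 ∈ U then (1:ℤ) else 0) = 0 := by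
    have h := bal_pot j0 f hb (fun v => if v ∈ U then 1 else 0)
    rw [← h]
    apply Multiset.sum_eq_zero
    intro x hx
    rw [Multiset.mem_map] at hx
    obtain ⟨e, he, rfl⟩ := hx
    by_cases hi : e.i ∈ U
    · rw [if_pos hi, if_pos ((hU e he).mp hi)]; simp
    · rw [if_neg hi, if_neg (fun h => hi ((hU e he).mpr h))]; simp
  set ψ : Vtx m q → ℤ := fun v => if v ∈ U then (if t < kk (ps v) then 1 else 0) else 0 with hψ
  have h := bal_pot j0 f hb ψ
  have h2 : ψ (Sum.inl 0) - ψ j0 = 0 := by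
    simp only [hψ]
    rw [if_pos ht, if_pos ht']; exact h1
  rw [h2] at h
  have hle : ∀ e ∈ f, ψ e.i - ψ e.j ≤ 0 := by
    intro e he
    by_cases hi : e.i ∈ U
    · have hj' := (hU e he).mp hi
      simp only [hψ]
      rw [if_pos hi, if_pos hj', (hps e he).1, (hps e he).2]
      have := hno e he hi
      split_ifs with h3 h4 <;> simp_all
    · have hj' : e.j ∉ U := fun h => hi ((hU e he).mpr h)
      simp only [hψ]
      rw [if_neg hi, if_neg hj']; simp
  intro e he hi
  have hj' := (hU e he).mp hi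
  constructor
  · intro h3
    by_contra h4
    exact hno e he hi ⟨h3, not_lt.mp h4⟩
  · intro h3
    by_contra h4
    have hlt : ψ e.i - ψ e.j < 0 := by
      simp only [hψ]
      rw [if_pos hi, if_pos hj', (hps e he).1, (hps e he).2, if_neg h4, if_pos h3]; simp
    obtain ⟨s, hs⟩ := Multiset.exists_cons_of_mem he
    rw [hs, Multiset.map_cons, Multiset.sum_cons] at h
    have hs' : (s.map (fun e => ψ e.i - ψ e.j)).sum ≤ 0 := by
      have h1 : 0 ≤ (s.map (fun e => -(ψ e.i - ψ e.j))).sum := by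
        apply Multiset.sum_nonneg
        intro x hx
        rw [Multiset.mem_map] at hx
        obtain ⟨e, he, rfl⟩ := hx
        have := hle e (by rw [hs]; exact Multiset.mem_cons_of_mem he)
        linarith
      have h2 : (s.map (fun e => -(ψ e.i - ψ e.j))).sum = -(s.map (fun e => ψ e.i - ψ e.j)).sum :=
        Multiset.sum_map_neg
      linarith
    linarith

/-- Good case, general form. -/
theorem cost_good_gen {m q : ℕ} [NeZero q] {γ : Type} (kk : Fin (m+1) → ℕ) (j0 : Vtx m q)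
    (e0 : Edge m q) (g : Multiset (Edge m q)) (hb : bal j0 (e0 ::ₘ g))
    (ps : Vtx m q → Fin (m+1)) (hps : ∀ e ∈ e0 ::ₘ g, ps e.i = e.a ∧ ps e.j = e.b)
    (hK : kk (ps (Sum.inl 0)) = kk 0) (hKj : kk (ps j0) = kk 0)
    (U : Set (Vtx m q)) (hU : ∀ e ∈ e0 ::ₘ g, (e.i ∈ U ↔ e.j ∈ U)) (h0 : e0.i ∈ U)
    (hconn : Relation.EqvGen (fun x y : Fin (m+1) => ∃ e ∈ e0 ::ₘ g, e.i ∈ U ∧ e.a = x ∧ e.b = y) e0.a 0)
    (cl : Vtx m q → γ) (hcl : ∀ e ∈ e0 ::ₘ g, cl e.i = cl e.j) (C : Finset γ)
    (hC : ∀ c ∈ C, c ≠ cl (Sum.inl 0) ∧ (∀ v, cl v = c → v ∉ U) ∧ ∃ e ∈ e0 ::ₘ g, cl e.i = c) :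
    (kk 0 - kk e0.a) + C.card ≤ wf kk g := by
  have hsplit : wf kk g = wf kk (g.filter (fun e => e.i ∈ U)) + wf kk (g.filter (fun e => ¬ e.i ∈ U)) := by
    unfold wf
    rw [← Multiset.sum_add, ← Multiset.map_add, Multiset.filter_add_not]
  rw [hsplit]
  apply Nat.add_le_add
  · have h1 := G_cover (g.filter (fun e => e.i ∈ U)) (fun e => kk e.b) (fun e => kk e.a)
      (fun e => wt kk e.a e.b) (fun e _ => by unfold wt; omega)
      (Finset.Ico (kk e0.a) (kk 0)) ?_
    · rw [Nat.card_Ico] at h1; exact h1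
    · intro t ht
      rw [Finset.mem_Ico] at ht
      by_contra hcon
      push Not at hcon
      have hno : ∀ e ∈ e0 ::ₘ g, e.i ∈ U → ¬ (t < kk e.a ∧ kk e.b ≤ t) := by
        intro e he hi hh
        rcases Multiset.mem_cons.1 he with h5 | h5
        · subst h5; omega
        · have := hcon e (Multiset.mem_filter.2 ⟨h5, hi⟩) hh.2
          omega
      have hcr := G_cross kk j0 (e0 ::ₘ g) hb ps hps U hU t (by rw [hK]; exact ht.2)
        (by rw [hKj]; exact ht.2) hno
      have : ∀ x y : Fin (m+1), Relation.EqvGen (fun x y : Fin (m+1) => ∃ e ∈ e0 ::ₘ g, e.i ∈ U ∧ e.a = x ∧ e.b = y) x y →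
          (t < kk x ↔ t < kk y) := by
        intro x y hxy
        induction hxy with
        | rel x y h =>
          obtain ⟨e, he, hi, rfl, rfl⟩ := h
          exact hcr e he hi
        | refl x => exact Iff.rfl
        | symm x y _ ih => exact ih.symm
        | trans x y z _ _ ih1 ih2 => exact ih1.trans ih2
      have h6 := (this _ _ hconn).2 ht.2
      omega
  · apply j7799_cover (g.filter (fun e => ¬ e.i ∈ U)) (fun e => wt kk e.a e.b) (fun e => cl e.i) C
    intro c hc
    obtain ⟨hc0, hcU, e1, he1, hc1⟩ := hC c hc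
    obtain ⟨e, he, h1, h2⟩ := cost_pos kk j0 (e0 ::ₘ g) hb ps hps {v | cl v = c}
      (fun e he => by
        show cl e.i = c ↔ cl e.j = c
        rw [hcl e he])
      (fun h => hc0 (by
        have : cl (Sum.inl 0) = c := h
        exact this.symm)) e1 he1 hc1
    have h4 : cl e.i = c := h1
    rcases Multiset.mem_cons.1 he with h5 | h5
    · subst h5
      exact absurd h0 (hcU _ h4)
    · exact ⟨e, Multiset.mem_filter.2 ⟨h5, hcU _ h4⟩, h4, h2⟩

theorem G_adj_symm {m q : ℕ} [NeZero q] (f : Multiset (Edge m q)) (u v : Vtx m q) (h : adj f u v) : adj f v u := by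
  obtain ⟨e, he, h⟩ := h
  exact ⟨e, he, h.symm⟩

theorem G_conn_symm {m q : ℕ} [NeZero q] (f : Multiset (Edge m q)) (u v : Vtx m q)
    (h : Relation.ReflTransGen (adj f) u v) : Relation.ReflTransGen (adj f) v u := by
  induction h with
  | refl => exact Relation.ReflTransGen.refl
  | tail _ h ih => exact Relation.ReflTransGen.head (G_adj_symm f _ _ h) ih

theorem G_conn_cls {m q : ℕ} [NeZero q] (y : St m q) (f : Multiset (Edge m q)) (hok : ∀ e ∈ f, ok y e)
    (hM : IsM (Qf y f)) (u v : Vtx m q) (h : Relation.ReflTransGen (adj f) u v) :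
    cls y f u = cls y f v := by
  induction h with
  | refl => rfl
  | tail _ h ih =>
    obtain ⟨e, he, h | h⟩ := h
    · rw [ih, ← h.1, ← h.2]; exact cls_edge y f hok hM e he
    · rw [ih, ← h.1, ← h.2]; exact (cls_edge y f hok hM e he).symm

/-- all `x` in `Qf` with `x.1 ≠ inl 0` are visible heads -/
theorem G_Qf_vis {m q : ℕ} [NeZero q] (y : St m q) (f : Multiset (Edge m q))
    (x : Vtx m q × Fin q) (hx : x ∈ Qf y f) (hne : x.1 ≠ Sum.inl 0) :
    ∃ e ∈ f, (e.i = x.1 ∧ e.a = 0) ∨ (e.j = x.1 ∧ e.b = 0) := by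
  unfold Qf at hx
  rw [Finset.mem_insert] at hx
  rcases hx with hx | hx
  · rw [hx] at hne; exact absurd rfl hne
  · rw [Finset.mem_biUnion] at hx
    obtain ⟨e, he, hx⟩ := hx
    rw [Multiset.mem_toFinset] at he
    refine ⟨e, he, ?_⟩
    unfold prs at hx
    split_ifs at hx with h1 h2
    · rw [Finset.mem_singleton] at hx
      left; rw [hx]; exact ⟨rfl, h1.1⟩
    · rw [Finset.mem_singleton] at hx
      right; rw [hx]; exact ⟨rfl, h2.2⟩
    · simp at hx

/-- main argument, given a visible head `i1` and the connection of positions -/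
theorem G_main {m q : ℕ} [NeZero q] (kk : Fin (m+1) → ℕ) (bs : Fin (m+1))
    (hbs : kk bs = kk 0) (e0 : Edge m q) (g : Multiset (Edge m q))
    (hb : bal (if bs = 0 then Sum.inl 0 else Sum.inr (bs, (0, 0))) (e0 ::ₘ g)) (y : St m q)
    (hok : ∀ e ∈ e0 ::ₘ g, ok y e) (hM : IsM (Qf y (e0 ::ₘ g)))
    (i1 : Vtx m q) (hi1 : pos y i1 = 0)
    (U : Set (Vtx m q)) (hUdef : U = {v | ¬ good (e0 ::ₘ g) v ∨ Relation.ReflTransGen (adj (e0 ::ₘ g)) i1 v})
    (h0 : e0.i ∈ U)
    (hconn : Relation.EqvGen (fun x y : Fin (m+1) => ∃ e ∈ e0 ::ₘ g, e.i ∈ U ∧ e.a = x ∧ e.b = y) e0.a 0) :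
    (kk 0 - kk e0.a) + ((Qf y (e0 ::ₘ g)).card - 2) ≤ wf kk g := by
  set f := e0 ::ₘ g with hf
  have hadj : ∀ e ∈ f, adj f e.i e.j := fun e he => ⟨e, he, Or.inl ⟨rfl, rfl⟩⟩
  have hgoodadj : ∀ u v, Relation.ReflTransGen (adj f) u v → good f u → good f v := by
    intro u v huv hu
    obtain ⟨h, hh, hc⟩ := hu
    exact ⟨h, hh, hc.trans huv⟩
  have hUconn : ∀ u v, Relation.ReflTransGen (adj f) u v → u ∈ U → v ∈ U := by
    intro u v huv hu
    rw [hUdef] at hu ⊢
    rcases hu with hu | hu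
    · left; intro hv; exact hu (hgoodadj v u (G_conn_symm f u v huv) hv)
    · right; exact hu.trans huv
  let cl : Vtx m q → Set (Vtx m q) := fun v => {u | Relation.ReflTransGen (adj f) v u}
  have hcl_iff : ∀ u v, cl u = cl v ↔ Relation.ReflTransGen (adj f) u v := by
    intro u v
    constructor
    · intro h
      have : v ∈ cl v := Relation.ReflTransGen.refl
      rw [← h] at this
      exact this
    · intro h
      ext w
      constructor
      · intro hw; exact (G_conn_symm f u v h).trans hw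
      · intro hw; exact h.trans hw
  let C : Finset (Set (Vtx m q)) :=
    ((Qf y f).filter (fun x => x.1 ≠ Sum.inl 0 ∧ x.1 ≠ i1)).image (fun x => cl x.1)
  have hinl : pos y (Sum.inl 0 : Vtx m q) = 0 := rfl
  have hQpos : ∀ x ∈ Qf y f, pos y x.1 = 0 := fun x hx => Qf_head y f hok x hx
  have hQinj : ∀ x ∈ Qf y f, ∀ z ∈ Qf y f, x.1 = z.1 → x = z := by
    intro x hx z hz h
    exact Prod.ext h ((hM x hx z hz).1 h)
  have hheads : ∀ u v, pos y u = 0 → pos y v = 0 → Relation.ReflTransGen (adj f) u v → u = v := by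
    intro u v hu hv h
    exact cls_head_inj y f hM u v hu hv (G_conn_cls y f hok hM u v h)
  have hmain := cost_good_gen kk (if bs = 0 then Sum.inl 0 else Sum.inr (bs, (0, 0))) e0 g hb (pos y)
    (fun e he => ⟨(hok e he).1, (hok e he).2.1⟩) rfl ?_ U ?_ h0 hconn cl ?_ C ?_
  · have hcard : (Qf y f).card - 2 ≤ C.card := by
      have h1 : C.card = ((Qf y f).filter (fun x => x.1 ≠ Sum.inl 0 ∧ x.1 ≠ i1)).card := by
        apply Finset.card_image_of_injOn
        intro x hx z hz h
        have hx' := (Finset.mem_filter.1 (Finset.mem_coe.1 hx)).1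
        have hz' := (Finset.mem_filter.1 (Finset.mem_coe.1 hz)).1
        exact hQinj x hx' z hz' (hheads _ _ (hQpos x hx') (hQpos z hz') ((hcl_iff _ _).1 h))
      rw [h1]
      have h2 := Finset.card_filter_add_card_filter_not (s := Qf y f)
        (fun x => x.1 ≠ Sum.inl 0 ∧ x.1 ≠ i1)
      have h3 : ((Qf y f).filter (fun x => ¬ (x.1 ≠ Sum.inl 0 ∧ x.1 ≠ i1))).card ≤
          (({Sum.inl 0, i1} : Finset (Vtx m q))).card := by
        apply Finset.card_le_card_of_injOn (fun x => x.1)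
        · intro x hx
          have hx' := (Finset.mem_filter.1 (Finset.mem_coe.1 hx)).2
          simp only [Finset.coe_insert, Finset.coe_singleton, Set.mem_insert_iff, Set.mem_singleton_iff]
          by_contra hcon
          push Not at hcon
          exact hx' hcon
        · intro x hx z hz h
          have hx' := (Finset.mem_filter.1 (Finset.mem_coe.1 hx)).1
          have hz' := (Finset.mem_filter.1 (Finset.mem_coe.1 hz)).1
          exact hQinj x hx' z hz' h
      have h4 : (({Sum.inl 0, i1} : Finset (Vtx m q))).card ≤ 2 := Finset.card_le_two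
      omega
    omega
  · -- kk (pos y j0) = kk 0
    split_ifs with h
    · rfl
    · show kk (if ∃ l, y bs l = ((0, 0) : Ltr q) then bs else 0) = kk 0
      split_ifs
      · exact hbs
      · rfl
  · intro e he
    exact ⟨hUconn _ _ (Relation.ReflTransGen.single (hadj e he)),
      hUconn _ _ (G_conn_symm f _ _ (Relation.ReflTransGen.single (hadj e he)))⟩
  · intro e he
    exact (hcl_iff _ _).2 (Relation.ReflTransGen.single (hadj e he))
  · intro c hc
    obtain ⟨x, hx, rfl⟩ := Finset.mem_image.1 hc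
    obtain ⟨hxQ, hx1, hx2⟩ := Finset.mem_filter.1 hx
    obtain ⟨e, he, hvis⟩ := G_Qf_vis y f x hxQ hx1
    have hgx : good f x.1 := ⟨x.1, ⟨e, he, hvis⟩, Relation.ReflTransGen.refl⟩
    refine ⟨?_, ?_, ?_⟩
    · intro h
      exact hx1 (hheads _ _ (hQpos x hxQ) hinl ((hcl_iff _ _).1 h))
    · intro v hv hvU
      have hvx : Relation.ReflTransGen (adj f) v x.1 := (hcl_iff _ _).1 hv
      have hxU := hUconn _ _ hvx hvU
      rw [hUdef] at hxU
      rcases hxU with h | h
      · exact h hgx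
      · exact hx2 (hheads _ _ (hQpos x hxQ) hi1 (G_conn_symm f _ _ h))
    · refine ⟨e, he, ?_⟩
      rcases hvis with h | h
      · show cl e.i = cl x.1
        rw [h.1]
      · show cl e.i = cl x.1
        rw [← h.1]
        exact (hcl_iff _ _).2 (Relation.ReflTransGen.single (hadj e he))

section
variable {m q : ℕ} [NeZero q]

/-- R3, cases 1 and 2 -/
theorem good_case (kk : Fin (m+1) → ℕ) (hanti : Antitone kk) (bs : Fin (m+1))
    (hbs : kk bs = kk 0) (e0 : Edge m q) (g : Multiset (Edge m q))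
    (hb : bal (if bs = 0 then Sum.inl 0 else Sum.inr (bs, (0, 0))) (e0 ::ₘ g)) (y : St m q)
    (hinj : ∀ b, Function.Injective (y b))
    (hok : ∀ e ∈ e0 ::ₘ g, ok y e) (hM : IsM (Qf y (e0 ::ₘ g)))
    (hgood : good (e0 ::ₘ g) e0.i ∨ ∃ e1 ∈ e0 ::ₘ g, good (e0 ::ₘ g) e1.i ∧
      (e1.a ∈ Bs (e0 ::ₘ g) e0.a ∨ e1.b ∈ Bs (e0 ::ₘ g) e0.a)) :
    (kk 0 - kk e0.a) + ((Qf y (e0 ::ₘ g)).card - 2) ≤ wf kk g := by
  have hpi : ∀ e ∈ e0 ::ₘ g, pos y e.i = e.a ∧ pos y e.j = e.b := fun e he => ⟨(hok e he).1, (hok e he).2.1⟩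
  have hhd : ∀ h, hdv (e0 ::ₘ g) h → pos y h = 0 := by
    intro h hh
    obtain ⟨e, he, hh | hh⟩ := hh
    · rw [← hh.1, (hpi e he).1, hh.2]
    · rw [← hh.1, (hpi e he).2, hh.2]
  -- positions along a connected path inside `U`
  have hpath : ∀ (U : Set (Vtx m q)) (i1 : Vtx m q)
      (hUdef : U = {v | ¬ good (e0 ::ₘ g) v ∨ Relation.ReflTransGen (adj (e0 ::ₘ g)) i1 v})
      (v : Vtx m q), Relation.ReflTransGen (adj (e0 ::ₘ g)) i1 v →
      Relation.EqvGen (fun x y : Fin (m+1) => ∃ e ∈ e0 ::ₘ g, e.i ∈ U ∧ e.a = x ∧ e.b = y)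
        (pos y v) (pos y i1) := by
    intro U i1 hUdef v hv
    induction hv with
    | refl => exact Relation.EqvGen.refl _
    | @tail u w hu hw ih =>
      refine Relation.EqvGen.trans _ _ _ ?_ ih
      obtain ⟨e, he, h | h⟩ := hw
      · -- e.i = u, e.j = w
        apply Relation.EqvGen.symm
        apply Relation.EqvGen.rel
        refine ⟨e, he, ?_, ?_, ?_⟩
        · rw [hUdef, h.1]; exact Or.inr hu
        · rw [← h.1, (hpi e he).1]
        · rw [← h.2, (hpi e he).2]
      · apply Relation.EqvGen.rel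
        refine ⟨e, he, ?_, ?_, ?_⟩
        · rw [hUdef, h.1]; exact Or.inr (hu.tail ⟨e, he, Or.inr h⟩)
        · rw [← h.1, (hpi e he).1]
        · rw [← h.2, (hpi e he).2]
  by_cases hg0 : good (e0 ::ₘ g) e0.i
  · obtain ⟨i1, hi1, hc⟩ := hg0
    refine G_main kk bs hbs e0 g hb y hok hM i1 (hhd i1 hi1) _ rfl (Or.inr hc) ?_
    have := hpath _ i1 rfl e0.i hc
    rw [hhd i1 hi1, (hpi e0 (Multiset.mem_cons_self _ _)).1] at this
    exact this
  · rcases hgood with h | h
    · exact absurd h hg0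
    obtain ⟨e1, he1, ⟨i1, hi1, hc⟩, hB⟩ := h
    refine G_main kk bs hbs e0 g hb y hok hM i1 (hhd i1 hi1) _ rfl (Or.inl hg0) ?_
    -- positions in Bs
    have hBs : ∀ b, b ∈ Bs (e0 ::ₘ g) e0.a →
        Relation.EqvGen (fun x y : Fin (m+1) => ∃ e ∈ e0 ::ₘ g,
          e.i ∈ {v | ¬ good (e0 ::ₘ g) v ∨ Relation.ReflTransGen (adj (e0 ::ₘ g)) i1 v} ∧
          e.a = x ∧ e.b = y) e0.a b := by
      intro b hb'
      have hb'' := (Finset.mem_filter.1 hb').2
      clear hb' hB
      induction hb'' with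
      | refl => exact Relation.EqvGen.refl _
      | tail _ h ih =>
        refine Relation.EqvGen.trans _ _ _ ih ?_
        obtain ⟨e, he, hbad, h | h⟩ := h
        · exact Relation.EqvGen.rel _ _ ⟨e, he, Or.inl hbad, h.1, h.2⟩
        · exact Relation.EqvGen.symm _ _ (Relation.EqvGen.rel _ _ ⟨e, he, Or.inl hbad, h.1, h.2⟩)
    rcases hB with hB | hB
    · refine Relation.EqvGen.trans _ _ _ (hBs _ hB) ?_
      have := hpath _ i1 rfl e1.i hc
      rw [hhd i1 hi1, (hpi e1 he1).1] at this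
      exact this
    · refine Relation.EqvGen.trans _ _ _ (hBs _ hB) ?_
      have := hpath _ i1 rfl e1.j (hc.tail ⟨e1, he1, Or.inl ⟨rfl, rfl⟩⟩)
      rw [hhd i1 hi1, (hpi e1 he1).2] at this
      exact this

end

end Pool.Agent.RepFLR
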