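import Pool.Agent.Helper26.FLR.G1

set_option autoImplicit false

namespace Pool.Agent.RepFLR

open Classical

section
variable {m q : ℕ} [NeZero q]

theorem bad_closed (f : Multiset (Edge m q)) (e0 : Edge m q) (he0 : e0 ∈ f)
    (h1 : ¬ good f e0.i) (h2 : ∀ e1 ∈ f, good f e1.i → (e1.a ∉ Bs f e0.a ∧ e1.b ∉ Bs f e0.a)) :
    (0 : Fin (m+1)) ∉ Bs f e0.a ∧ e0.a ∈ Bs f e0.a ∧
      ∀ e ∈ f, (e.a ∈ Bs f e0.a ↔ e.b ∈ Bs f e0.a) := by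
  have ga : ∀ e ∈ f, e.a = 0 → good f e.i := fun e he h => ⟨e.i, ⟨e, he, Or.inl ⟨rfl, h⟩⟩, .refl⟩
  have gb : ∀ e ∈ f, e.b = 0 → good f e.i := fun e he h =>
    ⟨e.j, ⟨e, he, Or.inr ⟨rfl, h⟩⟩, .single ⟨e, he, Or.inr ⟨rfl, rfl⟩⟩⟩
  have hmem : ∀ b, b ∈ Bs f e0.a ↔ Relation.ReflTransGen (padj f) e0.a b := by
    intro b; simp [Bs]
  refine ⟨?_, ?_, ?_⟩
  · rw [hmem]
    intro h
    rcases Relation.ReflTransGen.cases_tail h with h | ⟨c, _, e, he, hb, h | h⟩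
    · exact h1 (ga e0 he0 h.symm)
    · exact hb (gb e he h.2)
    · exact hb (ga e he h.1)
  · rw [hmem]
  · intro e he
    by_cases hg : good f e.i
    · have := h2 e he hg
      exact ⟨fun h => absurd h this.1, fun h => absurd h this.2⟩
    · rw [hmem, hmem]
      exact ⟨fun h => h.tail ⟨e, he, hg, Or.inl ⟨rfl, rfl⟩⟩,
        fun h => h.tail ⟨e, he, hg, Or.inr ⟨rfl, rfl⟩⟩⟩

end

end Pool.Agent.RepFLR
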