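import Pool.Agent.Helper26.FLR.H2

set_option autoImplicit false

namespace Pool.Agent.RepFLR

open Classical

section
variable {m q : ℕ} [NeZero q]

theorem nu_one : ∑ u : Fin q → Ltr q, nu Finset.univ u = 1 := by
  have h := nu_total (q := q) ∅ (fun _ => (0, 0))
  rw [nu_empty] at h
  simpa using h

/-- swap of one coordinate -/
def swp (b : Fin (m+1)) : (St m q × (Fin q → Ltr q)) ≃ (St m q × (Fin q → Ltr q)) where
  toFun x := (Function.update x.1 b x.2, x.1 b)
  invFun x := (Function.update x.1 b x.2, x.1 b)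
  left_inv x := by
    ext1
    · simp
    · simp
  right_inv x := by
    ext1
    · simp
    · simp

theorem nuy_upd (y : St m q) (b : Fin (m+1)) (u : Fin q → Ltr q) :
    nuy (Function.update y b u) * nu Finset.univ (y b) = nuy y * nu Finset.univ u := by
  unfold nuy
  rw [← Finset.mul_prod_erase Finset.univ _ (Finset.mem_univ b),
    ← Finset.mul_prod_erase Finset.univ (fun b => nu Finset.univ (y b)) (Finset.mem_univ b)]
  have : ∏ x ∈ Finset.univ.erase b, nu Finset.univ (Function.update y b u x) =
      ∏ x ∈ Finset.univ.erase b, nu Finset.univ (y x) := by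
    apply Finset.prod_congr rfl
    intro x hx
    rw [Function.update_of_ne (Finset.ne_of_mem_erase hx)]
  rw [this, Function.update_self]
  ring

theorem one_coord (b : Fin (m+1)) (G : St m q → ℤ)
    (hG : ∀ y u, G (Function.update y b u) = G y) (h : (Fin q → Ltr q) → ℤ) :
    ∑ y : St m q, nuy y * G y * h (y b) =
      (∑ u, nu Finset.univ u * h u) * ∑ y : St m q, nuy y * G y := by
  have h1 : ∑ x : St m q × (Fin q → Ltr q), nuy x.1 * G x.1 * (nu Finset.univ x.2 * h x.2) =
      ∑ x : St m q × (Fin q → Ltr q), nuy x.1 * G x.1 * (nu Finset.univ x.2 * h (x.1 b)) := by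
    rw [← Equiv.sum_comp (swp b)]
    apply Finset.sum_congr rfl
    rintro ⟨y, u⟩ _
    simp only [swp, Equiv.coe_fn_mk]
    rw [hG]
    have := nuy_upd y b u
    calc nuy (Function.update y b u) * G y * (nu Finset.univ (y b) * h (y b))
        = (nuy (Function.update y b u) * nu Finset.univ (y b)) * (G y * h (y b)) := by ring
      _ = _ := by rw [this]; ring
  rw [Fintype.sum_prod_type, Fintype.sum_prod_type] at h1
  have h2 : ∑ y : St m q, ∑ u : Fin q → Ltr q, nuy y * G y * (nu Finset.univ u * h u) =
      (∑ u, nu Finset.univ u * h u) * ∑ y : St m q, nuy y * G y := by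
    rw [Finset.sum_mul_sum, Finset.sum_comm]
    apply Finset.sum_congr rfl; intro u _
    apply Finset.sum_congr rfl; intro y _
    ring
  have h3 : ∑ y : St m q, ∑ u : Fin q → Ltr q, nuy y * G y * (nu Finset.univ u * h (y b)) =
      ∑ y : St m q, nuy y * G y * h (y b) := by
    apply Finset.sum_congr rfl; intro y _
    have : ∀ u : Fin q → Ltr q, nuy y * G y * (nu Finset.univ u * h (y b)) =
        (nuy y * G y * h (y b)) * nu Finset.univ u := fun u => by ring
    simp only [this]
    rw [← Finset.mul_sum, nu_one, mul_one]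
  rw [h2, h3] at h1
  exact h1.symm

theorem many_coord (B : Finset (Fin (m+1))) (F : St m q → ℤ)
    (hF : ∀ y y' : St m q, (∀ b, b ∉ B → y b = y' b) → F y = F y')
    (h : Fin (m+1) → (Fin q → Ltr q) → ℤ) :
    ∀ C ⊆ B, ∑ y : St m q, nuy y * (F y * ∏ b ∈ C, h b (y b)) =
      (∏ b ∈ C, ∑ u, nu Finset.univ u * h b u) * ∑ y : St m q, nuy y * F y := by
  intro C
  induction C using Finset.induction_on with
  | empty => intro _; simp
  | insert b C hb ih =>
    intro hC
    rw [Finset.prod_insert hb, mul_assoc, ← ih (fun x hx => hC (Finset.mem_insert_of_mem hx))]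
    rw [← one_coord b (fun y => F y * ∏ b ∈ C, h b (y b)) _ (h b)]
    · apply Finset.sum_congr rfl; intro y _
      rw [Finset.prod_insert hb]; ring
    · intro y u
      have h1 : F (Function.update y b u) = F y := by
        apply hF
        intro c hc
        rw [Function.update_of_ne]
        rintro rfl
        exact hc (hC (Finset.mem_insert_self _ _))
      have h2 : ∏ c ∈ C, h c (Function.update y b u c) = ∏ c ∈ C, h c (y c) := by
        apply Finset.prod_congr rfl
        intro c hc
        rw [Function.update_of_ne]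
        rintro rfl
        exact hb hc
      simp only [h1, h2]

/-- H1: order invariance of the partial averages -/
theorem H1 (B : Finset (Fin (m+1))) (F : St m q → ℤ)
    (hF : ∀ y y' : St m q, (∀ b, b ∉ B → y b = y' b) → F y = F y')
    (T : Finset (Fin (m+1) × Ltr q)) (hT : ∀ t ∈ T, t.1 ∈ B)
    (lam : {t // t ∈ T} → Fin q) (θ : Fin q → Fin q) (hθ : StrictMonoOn θ (Set.range lam)) :
    ∑ y : St m q, nuy y * F y * (if ∀ t : {t // t ∈ T}, y t.1.1 (θ (lam t)) = t.1.2 then 1 else 0) =
      ∑ y : St m q, nuy y * F y * (if ∀ t : {t // t ∈ T}, y t.1.1 (lam t) = t.1.2 then 1 else 0) := by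
  -- letters and labels at position b
  let Tb : Fin (m+1) → Finset (Ltr q) := fun b => Finset.univ.filter (fun x => (b, x) ∈ T)
  have key : ∀ lam' : {t // t ∈ T} → Fin q, ∀ mu : Fin (m+1) → Ltr q → Fin q,
      (∀ t : {t // t ∈ T}, mu t.1.1 t.1.2 = lam' t) →
      ∑ y : St m q, nuy y * F y * (if ∀ t : {t // t ∈ T}, y t.1.1 (lam' t) = t.1.2 then 1 else 0) =
        (∏ b ∈ B, mb (Tb b) (mu b)) * ∑ y : St m q, nuy y * F y := by
    intro lam' mu hmu
    have := many_coord B F hF
      (fun b u => if ∀ x ∈ Tb b, u (mu b x) = x then (1:ℤ) else 0) B (Finset.Subset.refl _)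
    unfold mb
    rw [← this]
    apply Finset.sum_congr rfl; intro y _
    rw [mul_assoc]
    congr 2
    rw [Finset.prod_ite_zero]
    simp only [Finset.prod_const_one]
    apply if_congr _ rfl rfl
    constructor
    · intro h b _ x hx
      have hx' : (b, x) ∈ T := by simpa [Tb] using hx
      have h1 := h ⟨_, hx'⟩
      rw [← hmu ⟨_, hx'⟩] at h1
      exact h1
    · intro h t
      have hx : t.1.2 ∈ Tb t.1.1 := by
        simp only [Tb, Finset.mem_filter, Finset.mem_univ, true_and]
        exact t.2
      have h1 := h t.1.1 (hT _ t.2) t.1.2 hx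
      rw [hmu t] at h1
      exact h1
  let mu : Fin (m+1) → Ltr q → Fin q := fun b x =>
    if hx : (b, x) ∈ T then lam ⟨_, hx⟩ else 0
  have hmu : ∀ t : {t // t ∈ T}, mu t.1.1 t.1.2 = lam t := by
    intro t
    have : ((t.1.1, t.1.2) : Fin (m+1) × Ltr q) ∈ T := t.2
    simp only [mu]
    rw [dif_pos this]
  rw [key lam mu hmu, key (fun t => θ (lam t)) (fun b => θ ∘ mu b)
    (fun t => by simp only [Function.comp_apply, hmu])]
  congr 1
  apply Finset.prod_congr rfl
  intro b _
  apply mb_order
  apply hθ.mono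
  rintro _ ⟨x, hx, rfl⟩
  have hx' : (b, x) ∈ T := by simpa [Tb] using hx
  refine ⟨⟨_, hx'⟩, ?_⟩
  simp only [mu]
  rw [dif_pos hx']

end

end Pool.Agent.RepFLR
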