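import Pool.Agent.Helper26.FLR.H3

set_option autoImplicit false

namespace Pool.Agent.RepFLR

open Classical

section
variable {m q : ℕ} [NeZero q]

theorem H2 (B : Finset (Fin (m+1))) (h0 : (0 : Fin (m+1)) ∉ B) (y : St m q)
    (hinj : ∀ b, Function.Injective (y b)) (fB : Multiset (Edge m q))
    (hfB : ∀ e ∈ fB, e.a ∈ B ∧ e.b ∈ B) (hst : stat fB) (A : Finset (Vtx m q))
    (hA : ∀ v ∈ A, ∃ b ∈ B, ∃ x, v = Sum.inr (b, x)) :
    (if (∀ e ∈ fB, ok y e) ∧ (∀ v ∈ A, pos y v ≠ 0) then (1:ℤ) else 0) =
      ∑ lam : {t // t ∈ TT B fB A} → Fin q,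
        (if cmp B fB A lam ∧ ∀ t : {t // t ∈ TT B fB A}, y t.1.1 (lam t) = t.1.2 then 1 else 0) := by
  have hne : ∀ b ∈ B, b ≠ 0 := fun b hb h => h0 (h ▸ hb)
  have hTB : ∀ t ∈ TT B fB A, t.1 ∈ B := fun t ht => by
    simp only [TT, Finset.mem_filter] at ht; exact ht.2.1
  by_cases hex : ∃ lam : {t // t ∈ TT B fB A} → Fin q,
      cmp B fB A lam ∧ ∀ t : {t // t ∈ TT B fB A}, y t.1.1 (lam t) = t.1.2
  · obtain ⟨lam, hc, hl⟩ := hex
    have hlbl : ∀ t : {t // t ∈ TT B fB A}, lbl y (Sum.inr t.1) = lam t := by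
      intro t
      have := lbl_letter y t.1.1 (hinj _) (lam t)
      rw [hl t] at this
      exact this
    have hpos : ∀ t : {t // t ∈ TT B fB A}, pos y (Sum.inr t.1) = t.1.1 := by
      intro t
      have := pos_letter y t.1.1 (lam t)
      rw [hl t] at this
      exact this
    have hcond : (∀ e ∈ fB, ok y e) ∧ (∀ v ∈ A, pos y v ≠ 0) := by
      constructor
      · intro e he
        obtain ⟨x, x', hi, hj⟩ := hst e he
        have hab := hfB e he
        have ht1 : (e.a, x) ∈ TT B fB A := by
          simp only [TT, Finset.mem_filter, Finset.mem_univ, true_and]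
          exact ⟨hab.1, Or.inr ⟨e, he, Or.inl hi⟩⟩
        have ht2 : (e.b, x') ∈ TT B fB A := by
          simp only [TT, Finset.mem_filter, Finset.mem_univ, true_and]
          exact ⟨hab.2, Or.inr ⟨e, he, Or.inr hj⟩⟩
        refine ⟨?_, ?_, ?_, ?_⟩
        · rw [hi]; exact hpos ⟨_, ht1⟩
        · rw [hj]; exact hpos ⟨_, ht2⟩
        · intro _ _
          rw [hi, hj]
          have := hc e he ⟨_, ht1⟩ ⟨_, ht2⟩ hi hj
          rw [show lbl y (Sum.inr (e.a, x)) = lam ⟨_, ht1⟩ from hlbl ⟨_, ht1⟩,
            show lbl y (Sum.inr (e.b, x')) = lam ⟨_, ht2⟩ from hlbl ⟨_, ht2⟩, this]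
        · intro h; exact absurd h (hne _ hab.1)
      · intro v hv
        obtain ⟨b, hb, x, rfl⟩ := hA v hv
        have ht : (b, x) ∈ TT B fB A := by
          simp only [TT, Finset.mem_filter, Finset.mem_univ, true_and]
          exact ⟨hb, Or.inl hv⟩
        rw [show pos y (Sum.inr (b, x)) = b from hpos ⟨_, ht⟩]
        exact hne b hb
    rw [if_pos hcond, Finset.sum_eq_single lam]
    · rw [if_pos ⟨hc, hl⟩]
    · intro lam' _ hne'
      rw [if_neg]
      rintro ⟨_, hl'⟩
      apply hne'
      funext t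
      exact hinj _ ((hl' t).trans (hl t).symm)
    · intro h; exact absurd (Finset.mem_univ _) h
  · rw [if_neg, Finset.sum_eq_zero]
    · intro lam _
      rw [if_neg]
      exact fun h => hex ⟨lam, h⟩
    · rintro ⟨h1, h2⟩
      apply hex
      have hused : ∀ t : {t // t ∈ TT B fB A}, pos y (Sum.inr t.1) = t.1.1 := by
        intro ⟨t, ht⟩
        have ht' := ht
        simp only [TT, Finset.mem_filter, Finset.mem_univ, true_and] at ht'
        have hp : pos y (Sum.inr t) ≠ 0 := by
          rcases ht'.2 with h | ⟨e, he, h | h⟩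
          · exact h2 _ h
          · rw [← h, (h1 e he).1]; exact hne _ (hfB e he).1
          · rw [← h, (h1 e he).2.1]; exact hne _ (hfB e he).2
        have := lbl_spec y _ hp
        have h3 := congrArg (fun v => match v with | Sum.inr w => w.1 | Sum.inl _ => t.1) this
        exact h3.symm
      refine ⟨fun t => lbl y (Sum.inr t.1), ?_, ?_⟩
      · intro e he t t' hi hj
        have := (h1 e he).2.2.1 (hne _ (hfB e he).1) (hne _ (hfB e he).2)
        rw [hi, hj] at this
        exact this
      · intro t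
        have hp : pos y (Sum.inr t.1) ≠ 0 := by
          rw [hused t]; exact hne _ (hTB _ t.2)
        have := lbl_spec y _ hp
        rw [hused t] at this
        have h3 := congrArg (fun v => match v with | Sum.inr w => w.2 | Sum.inl _ => t.1.2) this
        exact h3.symm

end

end Pool.Agent.RepFLR
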