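import Pool.Agent.Helper26.FLR.H4

set_option autoImplicit false

namespace Pool.Agent.RepFLR

open Classical

section
variable {m q : ℕ} [NeZero q]

end

section
variable {m q : ℕ} [NeZero q]

end

section
variable {m q : ℕ} [NeZero q]

end

section
variable {m q : ℕ} [NeZero q]

end

section
variable {m q : ℕ} [NeZero q]

end

section
variable {m q : ℕ} [NeZero q]

end

section
variable {m q : ℕ} [NeZero q]

/-- letters visible in `fB` or in `A` -/
noncomputable def TT (B : Finset (Fin (m+1))) (fB : Multiset (Edge m q)) (A : Finset (Vtx m q)) :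
    Finset (Fin (m+1) × Ltr q) :=
  Finset.univ.filter (fun t => t.1 ∈ B ∧
    (Sum.inr t ∈ A ∨ ∃ e ∈ fB, e.i = Sum.inr t ∨ e.j = Sum.inr t))

end

section
variable {m q : ℕ} [NeZero q]

/-- label maps compatible with the edges of `fB` -/
def cmp (B : Finset (Fin (m+1))) (fB : Multiset (Edge m q)) (A : Finset (Vtx m q))
    (lam : {t // t ∈ TT B fB A} → Fin q) : Prop :=
  ∀ e ∈ fB, ∀ t t' : {t // t ∈ TT B fB A}, e.i = Sum.inr t.1 → e.j = Sum.inr t'.1 → lam t = lam t'

end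

section
variable {m q : ℕ} [NeZero q]

/-- the vertices of the edges of `fB` lie in the right reservoirs -/
def stat (fB : Multiset (Edge m q)) : Prop :=
  ∀ e ∈ fB, ∃ x x' : Ltr q, e.i = Sum.inr (e.a, x) ∧ e.j = Sum.inr (e.b, x')

end

section
variable {m q : ℕ} [NeZero q]

theorem h385_TT_mem {B : Finset (Fin (m+1))} {fB : Multiset (Edge m q)} {A : Finset (Vtx m q)}
    {t : Fin (m+1) × Ltr q} (ht : t ∈ TT B fB A) :
    t.1 ∈ B ∧ (Sum.inr t ∈ A ∨ ∃ e ∈ fB, e.i = Sum.inr t ∨ e.j = Sum.inr t) :=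
  (Finset.mem_filter.1 ht).2

theorem h385_posC_B {B : Finset (Fin (m+1))} (y : St m q) {b : Fin (m+1)} (hb : b ∈ B)
    (x : Ltr q) : posC B y (Sum.inr (b, x)) = 0 := by
  unfold posC
  simp only
  rw [if_neg (fun h => h.1 hb)]

/-- class of a vertex outside -/
noncomputable def h385_cls (B : Finset (Fin (m+1))) (y : St m q) (f : Multiset (Edge m q))
    (v : Vtx m q) : Fin q ⊕ Vtx m q :=
  if posC B y v ≠ 0 then Sum.inl (lbl y v)
  else if h : ∃ l, (v, l) ∈ Qf y f then Sum.inl (Classical.choose h) else Sum.inr v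

theorem h385_cls_of_mem (B : Finset (Fin (m+1))) (y : St m q) (f : Multiset (Edge m q))
    (hM : IsM (Qf y f)) (v : Vtx m q) (l : Fin q) (hv : posC B y v = 0) (h : (v, l) ∈ Qf y f) :
    h385_cls B y f v = Sum.inl l := by
  unfold h385_cls
  have hex : ∃ l, (v, l) ∈ Qf y f := ⟨l, h⟩
  rw [if_neg (fun h => h hv), dif_pos hex]
  congr 1
  exact (hM _ (Classical.choose_spec hex) _ h).1 rfl

theorem h385_cls_of_not (B : Finset (Fin (m+1))) (y : St m q) (f : Multiset (Edge m q))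
    (v : Vtx m q) (hv : posC B y v = 0) (h : ¬ ∃ l, (v, l) ∈ Qf y f) :
    h385_cls B y f v = Sum.inr v := by
  unfold h385_cls
  rw [if_neg (fun h => h hv), dif_neg h]

theorem h385_cls_inj (B : Finset (Fin (m+1))) (y : St m q) (f : Multiset (Edge m q))
    (hM : IsM (Qf y f)) (v v' : Vtx m q) (hv : posC B y v = 0) (hv' : posC B y v' = 0)
    (h : h385_cls B y f v = h385_cls B y f v') : v = v' := by
  by_cases h1 : ∃ l, (v, l) ∈ Qf y f
  · obtain ⟨l, hl⟩ := h1
    rw [h385_cls_of_mem B y f hM v l hv hl] at h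
    by_cases h2 : ∃ l, (v', l) ∈ Qf y f
    · obtain ⟨l', hl'⟩ := h2
      rw [h385_cls_of_mem B y f hM v' l' hv' hl'] at h
      have h3 : l = l' := Sum.inl.inj h
      exact (hM _ hl _ hl').2 h3
    · rw [h385_cls_of_not B y f v' hv' h2] at h
      exact absurd h (by simp)
  · rw [h385_cls_of_not B y f v hv h1] at h
    by_cases h2 : ∃ l, (v', l) ∈ Qf y f
    · obtain ⟨l', hl'⟩ := h2
      rw [h385_cls_of_mem B y f hM v' l' hv' hl'] at h
      exact absurd h (by simp)
    · rw [h385_cls_of_not B y f v' hv' h2] at h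
      exact Sum.inr.inj h

theorem h385_prs_sub (y : St m q) (f : Multiset (Edge m q)) (e : Edge m q) (he : e ∈ f) :
    prs y e ⊆ Qf y f := by
  intro z hz
  unfold Qf
  refine Finset.mem_insert_of_mem (Finset.mem_biUnion.2 ⟨e, ?_, hz⟩)
  rwa [Multiset.mem_toFinset]

theorem h385_cls_edge (B : Finset (Fin (m+1))) (y : St m q) (f : Multiset (Edge m q))
    (hM : IsM (Qf y f)) (e : Edge m q) (he : e ∈ f) (hok : okC B y e) :
    h385_cls B y f e.i = h385_cls B y f e.j := by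
  obtain ⟨h1, h2, h3, h4⟩ := hok
  by_cases ha : e.a = 0
  · by_cases hb : e.b = 0
    · rw [h4 ha hb]
    · have hm : (e.i, lbl y e.j) ∈ Qf y f := by
        apply h385_prs_sub y f e he
        unfold prs
        rw [if_pos ⟨ha, hb⟩]
        exact Finset.mem_singleton_self _
      rw [h385_cls_of_mem B y f hM e.i _ (by rw [h1, ha]) hm]
      unfold h385_cls
      rw [if_pos (by rw [h2]; exact hb)]
  · by_cases hb : e.b = 0
    · have hm : (e.j, lbl y e.i) ∈ Qf y f := by
        apply h385_prs_sub y f e he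
        unfold prs
        rw [if_neg (fun h => ha h.1), if_pos ⟨ha, hb⟩]
        exact Finset.mem_singleton_self _
      rw [h385_cls_of_mem B y f hM e.j _ (by rw [h2, hb]) hm]
      unfold h385_cls
      rw [if_pos (by rw [h1]; exact ha)]
    · unfold h385_cls
      rw [if_pos (by rw [h1]; exact ha), if_pos (by rw [h2]; exact hb), h3 ha hb]

/-- reservoir index of a vertex -/
def h385_res : Vtx m q → Fin (m+1)
  | Sum.inl _ => 0
  | Sum.inr (b, _) => b

theorem h385_H3_aux (kk : Fin (m+1) → ℕ) (j0 : Vtx m q) (e0 : Edge m q) (g : Multiset (Edge m q))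
    (f fB fC : Multiset (Edge m q)) (hf : f = e0 ::ₘ g)
    (hb : bal j0 f) (B : Finset (Fin (m+1))) (h0 : (0 : Fin (m+1)) ∉ B) (ha : e0.a ∈ B)
    (hfB : fB = f.filter (fun e => e.a ∈ B)) (hfC : fC = f.filter (fun e => e.a ∉ B))
    (hcl : ∀ e ∈ f, (e.a ∈ B ↔ e.b ∈ B)) (A : Finset (Vtx m q))
    (hA : ∀ v ∈ A, hdv f v ∧ ∃ b ∈ B, ∃ x, v = Sum.inr (b, x))
    (hst : stat fB)
    (hdj : ∀ v, hdv f v → ∀ e ∈ fB, e.i ≠ v ∧ e.j ≠ v)
    (y : St m q) (hinj : ∀ b, Function.Injective (y b))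
    (hokC : ∀ e ∈ fC, okC B y e)
    (hM : IsM (Qf y fC))
    (lam : {t // t ∈ TT B fB A} → Fin q)
    (hc : cmp B fB A lam)
    (hlam : ∀ t : {t // t ∈ TT B fB A}, y t.1.1 (lam t) = t.1.2) :
    (Finset.univ.image lam).card ≤ wf kk g + 1 := by
  have hfBm : ∀ e, e ∈ fB ↔ e ∈ f ∧ e.a ∈ B := fun e => by rw [hfB]; exact Multiset.mem_filter
  have hfCm : ∀ e, e ∈ fC ↔ e ∈ f ∧ e.a ∉ B := fun e => by rw [hfC]; exact Multiset.mem_filter
  let vis : Vtx m q → Prop := fun v => ∃ e ∈ fB, e.i = v ∨ e.j = v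
  have hvis_res : ∀ v, vis v → ∃ b ∈ B, ∃ x, v = Sum.inr (b, x) := by
    rintro v ⟨e, he, h⟩
    obtain ⟨x, x', h1, h2⟩ := hst e he
    have h3 := (hfBm e).1 he
    rcases h with h | h
    · exact ⟨e.a, h3.2, x, by rw [← h, h1]⟩
    · exact ⟨e.b, (hcl e h3.1).1 h3.2, x', by rw [← h, h2]⟩
  have hvis_hdv : ∀ v, vis v → ¬ hdv f v := by
    rintro v ⟨e, he, h⟩ hv
    have := hdj v hv e he
    rcases h with h | h
    · exact this.1 h
    · exact this.2 h
  have hlbl : ∀ t : {t // t ∈ TT B fB A}, lbl y (Sum.inr t.1) = lam t := by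
    intro t
    have h1 := lbl_letter y t.1.1 (hinj t.1.1) (lam t)
    rw [hlam t] at h1
    exact h1
  let ps : Vtx m q → Fin (m+1) := fun v => if vis v then h385_res v else posC B y v
  let cl : Vtx m q → Fin q ⊕ (Fin q ⊕ Vtx m q) := fun v =>
    if vis v then Sum.inl (lbl y v) else Sum.inr (h385_cls B y fC v)
  have hcl_vis : ∀ v, vis v → cl v = Sum.inl (lbl y v) := fun v hv => if_pos hv
  have hcl_not : ∀ v, ¬ vis v → cl v = Sum.inr (h385_cls B y fC v) := fun v hv => if_neg hv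
  -- endpoints of edges outside B are not visible in B
  have hfC_i : ∀ e ∈ fC, ¬ vis e.i := by
    intro e he hv
    obtain ⟨b, hb, x, hx⟩ := hvis_res _ hv
    have h1 := (hokC e he).1
    rw [hx, h385_posC_B y hb x] at h1
    exact hvis_hdv _ hv ⟨e, ((hfCm e).1 he).1, Or.inl ⟨rfl, h1.symm⟩⟩
  have hfC_j : ∀ e ∈ fC, ¬ vis e.j := by
    intro e he hv
    obtain ⟨b, hb, x, hx⟩ := hvis_res _ hv
    have h1 := (hokC e he).2.1
    rw [hx, h385_posC_B y hb x] at h1
    exact hvis_hdv _ hv ⟨e, ((hfCm e).1 he).1, Or.inr ⟨rfl, h1.symm⟩⟩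
  have hps : ∀ e ∈ f, ps e.i = e.a ∧ ps e.j = e.b := by
    intro e he
    by_cases hea : e.a ∈ B
    · have heB : e ∈ fB := (hfBm e).2 ⟨he, hea⟩
      obtain ⟨x, x', h1, h2⟩ := hst e heB
      have hvi : vis e.i := ⟨e, heB, Or.inl rfl⟩
      have hvj : vis e.j := ⟨e, heB, Or.inr rfl⟩
      refine ⟨?_, ?_⟩
      · show (if vis e.i then h385_res e.i else posC B y e.i) = e.a
        rw [if_pos hvi, h1]; rfl
      · show (if vis e.j then h385_res e.j else posC B y e.j) = e.b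
        rw [if_pos hvj, h2]; rfl
    · have heC : e ∈ fC := (hfCm e).2 ⟨he, hea⟩
      refine ⟨?_, ?_⟩
      · show (if vis e.i then h385_res e.i else posC B y e.i) = e.a
        rw [if_neg (hfC_i e heC)]; exact (hokC e heC).1
      · show (if vis e.j then h385_res e.j else posC B y e.j) = e.b
        rw [if_neg (hfC_j e heC)]; exact (hokC e heC).2.1
  have hcle : ∀ e ∈ f, cl e.i = cl e.j := by
    intro e he
    by_cases hea : e.a ∈ B
    · have heB : e ∈ fB := (hfBm e).2 ⟨he, hea⟩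
      obtain ⟨x, x', h1, h2⟩ := hst e heB
      have hvi : vis e.i := ⟨e, heB, Or.inl rfl⟩
      have hvj : vis e.j := ⟨e, heB, Or.inr rfl⟩
      rw [hcl_vis _ hvi, hcl_vis _ hvj]
      congr 1
      have ht : (e.a, x) ∈ TT B fB A := Finset.mem_filter.2
        ⟨Finset.mem_univ _, hea, Or.inr ⟨e, heB, Or.inl h1⟩⟩
      have ht' : (e.b, x') ∈ TT B fB A := Finset.mem_filter.2
        ⟨Finset.mem_univ _, (hcl e he).1 hea, Or.inr ⟨e, heB, Or.inr h2⟩⟩
      have h3 := hc e heB ⟨_, ht⟩ ⟨_, ht'⟩ h1 h2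
      rw [h1, h2, hlbl ⟨_, ht⟩, hlbl ⟨_, ht'⟩, h3]
    · have heC : e ∈ fC := (hfCm e).2 ⟨he, hea⟩
      rw [hcl_not _ (hfC_i e heC), hcl_not _ (hfC_j e heC)]
      congr 1
      exact h385_cls_edge B y fC hM e heC (hokC e heC)
  have hcl0 : cl (Sum.inl 0) = Sum.inr (h385_cls B y fC (Sum.inl 0)) := by
    apply hcl_not
    intro hv
    obtain ⟨b, hb, x, hx⟩ := hvis_res _ hv
    exact absurd hx (by simp)
  have hAvis : ∀ v ∈ A, ¬ vis v := fun v hv hvis => hvis_hdv v hvis (hA v hv).1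
  have hApos : ∀ v ∈ A, posC B y v = 0 := by
    intro v hv
    obtain ⟨b, hb, x, rfl⟩ := (hA v hv).2
    exact h385_posC_B y hb x
  let T1 : Finset {t // t ∈ TT B fB A} := Finset.univ.filter (fun t => vis (Sum.inr t.1))
  let T2 : Finset {t // t ∈ TT B fB A} := Finset.univ.filter (fun t => ¬ vis (Sum.inr t.1))
  let L1 : Finset (Fin q) := T1.image lam
  let C1 : Finset (Fin q ⊕ (Fin q ⊕ Vtx m q)) := L1.image Sum.inl
  let C2 : Finset (Fin q ⊕ (Fin q ⊕ Vtx m q)) := A.image (fun v => Sum.inr (h385_cls B y fC v))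
  have hC1 : C1.card = L1.card := Finset.card_image_of_injective _ Sum.inl_injective
  have hC2 : C2.card = A.card := by
    apply Finset.card_image_of_injOn
    intro v hv v' hv' h
    exact h385_cls_inj B y fC hM v v' (hApos v hv) (hApos v' hv') (Sum.inr.inj h)
  have hdis : Disjoint C1 C2 := by
    rw [Finset.disjoint_left]
    intro c h1 h2
    obtain ⟨l, -, rfl⟩ := Finset.mem_image.1 h1
    obtain ⟨v, -, h3⟩ := Finset.mem_image.1 h2
    exact absurd h3 (by simp)
  have hcount : (Finset.univ.image lam).card ≤ (C1 ∪ C2).card := by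
    rw [Finset.card_union_of_disjoint hdis, hC1, hC2]
    have h1 : (Finset.univ.image lam) ⊆ L1 ∪ T2.image lam := by
      intro l hl
      obtain ⟨t, -, rfl⟩ := Finset.mem_image.1 hl
      by_cases ht : vis (Sum.inr t.1)
      · exact Finset.mem_union_left _ (Finset.mem_image_of_mem _
          (Finset.mem_filter.2 ⟨Finset.mem_univ _, ht⟩))
      · exact Finset.mem_union_right _ (Finset.mem_image_of_mem _
          (Finset.mem_filter.2 ⟨Finset.mem_univ _, ht⟩))
    have h2 : (T2.image lam).card ≤ A.card := by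
      refine le_trans Finset.card_image_le ?_
      apply Finset.card_le_card_of_injOn (fun t => (Sum.inr t.1 : Vtx m q))
      · intro t ht
        have h3 := (Finset.mem_filter.1 (Finset.mem_coe.1 ht)).2
        rcases (h385_TT_mem t.2).2 with h4 | ⟨e, he, h5⟩
        · exact h4
        · exact absurd ⟨e, he, h5⟩ h3
      · intro t _ t' _ h
        exact Subtype.ext (Sum.inr.inj h)
    exact le_trans (Finset.card_le_card h1) (le_trans (Finset.card_union_le _ _) (by omega))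
  have hfin := cost_classes_erase kk j0 e0 g (hf ▸ hb) ps (fun e he => hps e (hf ▸ he)) cl
    (fun e he => hcle e (hf ▸ he)) ((C1 ∪ C2).erase (cl e0.i)) (by
    intro c hcm
    obtain ⟨hne, hcm⟩ := Finset.mem_erase.1 hcm
    rcases Finset.mem_union.1 hcm with h1 | h1
    · obtain ⟨l, hl, rfl⟩ := Finset.mem_image.1 h1
      obtain ⟨t, ht, rfl⟩ := Finset.mem_image.1 hl
      have htv : vis (Sum.inr t.1) := (Finset.mem_filter.1 ht).2
      refine ⟨?_, hne, ?_⟩
      · rw [hcl0]; simp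
      · obtain ⟨e, he, h5⟩ := htv
        have hef := ((hfBm e).1 he).1
        have h6 : cl e.i = Sum.inl (lam t) := by
          have h7 : cl (Sum.inr t.1) = Sum.inl (lam t) := by
            rw [hcl_vis _ ⟨e, he, h5⟩, hlbl t]
          rcases h5 with h5 | h5
          · rw [h5, h7]
          · rw [hcle e hef, h5, h7]
        rcases Multiset.mem_cons.1 (hf ▸ hef) with rfl | hg
        · exact absurd h6.symm hne
        · exact ⟨e, hg, h6⟩
    · obtain ⟨v, hv, rfl⟩ := Finset.mem_image.1 h1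
      refine ⟨?_, hne, ?_⟩
      · rw [hcl0]
        intro h2
        have h3 := h385_cls_inj B y fC hM v (Sum.inl 0) (hApos v hv) rfl (Sum.inr.inj h2)
        obtain ⟨b, hb, x, hx⟩ := (hA v hv).2
        rw [hx] at h3
        exact absurd h3 (by simp)
      · obtain ⟨e, hef, h5⟩ := (hA v hv).1
        have h6 : cl e.i = Sum.inr (h385_cls B y fC v) := by
          have h7 : cl v = Sum.inr (h385_cls B y fC v) := hcl_not _ (hAvis v hv)
          rcases h5 with h5 | h5
          · rw [h5.1, h7]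
          · rw [hcle e hef, h5.1, h7]
        rcases Multiset.mem_cons.1 (hf ▸ hef) with rfl | hg
        · exact absurd h6.symm hne
        · exact ⟨e, hg, h6⟩)
  have h8 : (C1 ∪ C2).card ≤ ((C1 ∪ C2).erase (cl e0.i)).card + 1 := by
    have := Finset.pred_card_le_card_erase (s := C1 ∪ C2) (a := cl e0.i)
    omega
  omega

/-- H3: the number of labels is bounded by the weight -/
theorem H3 (kk : Fin (m+1) → ℕ) (j0 : Vtx m q) (e0 : Edge m q) (g : Multiset (Edge m q))
    (hb : bal j0 (e0 ::ₘ g)) (B : Finset (Fin (m+1))) (h0 : (0 : Fin (m+1)) ∉ B) (ha : e0.a ∈ B)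
    (hcl : ∀ e ∈ e0 ::ₘ g, (e.a ∈ B ↔ e.b ∈ B)) (A : Finset (Vtx m q))
    (hA : ∀ v ∈ A, hdv (e0 ::ₘ g) v ∧ ∃ b ∈ B, ∃ x, v = Sum.inr (b, x))
    (hst : stat ((e0 ::ₘ g).filter (fun e => e.a ∈ B)))
    (hdj : ∀ v, hdv (e0 ::ₘ g) v → ∀ e ∈ (e0 ::ₘ g).filter (fun e => e.a ∈ B), e.i ≠ v ∧ e.j ≠ v)
    (y : St m q) (hinj : ∀ b, Function.Injective (y b))
    (hokC : ∀ e ∈ (e0 ::ₘ g).filter (fun e => e.a ∉ B), okC B y e)
    (hM : IsM (Qf y ((e0 ::ₘ g).filter (fun e => e.a ∉ B))))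
    (lam : {t // t ∈ TT B ((e0 ::ₘ g).filter (fun e => e.a ∈ B)) A} → Fin q)
    (hc : cmp B ((e0 ::ₘ g).filter (fun e => e.a ∈ B)) A lam)
    (hlam : ∀ t : {t // t ∈ TT B ((e0 ::ₘ g).filter (fun e => e.a ∈ B)) A},
      y t.1.1 (lam t) = t.1.2) :
    (Finset.univ.image lam).card ≤ wf kk g + 1 := by
  exact h385_H3_aux kk j0 e0 g (e0 ::ₘ g) _ _ rfl hb B h0 ha rfl rfl hcl A hA hst hdj y hinj hokC hM
    lam hc hlam

end

end Pool.Agent.RepFLR
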