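import Pool.Agent.Helper26.FLR.G2

set_option autoImplicit false

namespace Pool.Agent.RepFLR

open Classical

section
variable {m q : ℕ} [NeZero q]

end

section
variable {m q : ℕ} [NeZero q]

end

section
variable {m q : ℕ} [NeZero q]

end

section
variable {m q : ℕ} [NeZero q]

end

section
variable {m q : ℕ} [NeZero q]

end

section
variable {m q : ℕ} [NeZero q]

/-- position outside the reservoirs in `B` -/
noncomputable def posC (B : Finset (Fin (m+1))) (y : St m q) : Vtx m q → Fin (m+1)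
  | Sum.inl _ => 0
  | Sum.inr (b, x) => if b ∉ B ∧ ∃ l, y b l = x then b else 0

end

section
variable {m q : ℕ} [NeZero q]

/-- edge conditions that do not look at the words in `B` -/
def okC (B : Finset (Fin (m+1))) (y : St m q) (e : Edge m q) : Prop :=
  posC B y e.i = e.a ∧ posC B y e.j = e.b ∧ (e.a ≠ 0 → e.b ≠ 0 → lbl y e.i = lbl y e.j) ∧
    (e.a = 0 → e.b = 0 → e.i = e.j)

end

section
variable {m q : ℕ} [NeZero q]

theorem h4_posC_in (B : Finset (Fin (m+1))) (y : St m q) (b : Fin (m+1)) (x : Ltr q)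
    (hb : b ∈ B) : posC B y (Sum.inr (b, x)) = 0 := by
  simp [posC, hb]

theorem h4_posC_out (B : Finset (Fin (m+1))) (y : St m q) (b : Fin (m+1)) (x : Ltr q)
    (hb : b ∉ B) : posC B y (Sum.inr (b, x)) = pos y (Sum.inr (b, x)) := by
  simp [posC, pos, hb]

theorem h4_pos_or (y : St m q) (b : Fin (m+1)) (x : Ltr q) :
    pos y (Sum.inr (b, x)) = b ∨ pos y (Sum.inr (b, x)) = 0 := by
  simp only [pos]
  split_ifs
  · exact Or.inl rfl
  · exact Or.inr rfl

/-- transfer of positions, forward -/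
theorem h4_fwd (B : Finset (Fin (m+1))) (y : St m q) (v : Vtx m q) (a : Fin (m+1))
    (ha : a ∉ B) (h : pos y v = a) : posC B y v = a := by
  rcases v with k | ⟨b, x⟩
  · exact h
  · by_cases hb : b ∈ B
    · rw [h4_posC_in B y b x hb]
      rcases h4_pos_or y b x with h1 | h1
      · rw [h] at h1
        rw [h1] at ha
        exact absurd hb ha
      · rw [← h, h1]
    · rw [h4_posC_out B y b x hb, h]

/-- transfer of positions, backward -/
theorem h4_bwd (B : Finset (Fin (m+1))) (y : St m q) (v : Vtx m q) (a : Fin (m+1))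
    (h : posC B y v = a)
    (hz : a = 0 → (∃ b ∈ B, ∃ x, v = Sum.inr (b, x)) → pos y v = 0) : pos y v = a := by
  rcases v with k | ⟨b, x⟩
  · exact h
  · by_cases hb : b ∈ B
    · rw [h4_posC_in B y b x hb] at h
      rw [hz h.symm ⟨b, hb, x, rfl⟩, h]
    · rw [h4_posC_out B y b x hb] at h
      exact h

theorem h4_Qf (f : Multiset (Edge m q)) (B : Finset (Fin (m+1)))
    (h0 : (0 : Fin (m+1)) ∉ B) (hcl : ∀ e ∈ f, (e.a ∈ B ↔ e.b ∈ B)) (y : St m q) :
    Qf y f = Qf y (f.filter (fun e => e.a ∉ B)) := by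
  unfold Qf
  congr 1
  ext p
  simp only [Finset.mem_biUnion, Multiset.mem_toFinset, Multiset.mem_filter]
  constructor
  · rintro ⟨e, he, hp⟩
    refine ⟨e, ⟨he, ?_⟩, hp⟩
    intro ha
    have hb := (hcl e he).1 ha
    have ha0 : e.a ≠ 0 := fun h => h0 (h ▸ ha)
    have hb0 : e.b ≠ 0 := fun h => h0 (h ▸ hb)
    unfold prs at hp
    rw [if_neg (fun h => ha0 h.1), if_neg (fun h => hb0 h.2)] at hp
    simp at hp
  · rintro ⟨e, ⟨he, -⟩, hp⟩
    exact ⟨e, he, hp⟩

theorem h4_sum (H : Finset (Vtx m q)) (y : St m q) :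
    ∑ A ∈ H.powerset, (-1 : ℤ)^A.card * (if ∀ v ∈ A, pos y v ≠ 0 then 1 else 0) =
      if ∀ v ∈ H, pos y v = 0 then 1 else 0 := by
  have h1 : ∑ A ∈ H.powerset, (-1 : ℤ)^A.card * (if ∀ v ∈ A, pos y v ≠ 0 then 1 else 0) =
      ∑ A ∈ (H.filter (fun v => pos y v ≠ 0)).powerset, (-1 : ℤ)^A.card := by
    simp only [mul_ite, mul_one, mul_zero]
    rw [← Finset.sum_filter]
    refine Finset.sum_congr ?_ fun _ _ => rfl
    ext A
    simp only [Finset.mem_filter, Finset.mem_powerset]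
    constructor
    · rintro ⟨h2, h3⟩ v hv
      exact Finset.mem_filter.2 ⟨h2 hv, h3 v hv⟩
    · intro h2
      exact ⟨fun v hv => (Finset.mem_filter.1 (h2 hv)).1,
        fun v hv => (Finset.mem_filter.1 (h2 hv)).2⟩
  rw [h1, Finset.sum_powerset_neg_one_pow_card]
  have h2 : (H.filter (fun v => pos y v ≠ 0) = ∅) ↔ ∀ v ∈ H, pos y v = 0 := by
    rw [Finset.filter_eq_empty_iff]
    constructor
    · intro h v hv
      by_contra hc
      exact h hv hc
    · intro h v hv hc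
      exact hc (h v hv)
  by_cases hc : ∀ v ∈ H, pos y v = 0
  · rw [if_pos hc, if_pos (h2.2 hc)]
  · rw [if_neg hc, if_neg (fun h => hc (h2.1 h))]

/-- H4: splitting of the value of a monomial -/
theorem H4 (rm : ℕ) (f : Multiset (Edge m q)) (B : Finset (Fin (m+1)))
    (h0 : (0 : Fin (m+1)) ∉ B) (hcl : ∀ e ∈ f, (e.a ∈ B ↔ e.b ∈ B))
    (y : St m q) (hinj : ∀ b, Function.Injective (y b)) (H : Finset (Vtx m q))
    (hH : ∀ v, v ∈ H ↔ hdv f v ∧ ∃ b ∈ B, ∃ x, v = Sum.inr (b, x)) :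
    val rm y f = ∑ A ∈ H.powerset, (-1)^A.card *
      ((if ∀ e ∈ f.filter (fun e => e.a ∉ B), okC B y e then
          kap rm (Qf y (f.filter (fun e => e.a ∉ B))) else 0) *
        (if (∀ e ∈ f.filter (fun e => e.a ∈ B), ok y e) ∧ (∀ v ∈ A, pos y v ≠ 0)
          then (1:ℤ) else 0)) := by
  have hmain : (∀ e ∈ f, ok y e) ↔ (∀ e ∈ f.filter (fun e => e.a ∉ B), okC B y e) ∧
      (∀ e ∈ f.filter (fun e => e.a ∈ B), ok y e) ∧ (∀ v ∈ H, pos y v = 0) := by
    constructor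
    · intro h
      refine ⟨?_, ?_, ?_⟩
      · intro e he
        obtain ⟨he, ha⟩ := Multiset.mem_filter.1 he
        obtain ⟨h1, h2, h3, h4⟩ := h e he
        have hb : e.b ∉ B := fun hb => ha ((hcl e he).2 hb)
        exact ⟨h4_fwd B y _ _ ha h1, h4_fwd B y _ _ hb h2, h3, h4⟩
      · intro e he
        exact h e (Multiset.mem_filter.1 he).1
      · intro v hv
        obtain ⟨⟨e, he, hcase⟩, -⟩ := (hH v).1 hv
        obtain ⟨h1, h2, -, -⟩ := h e he
        rcases hcase with ⟨rfl, h5⟩ | ⟨rfl, h5⟩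
        · rw [h1, h5]
        · rw [h2, h5]
    · rintro ⟨hC, hB, hHz⟩ e he
      by_cases ha : e.a ∈ B
      · exact hB e (Multiset.mem_filter.2 ⟨he, ha⟩)
      · obtain ⟨h1, h2, h3, h4⟩ := hC e (Multiset.mem_filter.2 ⟨he, ha⟩)
        refine ⟨h4_bwd B y _ _ h1 ?_, h4_bwd B y _ _ h2 ?_, h3, h4⟩
        · intro hz hr
          exact hHz _ ((hH _).2 ⟨⟨e, he, Or.inl ⟨rfl, hz⟩⟩, hr⟩)
        · intro hz hr
          exact hHz _ ((hH _).2 ⟨⟨e, he, Or.inr ⟨rfl, hz⟩⟩, hr⟩)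
  have hterm : ∀ A ∈ H.powerset, (-1 : ℤ)^A.card *
      ((if ∀ e ∈ f.filter (fun e => e.a ∉ B), okC B y e then
          kap rm (Qf y (f.filter (fun e => e.a ∉ B))) else 0) *
        (if (∀ e ∈ f.filter (fun e => e.a ∈ B), ok y e) ∧ (∀ v ∈ A, pos y v ≠ 0)
          then (1:ℤ) else 0)) =
      ((if ∀ e ∈ f.filter (fun e => e.a ∉ B), okC B y e then
          kap rm (Qf y (f.filter (fun e => e.a ∉ B))) else 0) *
        (if ∀ e ∈ f.filter (fun e => e.a ∈ B), ok y e then (1 : ℤ) else 0)) *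
        ((-1 : ℤ)^A.card * (if ∀ v ∈ A, pos y v ≠ 0 then 1 else 0)) := by
    intro A _
    have key : (if (∀ e ∈ f.filter (fun e => e.a ∈ B), ok y e) ∧ (∀ v ∈ A, pos y v ≠ 0)
          then (1:ℤ) else 0) = (if ∀ e ∈ f.filter (fun e => e.a ∈ B), ok y e then (1 : ℤ) else 0) *
          (if ∀ v ∈ A, pos y v ≠ 0 then 1 else 0) := by
      by_cases h1 : ∀ e ∈ f.filter (fun e => e.a ∈ B), ok y e
      · by_cases h2 : ∀ v ∈ A, pos y v ≠ 0
        · rw [if_pos (⟨h1, h2⟩ : _ ∧ _), if_pos h1, if_pos h2]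
          rfl
        · rw [if_neg (fun h : _ ∧ _ => h2 h.2), if_neg h2, mul_zero]
      · rw [if_neg (fun h : _ ∧ _ => h1 h.1), if_neg h1, zero_mul]
    rw [key]
    ring
  rw [Finset.sum_congr rfl hterm, ← Finset.mul_sum, h4_sum]
  unfold val
  by_cases hall : ∀ e ∈ f, ok y e
  · obtain ⟨k1, k2, k3⟩ := hmain.1 hall
    rw [if_pos hall, if_pos k1, if_pos k2, if_pos k3, h4_Qf f B h0 hcl y]
    ring
  · rw [if_neg hall]
    by_cases k1 : ∀ e ∈ f.filter (fun e => e.a ∉ B), okC B y e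
    · by_cases k2 : ∀ e ∈ f.filter (fun e => e.a ∈ B), ok y e
      · by_cases k3 : ∀ v ∈ H, pos y v = 0
        · exact absurd (hmain.2 ⟨k1, k2, k3⟩) hall
        · rw [if_neg k3]
          ring
      · rw [if_neg k2]
        ring
    · rw [if_neg k1]
      ring

end

end Pool.Agent.RepFLR
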