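import Pool.Agent.Helper26.FLR.H1

set_option autoImplicit false

namespace Pool.Agent.RepFLR

open Classical

section
variable {m q : ℕ} [NeZero q]

end

section
variable {m q : ℕ} [NeZero q]

end

section
variable {m q : ℕ} [NeZero q]

end

section
variable {m q : ℕ} [NeZero q]

end

section
variable {m q : ℕ} [NeZero q]

end

section
variable {m q : ℕ} [NeZero q]

end

section
variable {m q : ℕ} [NeZero q]

end

section
variable {m q : ℕ} [NeZero q]

end

section
variable {m q : ℕ} [NeZero q]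

end

section
variable {m q : ℕ} [NeZero q]

end

section
variable {m q : ℕ} [NeZero q]

end

section
variable {m q : ℕ} [NeZero q]

end

section
variable {m q : ℕ} [NeZero q]

end

section
variable {m q : ℕ} [NeZero q]

end

section
variable {m q : ℕ} [NeZero q]

theorem h5_posC (B : Finset (Fin (m+1))) (y y' : St m q) (h : ∀ b, b ∉ B → y b = y' b)
    (v : Vtx m q) : posC B y v = posC B y' v := by
  rcases v with v | ⟨b, x⟩
  · rfl
  · by_cases hb : b ∈ B
    · simp only [posC, hb, not_true_eq_false, false_and, if_false]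
    · simp only [posC, h b hb]

theorem h5_lbl (B : Finset (Fin (m+1))) (y y' : St m q) (h : ∀ b, b ∉ B → y b = y' b)
    (v : Vtx m q) (hv : posC B y v ≠ 0) : lbl y v = lbl y' v := by
  rcases v with v | ⟨b, x⟩
  · rfl
  · have hb : b ∉ B := by
      intro hb
      apply hv
      simp only [posC, hb, not_true_eq_false, false_and, if_false]
    simp only [lbl, h b hb]

theorem h5_okC (B : Finset (Fin (m+1))) (y y' : St m q) (h : ∀ b, b ∉ B → y b = y' b)
    (e : Edge m q) (he : okC B y e) : okC B y' e := by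
  obtain ⟨h1, h2, h3, h4⟩ := he
  refine ⟨by rw [← h5_posC B y y' h]; exact h1, by rw [← h5_posC B y y' h]; exact h2, ?_, h4⟩
  intro ha hb
  rw [← h5_lbl B y y' h e.i (by rw [h1]; exact ha), ← h5_lbl B y y' h e.j (by rw [h2]; exact hb)]
  exact h3 ha hb

theorem h5_prs (B : Finset (Fin (m+1))) (y y' : St m q) (h : ∀ b, b ∉ B → y b = y' b)
    (e : Edge m q) (he : okC B y e) : prs y e = prs y' e := by
  obtain ⟨h1, h2, h3, h4⟩ := he
  unfold prs
  by_cases c1 : e.a = 0 ∧ e.b ≠ 0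
  · rw [if_pos c1, if_pos c1, h5_lbl B y y' h e.j (by rw [h2]; exact c1.2)]
  · rw [if_neg c1, if_neg c1]
    by_cases c2 : e.a ≠ 0 ∧ e.b = 0
    · rw [if_pos c2, if_pos c2, h5_lbl B y y' h e.i (by rw [h1]; exact c2.1)]
    · rw [if_neg c2, if_neg c2]

theorem h5_FC (rm : ℕ) (B : Finset (Fin (m+1))) (fC : Multiset (Edge m q)) (y y' : St m q)
    (h : ∀ b, b ∉ B → y b = y' b) :
    (if ∀ e ∈ fC, okC B y e then kap rm (Qf y fC) else 0) =
      (if ∀ e ∈ fC, okC B y' e then kap rm (Qf y' fC) else 0) := by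
  by_cases h1 : ∀ e ∈ fC, okC B y e
  · have h2 : ∀ e ∈ fC, okC B y' e := fun e he => h5_okC B y y' h e (h1 e he)
    rw [if_pos h1, if_pos h2]
    congr 1
    unfold Qf
    congr 1
    refine Finset.biUnion_congr rfl fun e he => ?_
    exact h5_prs B y y' h e (h1 e (Multiset.mem_toFinset.mp he))
  · have h2 : ¬ ∀ e ∈ fC, okC B y' e := fun h3 => h1 fun e he =>
      h5_okC B y' y (fun b hb => (h b hb).symm) e (h3 e he)
    rw [if_neg h1, if_neg h2]

theorem h5_cmp (B : Finset (Fin (m+1))) (fB : Multiset (Edge m q)) (A : Finset (Vtx m q))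
    (lam : {t // t ∈ TT B fB A} → Fin q) (θ : Fin q → Fin q)
    (hθ : StrictMonoOn θ (Set.range lam)) : cmp B fB A (θ ∘ lam) ↔ cmp B fB A lam := by
  constructor
  · intro h e he t t' h1 h2
    exact hθ.injOn (Set.mem_range_self t) (Set.mem_range_self t') (h e he t t' h1 h2)
  · intro h e he t t' h1 h2
    exact congrArg θ (h e he t t' h1 h2)

/-- R3, case 3 -/
theorem bad_case (p M rm : ℕ) (hp : p.Prime) (hq : q = p^M) (kk : Fin (m+1) → ℕ) (j0 : Vtx m q)
    (e0 : Edge m q) (g : Multiset (Edge m q)) (hb : bal j0 (e0 ::ₘ g)) (B : Finset (Fin (m+1)))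
    (h0 : (0 : Fin (m+1)) ∉ B) (ha : e0.a ∈ B) (hcl : ∀ e ∈ e0 ::ₘ g, (e.a ∈ B ↔ e.b ∈ B)) :
    ((p:ℤ)^M) ∣ (p:ℤ)^(wf kk g) * Yf rm (e0 ::ₘ g) := by
  set f := e0 ::ₘ g with hf
  set fB := f.filter (fun e => e.a ∈ B) with hfBdef
  set fC := f.filter (fun e => e.a ∉ B) with hfCdef
  have hfB : ∀ e ∈ fB, e.a ∈ B ∧ e.b ∈ B := by
    intro e he
    rw [hfBdef, Multiset.mem_filter] at he
    exact ⟨he.2, (hcl e he.1).mp he.2⟩
  have hfBf : ∀ e ∈ fB, e ∈ f := fun e he => (Multiset.mem_filter.mp he).1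
  have hY : Yf rm f = ∑ y : St m q, nuy y * val rm y f := rfl
  have hne0 : ∀ b ∈ B, b ≠ 0 := by
    rintro b hbB rfl
    exact h0 hbB
  have hzero : (∀ y : St m q, ¬ ∀ e ∈ f, ok y e) → ((p:ℤ)^M) ∣ (p:ℤ)^(wf kk g) * Yf rm f := by
    intro h
    have h1 : Yf rm f = 0 := by
      rw [hY]
      apply Finset.sum_eq_zero
      intro y _
      unfold val
      rw [if_neg (h y), mul_zero]
    rw [h1, mul_zero]
    exact dvd_zero _
  by_cases hst : stat fB
  swap
  · apply hzero
    intro y hok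
    apply hst
    intro e he
    have h1 := hok e (hfBf e he)
    have h2 := hfB e he
    have h3 := lbl_spec y e.i (by rw [h1.1]; exact hne0 _ h2.1)
    have h4 := lbl_spec y e.j (by rw [h1.2.1]; exact hne0 _ h2.2)
    rw [h1.1] at h3
    rw [h1.2.1] at h4
    exact ⟨_, _, h3, h4⟩
  by_cases hdj : ∀ v, hdv f v → ∀ e ∈ fB, e.i ≠ v ∧ e.j ≠ v
  swap
  · apply hzero
    intro y hok
    apply hdj
    intro v hv e he
    have hpv : pos y v = 0 := by
      obtain ⟨e', he', h | h⟩ := hv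
      · rw [← h.1, (hok e' he').1, h.2]
      · rw [← h.1, (hok e' he').2.1, h.2]
    have h1 := hok e (hfBf e he)
    have h2 := hfB e he
    constructor
    · intro h3
      apply hne0 _ h2.1
      rw [← h1.1, h3, hpv]
    · intro h3
      apply hne0 _ h2.2
      rw [← h1.2.1, h3, hpv]
  set H : Finset (Vtx m q) := Finset.univ.filter (fun v => hdv f v ∧ ∃ b ∈ B, ∃ x, v = Sum.inr (b, x)) with hHdef
  have hH : ∀ v, v ∈ H ↔ hdv f v ∧ ∃ b ∈ B, ∃ x, v = Sum.inr (b, x) := by
    intro v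
    rw [hHdef, Finset.mem_filter]
    exact ⟨fun h => h.2, fun h => ⟨Finset.mem_univ _, h⟩⟩
  set FC : St m q → ℤ := fun y => if ∀ e ∈ fC, okC B y e then kap rm (Qf y fC) else 0 with hFC
  have hFCinv : ∀ y y' : St m q, (∀ b, b ∉ B → y b = y' b) → FC y = FC y' := by
    intro y y' h
    exact h5_FC rm B fC y y' h
  have key : ∀ y : St m q, nuy y * val rm y f = ∑ A ∈ H.powerset, (-1)^A.card *
      ∑ lam : {t // t ∈ TT B fB A} → Fin q, nuy y * FC y *
        (if cmp B fB A lam ∧ ∀ t : {t // t ∈ TT B fB A}, y t.1.1 (lam t) = t.1.2 then 1 else 0) := by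
    intro y
    by_cases hy : nuy y = 0
    · rw [hy]
      simp
    · have hinj := nuy_inj y hy
      rw [H4 rm f B h0 hcl y hinj H hH, Finset.mul_sum]
      refine Finset.sum_congr rfl fun A hA => ?_
      rw [Finset.mem_powerset] at hA
      have h2 := H2 B h0 y hinj fB hfB hst A (fun v hv => ((hH v).mp (hA hv)).2)
      have h3 : nuy y * ((-1)^A.card * (FC y *
          (if (∀ e ∈ fB, ok y e) ∧ (∀ v ∈ A, pos y v ≠ 0) then (1:ℤ) else 0))) =
          (-1)^A.card * ∑ lam : {t // t ∈ TT B fB A} → Fin q, nuy y * FC y *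
        (if cmp B fB A lam ∧ ∀ t : {t // t ∈ TT B fB A}, y t.1.1 (lam t) = t.1.2 then 1 else 0) := by
        rw [← Finset.mul_sum, ← h2]
        ring
      rw [← h3]
      congr!
  have hYe : Yf rm f = ∑ A ∈ H.powerset, (-1)^A.card *
      ∑ lam : {t // t ∈ TT B fB A} → Fin q, ∑ y : St m q, nuy y * FC y *
        (if cmp B fB A lam ∧ ∀ t : {t // t ∈ TT B fB A}, y t.1.1 (lam t) = t.1.2 then 1 else 0) := by
    rw [hY, Finset.sum_congr rfl (fun y _ => key y), Finset.sum_comm]
    refine Finset.sum_congr rfl fun A _ => ?_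
    rw [← Finset.mul_sum]
    congr 1
    exact Finset.sum_comm
  rw [hYe, Finset.mul_sum]
  apply Finset.dvd_sum
  intro A hA
  rw [Finset.mem_powerset] at hA
  rw [mul_left_comm]
  refine Dvd.dvd.mul_left ?_ _
  have he0 : e0 ∈ fB := by
    rw [hfBdef, Multiset.mem_filter]
    exact ⟨Multiset.mem_cons_self _ _, ha⟩
  have hne : Nonempty {t // t ∈ TT B fB A} := by
    obtain ⟨x, x', h1, -⟩ := hst e0 he0
    refine ⟨⟨(e0.a, x), ?_⟩⟩
    unfold TT
    rw [Finset.mem_filter]
    exact ⟨Finset.mem_univ _, ha, Or.inr ⟨e0, he0, Or.inl h1⟩⟩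
  have hTB : ∀ t ∈ TT B fB A, t.1 ∈ B := by
    intro t ht
    unfold TT at ht
    rw [Finset.mem_filter] at ht
    exact ht.2.1
  have hGA : ∀ lam : {t // t ∈ TT B fB A} → Fin q, (∑ y : St m q, nuy y * FC y *
        (if cmp B fB A lam ∧ ∀ t : {t // t ∈ TT B fB A}, y t.1.1 (lam t) = t.1.2 then (1:ℤ) else 0)) =
      if cmp B fB A lam then (∑ y : St m q, nuy y * FC y *
        (if ∀ t : {t // t ∈ TT B fB A}, y t.1.1 (lam t) = t.1.2 then 1 else 0)) else 0 := by
    intro lam
    by_cases hc : cmp B fB A lam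
    · rw [if_pos hc]
      refine Finset.sum_congr rfl fun y _ => ?_
      congr 1
      simp only [hc, true_and]
    · rw [if_neg hc]
      apply Finset.sum_eq_zero
      intro y _
      rw [if_neg (fun h => hc h.1), mul_zero]
  have hfin := order_sum_dvd p M q (wf kk g) hp hq {t // t ∈ TT B fB A}
    (fun lam => ∑ y : St m q, nuy y * FC y *
        (if cmp B fB A lam ∧ ∀ t : {t // t ∈ TT B fB A}, y t.1.1 (lam t) = t.1.2 then (1:ℤ) else 0))
    (by
      intro lam θ hθ
      rw [hGA lam, hGA (θ ∘ lam)]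
      by_cases hc : cmp B fB A lam
      · rw [if_pos hc, if_pos ((h5_cmp B fB A lam θ hθ).mpr hc)]
        exact H1 B FC hFCinv (TT B fB A) hTB lam θ hθ
      · rw [if_neg hc, if_neg (fun h => hc ((h5_cmp B fB A lam θ hθ).mp h))])
    (by
      intro lam hlam
      obtain ⟨y, -, hy⟩ := Finset.exists_ne_zero_of_sum_ne_zero hlam
      have hy1 : nuy y * FC y ≠ 0 := left_ne_zero_of_mul hy
      have hy2 := right_ne_zero_of_mul hy
      have hy3 : nuy y ≠ 0 := left_ne_zero_of_mul hy1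
      have hy4 : FC y ≠ 0 := right_ne_zero_of_mul hy1
      have hinj := nuy_inj y hy3
      have hcm : cmp B fB A lam ∧ ∀ t : {t // t ∈ TT B fB A}, y t.1.1 (lam t) = t.1.2 := by
        by_contra h
        exact hy2 (if_neg h)
      have hok : ∀ e ∈ fC, okC B y e := by
        by_contra h
        exact hy4 (if_neg h)
      have hM : IsM (Qf y fC) := by
        by_contra h
        apply hy4
        simp only [hFC]
        rw [if_pos hok]
        unfold kap
        rw [if_neg h]
      exact H3 kk j0 e0 g hb B h0 ha hcl A (fun v hv => (hH v).mp (hA hv)) hst hdj y hinj hok hM lam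
        hcm.1 hcm.2)
  have hfin' : ((p:ℤ)^M) ∣ (p:ℤ)^(wf kk g) * ∑ lam : {t // t ∈ TT B fB A} → Fin q, ∑ y : St m q,
      nuy y * FC y * (if cmp B fB A lam ∧ ∀ t : {t // t ∈ TT B fB A}, y t.1.1 (lam t) = t.1.2
        then (1:ℤ) else 0) := by
    convert hfin
  exact hfin'

end

end Pool.Agent.RepFLR
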