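import Pool.Agent.Helper26.FLR.Z1

set_option autoImplicit false

namespace Pool.Agent.RepFLR

open Classical

end Pool.Agent.RepFLR

namespace Pool.Agent.RepFLR

open Classical

/-- the algebraic form of Theorem II -/
def Rep (p m : ℕ) (kk : Fin (m+1) → ℕ) : Prop :=
  ∃ (V : Type) (_ : Fintype V) (_ : DecidableEq V) (_ : Nonempty V) (K : Type) (_ : CommRing K)
    (_ : Nontrivial K) (X : Fin (m+1) → Fin (m+1) → Matrix V V K),
    (∀ a b c d, b ≠ c → X a b * X c d = 0) ∧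
    (∀ a b c, X a b * X b c = ((p:K)^(wt kk a b + wt kk b c - wt kk a c)) • X a c) ∧
    (∑ a, X a a = (p:K) • (1 : Matrix V V K)) ∧
    (∀ a b, ((p:K)^(kk a - wt kk a b)) • X a b = 0) ∧
    (∀ c : Fin (m+1) → Fin (m+1) → ℤ, ∑ a, ∑ b, (c a b : K) • X a b = 0 →
      ∀ a b, (p:ℤ)^(kk a - wt kk a b) ∣ c a b)

section J

open Matrix
open scoped Kronecker

variable {m f : ℕ}

/-- the matrix attached to `(M, d)` -/
noncomputable def ZZ {K V : Type} [CommRing K] [Fintype V] [DecidableEq V]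
    (X : Fin (m+1) → Fin (m+1) → Matrix V V K) (M : Matrix (Fin f) (Fin f) ℤ)
    (d : Fin (m+1) → Fin (m+1) → Matrix (Fin f) (Fin f) ℤ) : Matrix (V × Fin f) (V × Fin f) K :=
  (1 : Matrix V V K) ⊗ₖ ((Int.castRingHom K).mapMatrix M) +
    ∑ a, ∑ b, (X a b) ⊗ₖ ((Int.castRingHom K).mapMatrix (d a b))

theorem ZZ_apply {K V : Type} [CommRing K] [Fintype V] [DecidableEq V]
    (X : Fin (m+1) → Fin (m+1) → Matrix V V K) (M : Matrix (Fin f) (Fin f) ℤ)
    (d : Fin (m+1) → Fin (m+1) → Matrix (Fin f) (Fin f) ℤ) (v v' : V) (s s' : Fin f) :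
    ZZ X M d (v, s) (v', s') = (1 : Matrix V V K) v v' * (M s s' : K) +
      ∑ a, ∑ b, X a b v v' * (d a b s s' : K) := by
  unfold ZZ
  rw [Matrix.add_apply, Matrix.sum_apply]
  congr 1
  refine Finset.sum_congr rfl fun a _ => ?_
  rw [Matrix.sum_apply]
  rfl

theorem kron_sum {K V ι : Type} [CommRing K] (A : Matrix V V K) (s : Finset ι)
    (g : ι → Matrix (Fin f) (Fin f) K) : A ⊗ₖ (∑ i ∈ s, g i) = ∑ i ∈ s, A ⊗ₖ g i := by
  ext ⟨v, s1⟩ ⟨v', s2⟩
  rw [Matrix.sum_apply, Matrix.kroneckerMap_apply, Matrix.sum_apply, Finset.mul_sum]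
  rfl

theorem ZZ_mul {K V : Type} [CommRing K] [Fintype V] [DecidableEq V] (p : ℕ)
    (kk : Fin (m+1) → ℕ) (X : Fin (m+1) → Fin (m+1) → Matrix V V K)
    (h1 : ∀ a b c d, b ≠ c → X a b * X c d = 0)
    (h2 : ∀ a b c, X a b * X b c = ((p:K)^(wt kk a b + wt kk b c - wt kk a c)) • X a c)
    (M M1 : Matrix (Fin f) (Fin f) ℤ)
    (d d1 : Fin (m+1) → Fin (m+1) → Matrix (Fin f) (Fin f) ℤ) :
    ZZ X M d * ZZ X M1 d1 = ZZ X (M * M1) (fun a b => d a b * M1 + M * d1 a b +
      ∑ c, ((p:ℤ)^(wt kk a c + wt kk c b - wt kk a b)) • (d a c * d1 c b)) := by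
  have T4 : (∑ a, ∑ b, (X a b) ⊗ₖ ((Int.castRingHom K).mapMatrix (d a b))) *
      (∑ a, ∑ b, (X a b) ⊗ₖ ((Int.castRingHom K).mapMatrix (d1 a b))) =
      ∑ a, ∑ b, (X a b) ⊗ₖ ((Int.castRingHom K).mapMatrix
        (∑ c, ((p:ℤ)^(wt kk a c + wt kk c b - wt kk a b)) • (d a c * d1 c b))) := by
    rw [Finset.sum_mul]
    refine Finset.sum_congr rfl fun a _ => ?_
    rw [Finset.sum_mul]
    have e1 : ∀ b, (X a b) ⊗ₖ ((Int.castRingHom K).mapMatrix (d a b)) *
        (∑ c, ∑ e, (X c e) ⊗ₖ ((Int.castRingHom K).mapMatrix (d1 c e))) =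
        ∑ e, (X a e) ⊗ₖ ((Int.castRingHom K).mapMatrix
          (((p:ℤ)^(wt kk a b + wt kk b e - wt kk a e)) • (d a b * d1 b e))) := by
      intro b
      rw [Finset.mul_sum, Finset.sum_eq_single b]
      · rw [Finset.mul_sum]
        refine Finset.sum_congr rfl fun e _ => ?_
        rw [← Matrix.mul_kronecker_mul, h2, ← map_mul, Matrix.smul_kronecker, ← Matrix.kronecker_smul]
        congr 1
        ext s s'
        simp only [RingHom.mapMatrix_apply, Matrix.map_apply, Matrix.smul_apply, smul_eq_mul,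
          Int.coe_castRingHom, Int.cast_mul, Int.cast_pow, Int.cast_natCast]
      · intro c _ hc
        rw [Finset.mul_sum]
        apply Finset.sum_eq_zero
        intro e _
        rw [← Matrix.mul_kronecker_mul, h1 a b c e (Ne.symm hc), Matrix.zero_kronecker]
      · intro h
        exact absurd (Finset.mem_univ b) h
    rw [Finset.sum_congr rfl (fun b _ => e1 b), Finset.sum_comm]
    refine Finset.sum_congr rfl fun e _ => ?_
    rw [map_sum, kron_sum]
  have T1 : (1 : Matrix V V K) ⊗ₖ ((Int.castRingHom K).mapMatrix M) *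
      ((1 : Matrix V V K) ⊗ₖ ((Int.castRingHom K).mapMatrix M1)) =
      (1 : Matrix V V K) ⊗ₖ ((Int.castRingHom K).mapMatrix (M * M1)) := by
    rw [← Matrix.mul_kronecker_mul, one_mul, ← map_mul]
  have T2 : (1 : Matrix V V K) ⊗ₖ ((Int.castRingHom K).mapMatrix M) *
      (∑ a, ∑ b, (X a b) ⊗ₖ ((Int.castRingHom K).mapMatrix (d1 a b))) =
      ∑ a, ∑ b, (X a b) ⊗ₖ ((Int.castRingHom K).mapMatrix (M * d1 a b)) := by
    rw [Finset.mul_sum]
    refine Finset.sum_congr rfl fun a _ => ?_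
    rw [Finset.mul_sum]
    refine Finset.sum_congr rfl fun b _ => ?_
    rw [← Matrix.mul_kronecker_mul, one_mul, ← map_mul]
  have T3 : (∑ a, ∑ b, (X a b) ⊗ₖ ((Int.castRingHom K).mapMatrix (d a b))) *
      ((1 : Matrix V V K) ⊗ₖ ((Int.castRingHom K).mapMatrix M1)) =
      ∑ a, ∑ b, (X a b) ⊗ₖ ((Int.castRingHom K).mapMatrix (d a b * M1)) := by
    rw [Finset.sum_mul]
    refine Finset.sum_congr rfl fun a _ => ?_
    rw [Finset.sum_mul]
    refine Finset.sum_congr rfl fun b _ => ?_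
    rw [← Matrix.mul_kronecker_mul, mul_one, ← map_mul]
  unfold ZZ
  rw [add_mul, mul_add, mul_add, T1, T2, T3, T4]
  have T5 : (∑ a, ∑ b, (X a b) ⊗ₖ ((Int.castRingHom K).mapMatrix (d a b * M1 + M * d1 a b +
      ∑ c, ((p:ℤ)^(wt kk a c + wt kk c b - wt kk a b)) • (d a c * d1 c b)))) =
      (∑ a, ∑ b, (X a b) ⊗ₖ ((Int.castRingHom K).mapMatrix (d a b * M1))) +
      (∑ a, ∑ b, (X a b) ⊗ₖ ((Int.castRingHom K).mapMatrix (M * d1 a b))) +
      ∑ a, ∑ b, (X a b) ⊗ₖ ((Int.castRingHom K).mapMatrix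
        (∑ c, ((p:ℤ)^(wt kk a c + wt kk c b - wt kk a b)) • (d a c * d1 c b))) := by
    rw [← Finset.sum_add_distrib, ← Finset.sum_add_distrib]
    refine Finset.sum_congr rfl fun a _ => ?_
    rw [← Finset.sum_add_distrib, ← Finset.sum_add_distrib]
    refine Finset.sum_congr rfl fun b _ => ?_
    rw [map_add, map_add, Matrix.kronecker_add, Matrix.kronecker_add]
  rw [T5]
  abel

theorem wt_self (kk : Fin (m+1) → ℕ) (a : Fin (m+1)) : wt kk a a = 1 := by
  unfold wt
  simp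

theorem wt_tri (kk : Fin (m+1) → ℕ) (a b c : Fin (m+1)) :
    wt kk a c ≤ wt kk a b + wt kk b c := by
  unfold wt
  by_cases h : kk a = kk c ∧ c ≤ a
  · rw [if_pos h]
    obtain ⟨h1, h2⟩ := h
    by_cases h3 : kk a = kk b
    · rcases le_total b a with h4 | h4
      · rw [if_pos ⟨h3, h4⟩]
        omega
      · have hx : kk b = kk c ∧ c ≤ b := ⟨by omega, h2.trans h4⟩
        rw [if_pos hx]
        omega
    · omega
  · rw [if_neg h]
    omega

/-- the integral model -/
noncomputable def YY (p : ℕ) (kk : Fin (m+1) → ℕ) (a b : Fin (m+1)) :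
    Matrix (Fin (m+1)) (Fin (m+1)) ℤ := Matrix.single a b ((p:ℤ)^(wt kk a b))

theorem YY1 (p : ℕ) (kk : Fin (m+1) → ℕ) (a b c d : Fin (m+1)) (h : b ≠ c) :
    YY p kk a b * YY p kk c d = 0 := by
  unfold YY
  exact Matrix.single_mul_single_of_ne _ _ _ _ h _

theorem YY2 (p : ℕ) (kk : Fin (m+1) → ℕ) (a b c : Fin (m+1)) :
    YY p kk a b * YY p kk b c =
      (((p:ℕ):ℤ)^(wt kk a b + wt kk b c - wt kk a c)) • YY p kk a c := by
  unfold YY
  rw [Matrix.single_mul_single_same, Matrix.smul_single, smul_eq_mul]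
  congr 1
  rw [← pow_add, ← pow_add]
  congr 1
  have := wt_tri kk a b c
  omega

theorem ZZY_apply (p : ℕ) (kk : Fin (m+1) → ℕ) (M : Matrix (Fin f) (Fin f) ℤ)
    (d : Fin (m+1) → Fin (m+1) → Matrix (Fin f) (Fin f) ℤ) (a b : Fin (m+1)) (s s' : Fin f) :
    ZZ (YY p kk) M d (a, s) (b, s') =
      (if a = b then M s s' else 0) + (p:ℤ)^(wt kk a b) * d a b s s' := by
  rw [ZZ_apply]
  congr 1
  · rw [Matrix.one_apply]
    split_ifs <;> simp
  · rw [Finset.sum_eq_single a]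
    · rw [Finset.sum_eq_single b]
      · unfold YY
        rw [Matrix.single_apply_same]
        simp
      · intro b' _ hb'
        unfold YY
        rw [Matrix.single_apply, if_neg (fun h => hb' h.2), zero_mul]
      · intro h
        exact absurd (Finset.mem_univ b) h
    · intro a' _ ha'
      apply Finset.sum_eq_zero
      intro b' _
      unfold YY
      rw [Matrix.single_apply, if_neg (fun h => ha' h.1), zero_mul]
    · intro h
      exact absurd (Finset.mem_univ a) h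

/-- the action equation -/
def Act {R : Type} [Ring R] (p : ℕ) (kk : Fin (m+1) → ℕ) (e : Fin (m+1) → Fin f → R) (r : R)
    (M : Matrix (Fin f) (Fin f) ℤ) (d : Fin (m+1) → Fin (m+1) → Matrix (Fin f) (Fin f) ℤ) : Prop :=
  ∀ b s, r * e b s = ∑ s', M s' s • e b s' +
          ∑ a, ∑ s', ((p:ℤ)^(wt kk a b) * d a b s' s) • e a s'

theorem Act_iff {R : Type} [Ring R] (p : ℕ) (kk : Fin (m+1) → ℕ) (e : Fin (m+1) → Fin f → R) (r : R)
    (M : Matrix (Fin f) (Fin f) ℤ) (d : Fin (m+1) → Fin (m+1) → Matrix (Fin f) (Fin f) ℤ) :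
    Act p kk e r M d ↔ ∀ j : Fin (m+1) × Fin f,
      r * e j.1 j.2 = ∑ i : Fin (m+1) × Fin f, (ZZ (YY p kk) M d i j) • e i.1 i.2 := by
  have h1 : ∀ b s, ∑ i : Fin (m+1) × Fin f, (ZZ (YY p kk) M d i (b, s)) • e i.1 i.2 =
      ∑ s', M s' s • e b s' + ∑ a, ∑ s', ((p:ℤ)^(wt kk a b) * d a b s' s) • e a s' := by
    intro b s
    rw [Fintype.sum_prod_type]
    have h2 : ∀ a, ∑ s', (ZZ (YY p kk) M d (a, s') (b, s)) • e a s' =
        (if a = b then ∑ s', M s' s • e a s' else 0) +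
          ∑ s', ((p:ℤ)^(wt kk a b) * d a b s' s) • e a s' := by
      intro a
      by_cases hab : a = b
      · rw [if_pos hab, ← Finset.sum_add_distrib]
        refine Finset.sum_congr rfl fun s' _ => ?_
        rw [ZZY_apply, if_pos hab, add_smul]
      · rw [if_neg hab, zero_add]
        refine Finset.sum_congr rfl fun s' _ => ?_
        rw [ZZY_apply, if_neg hab, zero_add]
    rw [Finset.sum_congr rfl (fun a _ => h2 a), Finset.sum_add_distrib, Finset.sum_ite_eq']
    simp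
  constructor
  · rintro h ⟨b, s⟩
    rw [h1 b s]
    exact h b s
  · intro h b s
    rw [← h1 b s]
    exact h (b, s)

theorem Act_mul {R : Type} [Ring R] (p : ℕ) (kk : Fin (m+1) → ℕ) (e : Fin (m+1) → Fin f → R)
    (r r1 : R) (M M1 : Matrix (Fin f) (Fin f) ℤ)
    (d d1 : Fin (m+1) → Fin (m+1) → Matrix (Fin f) (Fin f) ℤ) (h : Act p kk e r M d)
    (h1 : Act p kk e r1 M1 d1) :
    Act p kk e (r * r1) (M * M1) (fun a b => d a b * M1 + M * d1 a b +
      ∑ c, ((p:ℤ)^(wt kk a c + wt kk c b - wt kk a b)) • (d a c * d1 c b)) := by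
  rw [Act_iff] at h h1 ⊢
  intro j
  rw [← ZZ_mul p kk (YY p kk) (YY1 p kk) (YY2 p kk), mul_assoc, h1, Finset.mul_sum]
  have e1 : ∀ k : Fin (m+1) × Fin f, r * (ZZ (YY p kk) M1 d1 k j • e k.1 k.2) =
      ∑ i : Fin (m+1) × Fin f, (ZZ (YY p kk) M d i k * ZZ (YY p kk) M1 d1 k j) • e i.1 i.2 := by
    intro k
    rw [mul_smul_comm, h k, Finset.smul_sum]
    refine Finset.sum_congr rfl fun i _ => ?_
    rw [smul_smul, mul_comm]
  rw [Finset.sum_congr rfl (fun k _ => e1 k), Finset.sum_comm]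
  refine Finset.sum_congr rfl fun i _ => ?_
  rw [← Finset.sum_smul, Matrix.mul_apply]

theorem ZZ_add {K V : Type} [CommRing K] [Fintype V] [DecidableEq V]
    (X : Fin (m+1) → Fin (m+1) → Matrix V V K) (M M' : Matrix (Fin f) (Fin f) ℤ)
    (d d' : Fin (m+1) → Fin (m+1) → Matrix (Fin f) (Fin f) ℤ) :
    ZZ X (M + M') (fun a b => d a b + d' a b) = ZZ X M d + ZZ X M' d' := by
  ext ⟨v, s⟩ ⟨v', s'⟩
  rw [Matrix.add_apply, ZZ_apply, ZZ_apply, ZZ_apply]
  have e1 : ∀ a b, X a b v v' * (((d a b + d' a b) s s' : ℤ) : K) =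
      X a b v v' * (d a b s s' : K) + X a b v v' * (d' a b s s' : K) := by
    intro a b
    rw [Matrix.add_apply]
    push_cast
    ring
  simp only [e1, Finset.sum_add_distrib]
  rw [Matrix.add_apply]
  push_cast
  ring

theorem ZZ_sub {K V : Type} [CommRing K] [Fintype V] [DecidableEq V]
    (X : Fin (m+1) → Fin (m+1) → Matrix V V K) (M M' : Matrix (Fin f) (Fin f) ℤ)
    (d d' : Fin (m+1) → Fin (m+1) → Matrix (Fin f) (Fin f) ℤ) :
    ZZ X (M - M') (fun a b => d a b - d' a b) = ZZ X M d - ZZ X M' d' := by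
  rw [eq_sub_iff_add_eq, ← ZZ_add]
  congr 1
  · abel
  · funext a b
    abel

theorem Act_sum_form {R : Type} [Ring R] (p : ℕ) (kk : Fin (m+1) → ℕ)
    (e : Fin (m+1) → Fin f → R) (r r' : R)
    (M M' : Matrix (Fin f) (Fin f) ℤ)
    (d d' : Fin (m+1) → Fin (m+1) → Matrix (Fin f) (Fin f) ℤ) (h : Act p kk e r M d)
    (h' : Act p kk e r' M' d') :
    Act p kk e (r + r') (M + M') (fun a b => d a b + d' a b) := by
  rw [Act_iff] at h h' ⊢
  intro j
  rw [add_mul, h, h', ← Finset.sum_add_distrib]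
  refine Finset.sum_congr rfl fun i _ => ?_
  rw [ZZ_add, Matrix.add_apply, add_smul]

theorem Act_sub_form {R : Type} [Ring R] (p : ℕ) (kk : Fin (m+1) → ℕ)
    (e : Fin (m+1) → Fin f → R) (r r' : R)
    (M M' : Matrix (Fin f) (Fin f) ℤ)
    (d d' : Fin (m+1) → Fin (m+1) → Matrix (Fin f) (Fin f) ℤ) (h : Act p kk e r M d)
    (h' : Act p kk e r' M' d') :
    Act p kk e (r - r') (M - M') (fun a b => d a b - d' a b) := by
  rw [Act_iff] at h h' ⊢
  intro j
  rw [sub_mul, h, h', ← Finset.sum_sub_distrib]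
  refine Finset.sum_congr rfl fun i _ => ?_
  rw [ZZ_sub, Matrix.sub_apply, sub_smul]

theorem Act_one {R : Type} [Ring R] (p : ℕ) (kk : Fin (m+1) → ℕ)
    (e : Fin (m+1) → Fin f → R) : Act p kk e 1 1 (fun _ _ => 0) := by
  intro b s
  have e1 : ∀ s' : Fin f, (1 : Matrix (Fin f) (Fin f) ℤ) s' s • e b s' =
      if s' = s then e b s' else 0 := by
    intro s'
    rw [Matrix.one_apply]
    split_ifs <;> simp
  simp only [e1, Matrix.zero_apply, mul_zero, zero_smul, Finset.sum_const_zero, add_zero]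
  simp

/-- divisibility implies vanishing -/
theorem ZZ_eq_zero {K V : Type} [CommRing K] [Fintype V] [DecidableEq V] (p : ℕ)
    (kk : Fin (m+1) → ℕ) (hpos : ∀ a, 1 ≤ kk a)
    (X : Fin (m+1) → Fin (m+1) → Matrix V V K)
    (h3 : ∑ a, X a a = (p:K) • (1 : Matrix V V K))
    (h4 : ∀ a b, ((p:K)^(kk a - wt kk a b)) • X a b = 0) (hp : p.Prime)
    (M : Matrix (Fin f) (Fin f) ℤ) (d : Fin (m+1) → Fin (m+1) → Matrix (Fin f) (Fin f) ℤ)
    (hdiv : ∀ a b s s', (p:ℤ)^(kk a) ∣ (if a = b then M s s' else 0) +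
      (p:ℤ)^(wt kk a b) * d a b s s') : ZZ X M d = 0 := by
  have hp0 : (p:ℤ) ≠ 0 := by exact_mod_cast hp.ne_zero
  have hM : ∀ s s', (p:ℤ) ∣ M s s' := by
    intro s s'
    have h1 := hdiv 0 0 s s'
    rw [if_pos rfl, wt_self, pow_one] at h1
    have h2 : (p:ℤ) ∣ (p:ℤ)^(kk 0) := dvd_pow_self _ (by have := hpos 0; omega)
    have h5 := h2.trans h1
    exact (Int.dvd_add_left (Dvd.intro _ rfl)).mp h5
  choose N hN using hM
  -- N s s' with M s s' = p * N s s'
  have hkey : ∀ a b s s', (p:ℤ)^(kk a - wt kk a b) ∣ (if a = b then N s s' else 0) + d a b s s' := by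
    intro a b s s'
    have h1 : (p:ℤ)^(kk a) ∣ (p:ℤ)^(wt kk a b) * ((if a = b then N s s' else 0) + d a b s s') := by
      have h2 := hdiv a b s s'
      by_cases hab : a = b
      · subst hab
        rw [if_pos rfl] at h2 ⊢
        rw [wt_self, pow_one] at h2 ⊢
        rw [hN s s', ← mul_add] at h2
        exact h2
      · rw [if_neg hab] at h2 ⊢
        rw [zero_add] at h2 ⊢
        exact h2
    by_cases hle : wt kk a b ≤ kk a
    · have h2 : (p:ℤ)^(kk a) = (p:ℤ)^(wt kk a b) * (p:ℤ)^(kk a - wt kk a b) := by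
        rw [← pow_add]
        congr 1
        omega
      rw [h2] at h1
      exact (mul_dvd_mul_iff_left (pow_ne_zero _ hp0)).mp h1
    · have h2 : kk a - wt kk a b = 0 := by omega
      rw [h2, pow_zero]
      exact one_dvd _
  ext ⟨v, s⟩ ⟨v', s'⟩
  rw [ZZ_apply, Matrix.zero_apply]
  have h5 : (1 : Matrix V V K) v v' * (M s s' : K) = ∑ a, X a a v v' * (N s s' : K) := by
    have h6 := congrFun (congrFun h3 v) v'
    rw [Matrix.sum_apply, Matrix.smul_apply, smul_eq_mul] at h6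
    rw [← Finset.sum_mul, h6, hN s s']
    push_cast
    ring
  have h7 : ∑ a, X a a v v' * (N s s' : K) =
      ∑ a, ∑ b, X a b v v' * ((if a = b then N s s' else 0 : ℤ) : K) := by
    refine Finset.sum_congr rfl fun a _ => ?_
    rw [Finset.sum_eq_single a]
    · rw [if_pos rfl]
    · intro b _ hb
      rw [if_neg (Ne.symm hb), Int.cast_zero, mul_zero]
    · intro h
      exact absurd (Finset.mem_univ a) h
  rw [h5, h7, ← Finset.sum_add_distrib]
  apply Finset.sum_eq_zero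
  intro a _
  rw [← Finset.sum_add_distrib]
  apply Finset.sum_eq_zero
  intro b _
  obtain ⟨q, hq⟩ := hkey a b s s'
  have h8 := congrFun (congrFun (h4 a b) v) v'
  rw [Matrix.smul_apply, smul_eq_mul, Matrix.zero_apply] at h8
  rw [← mul_add, ← Int.cast_add, hq]
  push_cast
  rw [← mul_assoc, mul_comm (X a b v v'), h8, zero_mul]

theorem Act_zero_dvd {R : Type} [Ring R] (p : ℕ) (kk : Fin (m+1) → ℕ)
    (e : Fin (m+1) → Fin f → R)
    (hrel : ∀ n : Fin (m+1) → Fin f → ℤ,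
        ∑ a, ∑ s, n a s • e a s = 0 ↔ ∀ a s, (p:ℤ)^(kk a) ∣ n a s)
    (M : Matrix (Fin f) (Fin f) ℤ) (d : Fin (m+1) → Fin (m+1) → Matrix (Fin f) (Fin f) ℤ)
    (h : Act p kk e 0 M d) (a b : Fin (m+1)) (s s' : Fin f) :
    (p:ℤ)^(kk a) ∣ (if a = b then M s s' else 0) + (p:ℤ)^(wt kk a b) * d a b s s' := by
  rw [Act_iff] at h
  have h1 := h (b, s')
  rw [zero_mul, Fintype.sum_prod_type] at h1
  have h2 := (hrel (fun a s => ZZ (YY p kk) M d (a, s) (b, s'))).mp h1.symm a s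
  rw [ZZY_apply] at h2
  exact h2

end J

/-- Module J: assembly -/
theorem assemble (R : Type) [Ring R] [Finite R] [IsLocalRing R] (p : ℕ) (hp : p.Prime) (f m : ℕ)
    (kk : Fin (m+1) → ℕ) (e : Fin (m+1) → Fin f → R) (hanti : Antitone kk) (hpos : ∀ a, 1 ≤ kk a)
    (hspan : ∀ x : R, ∃ n : Fin (m+1) → Fin f → ℤ, x = ∑ a, ∑ s, n a s • e a s)
    (hrel : ∀ n : Fin (m+1) → Fin f → ℤ,
        ∑ a, ∑ s, n a s • e a s = 0 ↔ ∀ a s, (p:ℤ)^(kk a) ∣ n a s)
    (hact : ∀ r : R, ∃ (M : Matrix (Fin f) (Fin f) ℤ)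
          (d : Fin (m+1) → Fin (m+1) → Matrix (Fin f) (Fin f) ℤ),
        (¬ IsUnit r → M = 0) ∧
        ∀ b s, r * e b s = ∑ s', M s' s • e b s' +
          ∑ a, ∑ s', ((p:ℤ)^(wt kk a b) * d a b s' s) • e a s')
    (hrep : Rep p m kk) :
    ∃ (C : Type) (_ : CommRing C) (n : ℕ) (F : R →+* Matrix (Fin n) (Fin n) C),
        Function.Injective F := by
  obtain ⟨V, iV, dV, neV, K, iK, ntK, X, h1, h2, h3, h4, h5⟩ := hrep
  have hR1 : (1 : R) ≠ 0 := one_ne_zero
  -- f is positive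
  have hf : 0 < f := by
    rcases Nat.eq_zero_or_pos f with hf | hf
    · exfalso
      subst hf
      obtain ⟨n, hn⟩ := hspan 1
      apply hR1
      rw [hn]
      simp
    · exact hf
  have hact' : ∀ r : R, ∃ (M : Matrix (Fin f) (Fin f) ℤ)
          (d : Fin (m+1) → Fin (m+1) → Matrix (Fin f) (Fin f) ℤ),
        (¬ IsUnit r → M = 0) ∧ Act p kk e r M d := hact
  choose M d hM hd using hact'
  have hwell : ∀ (r : R) (M' : Matrix (Fin f) (Fin f) ℤ)
      (d' : Fin (m+1) → Fin (m+1) → Matrix (Fin f) (Fin f) ℤ), Act p kk e r M' d' →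
      ZZ X M' d' = ZZ X (M r) (d r) := by
    intro r M' d' h
    have hsub := Act_sub_form p kk e r r M' (M r) d' (d r) h (hd r)
    rw [sub_self] at hsub
    have hz := ZZ_eq_zero p kk hpos X h3 h4 hp _ _
      (Act_zero_dvd p kk e hrel _ _ hsub)
    rw [ZZ_sub] at hz
    exact sub_eq_zero.mp hz
  have hone : ZZ X (M 1) (d 1) = 1 := by
    rw [← hwell 1 1 (fun _ _ => 0) (Act_one p kk e)]
    ext ⟨v, s⟩ ⟨v', s'⟩
    rw [ZZ_apply]
    simp only [Matrix.zero_apply, Int.cast_zero, mul_zero, Finset.sum_const_zero, add_zero]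
    rw [Matrix.one_apply, Matrix.one_apply, Matrix.one_apply]
    by_cases hv : v = v'
    · by_cases hs : s = s'
      · simp [hv, hs]
      · simp [hv, hs]
    · simp [hv]
  let F : R →+* Matrix (V × Fin f) (V × Fin f) K :=
    { toFun := fun r => ZZ X (M r) (d r)
      map_one' := hone
      map_mul' := by
        intro r r'
        rw [ZZ_mul p kk X h1 h2]
        exact (hwell _ _ _ (Act_mul p kk e r r' _ _ _ _ (hd r) (hd r'))).symm
      map_zero' := by
        have h0 := Act_sub_form p kk e 1 1 (M 1) (M 1) (d 1) (d 1) (hd 1) (hd 1)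
        rw [sub_self] at h0
        rw [← hwell 0 _ _ h0, ZZ_sub, sub_self]
      map_add' := by
        intro r r'
        rw [← ZZ_add]
        exact (hwell _ _ _ (Act_sum_form p kk e r r' _ _ _ _ (hd r) (hd r'))).symm }
  have hF : ∀ r, F r = ZZ X (M r) (d r) := fun r => rfl
  have hinj : Function.Injective F := by
    rw [injective_iff_map_eq_zero]
    intro r hr
    have hnt : Nontrivial (Matrix (V × Fin f) (V × Fin f) K) := by
      have : Nonempty (V × Fin f) := ⟨(Classical.arbitrary V, ⟨0, hf⟩)⟩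
      infer_instance
    have hnu : ¬ IsUnit r := by
      intro hu
      have h6 := hu.map F
      rw [hr] at h6
      exact not_isUnit_zero h6
    have hM0 := hM r hnu
    have hdr := hd r
    rw [hF, hM0] at hr
    have hdvd : ∀ a b s s', (p:ℤ)^(kk a - wt kk a b) ∣ d r a b s s' := by
      intro a b s s'
      apply h5 (fun a b => d r a b s s')
      ext v v'
      have h6 := congrFun (congrFun hr (v, s)) (v', s')
      rw [ZZ_apply] at h6
      simp only [Matrix.zero_apply, Int.cast_zero, mul_zero, zero_add] at h6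
      rw [Matrix.sum_apply, Matrix.zero_apply, ← h6]
      refine Finset.sum_congr rfl fun a _ => ?_
      rw [Matrix.sum_apply]
      refine Finset.sum_congr rfl fun b _ => ?_
      rw [Matrix.smul_apply, smul_eq_mul, mul_comm]
    have hzero : ∀ b s, r * e b s = 0 := by
      intro b s
      rw [hdr b s, hM0]
      have h7 : ∑ a, ∑ s', ((p:ℤ)^(wt kk a b) * d r a b s' s) • e a s' = 0 := by
        rw [hrel (fun a s' => (p:ℤ)^(wt kk a b) * d r a b s' s)]
        intro a s'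
        have h8 : (p:ℤ)^(wt kk a b) * (p:ℤ)^(kk a - wt kk a b) ∣
            (p:ℤ)^(wt kk a b) * d r a b s' s := mul_dvd_mul_left _ (hdvd a b s' s)
        refine dvd_trans ?_ h8
        rw [← pow_add]
        exact pow_dvd_pow _ (by omega)
      rw [h7, add_zero]
      apply Finset.sum_eq_zero
      intro s' _
      rw [Matrix.zero_apply, zero_smul]
    obtain ⟨n, hn⟩ := hspan 1
    have h9 : r * 1 = 0 := by
      rw [hn, Finset.mul_sum]
      apply Finset.sum_eq_zero
      intro a _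
      rw [Finset.mul_sum]
      apply Finset.sum_eq_zero
      intro s _
      rw [mul_smul_comm, hzero, smul_zero]
    rwa [mul_one] at h9
  let eq : V × Fin f ≃ Fin (Fintype.card (V × Fin f)) := Fintype.equivFin _
  refine ⟨K, iK, Fintype.card (V × Fin f),
    ((Matrix.reindexAlgEquiv K K eq).toRingEquiv.toRingHom).comp F, ?_⟩
  intro x y hxy
  apply hinj
  exact (Matrix.reindexAlgEquiv K K eq).injective hxy

end Pool.Agent.RepFLR
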