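import Pool.Agent.Helper26.FLR.OrdC

set_option autoImplicit false

namespace Pool.Agent.RepFLR

open Classical

end Pool.Agent.RepFLR

namespace Pool.Agent.RepFLR

open Classical

theorem kh_rel (rm j : ℕ) (h1 : 1 ≤ j) (h2 : j ≤ rm) : kh rm j = -(j:ℤ) * kh rm (j+1) := by
  unfold kh
  rw [if_pos (by omega), if_pos (by omega)]
  have e1 : j + 1 - 1 = j := by omega
  rw [e1]
  obtain ⟨k, rfl⟩ : ∃ k, j = k + 1 := ⟨j - 1, by omega⟩
  have e2 : k + 1 - 1 = k := by omega
  rw [e2]
  have hd : (k+1).factorial ∣ rm.factorial := Nat.factorial_dvd_factorial h2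
  obtain ⟨c, hc⟩ := hd
  have f1 : rm.factorial / (k+1).factorial = c := by
    rw [hc]; exact Nat.mul_div_cancel_left _ (Nat.factorial_pos _)
  have f2 : rm.factorial / k.factorial = (k+1) * c := by
    rw [hc, Nat.factorial_succ]
    have : (k+1) * k.factorial * c = k.factorial * ((k+1) * c) := by ring
    rw [this]
    exact Nat.mul_div_cancel_left _ (Nat.factorial_pos _)
  rw [f1, f2]
  push_cast
  ring

theorem kap_sum_aux {α β : Type} (rm : ℕ) (N : ℤ) (H : Finset α) (Q : Finset (α × β))
    (hQH : ∀ x ∈ Q, x.1 ∈ H) (hne : Q.Nonempty) (hcard : Q.card ≤ rm)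
    (hN : N ∣ (H.card : ℤ)) (l : β) :
    N ∣ (∑ v ∈ H, kap rm (insert (v, l) Q)) - kap rm Q := by
  by_cases hM : IsM Q
  · by_cases hl : ∃ v0, (v0, l) ∈ Q
    · obtain ⟨v0, hv0⟩ := hl
      have hv0H : v0 ∈ H := hQH _ hv0
      have : ∑ v ∈ H, kap rm (insert (v, l) Q) = kap rm Q := by
        rw [Finset.sum_eq_single_of_mem v0 hv0H]
        · rw [Finset.insert_eq_of_mem hv0]
        · intro b _ hb
          unfold kap
          rw [if_neg]
          intro hM'
          have := hM' (b, l) (Finset.mem_insert_self _ _) (v0, l) (Finset.mem_insert_of_mem hv0)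
          exact hb (this.2 rfl)
      rw [this, sub_self]
      exact dvd_zero _
    · have hval : ∀ v ∈ H, kap rm (insert (v, l) Q) =
          if v ∈ H \ (Q.image Prod.fst) then kh rm (Q.card + 1) else 0 := by
        intro v hv
        by_cases hvQ : v ∈ Q.image Prod.fst
        · rw [if_neg (by simp only [Finset.mem_sdiff, not_and, not_not]; exact fun _ => hvQ)]
          unfold kap
          rw [if_neg]
          intro hM'
          obtain ⟨x, hx, hxv⟩ := Finset.mem_image.1 hvQ
          have := (hM' x (Finset.mem_insert_of_mem hx) (v, l) (Finset.mem_insert_self _ _)).1 hxv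
          apply hl
          refine ⟨v, ?_⟩
          have : x = (v, l) := Prod.ext hxv this
          rwa [← this]
        · rw [if_pos (Finset.mem_sdiff.2 ⟨hv, hvQ⟩)]
          have hnot : (v, l) ∉ Q := fun h => hl ⟨v, h⟩
          unfold kap
          rw [if_pos, Finset.card_insert_of_notMem hnot]
          intro x hx z hz
          rw [Finset.mem_insert] at hx hz
          rcases hx with rfl | hx <;> rcases hz with rfl | hz
          · simp
          · constructor
            · intro h
              exact absurd (Finset.mem_image.2 ⟨z, hz, h.symm⟩) hvQ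
            · intro h
              exfalso
              apply hl
              refine ⟨z.1, ?_⟩
              have : (z.1, l) = z := Prod.ext rfl h
              rwa [this]
          · constructor
            · intro h
              exact absurd (Finset.mem_image.2 ⟨x, hx, h⟩) hvQ
            · intro h
              exfalso
              apply hl
              refine ⟨x.1, ?_⟩
              have : (x.1, l) = x := Prod.ext rfl h.symm
              rwa [this]
          · exact hM x hx z hz
      rw [Finset.sum_congr rfl hval]
      have hsub : Q.image Prod.fst ⊆ H := by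
        intro v hv
        obtain ⟨x, hx, rfl⟩ := Finset.mem_image.1 hv
        exact hQH x hx
      have hcardim : (Q.image Prod.fst).card = Q.card := by
        apply Finset.card_image_of_injOn
        intro x hx z hz hxz
        exact Prod.ext hxz ((hM x hx z hz).1 hxz)
      have hs : ∑ v ∈ H, (if v ∈ H \ (Q.image Prod.fst) then kh rm (Q.card + 1) else 0)
          = ((H.card : ℤ) - Q.card) * kh rm (Q.card + 1) := by
        rw [Finset.sum_ite_mem, Finset.inter_eq_right.2 Finset.sdiff_subset, Finset.sum_const,
          nsmul_eq_mul]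
        congr 1
        rw [Finset.card_sdiff_of_subset hsub, Nat.cast_sub (Finset.card_le_card hsub), hcardim]
      rw [hs]
      have hk : kap rm Q = kh rm Q.card := by
        unfold kap; rw [if_pos hM]
      rw [hk, kh_rel rm Q.card (Finset.card_pos.2 hne) hcard]
      have : ((H.card : ℤ) - Q.card) * kh rm (Q.card + 1) - -(Q.card : ℤ) * kh rm (Q.card + 1)
          = (H.card : ℤ) * kh rm (Q.card + 1) := by ring
      rw [this]
      exact Dvd.dvd.mul_right hN _
  · have h0 : ∀ v ∈ H, kap rm (insert (v, l) Q) = 0 := by
      intro v _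
      unfold kap
      rw [if_neg]
      intro hM'
      exact hM fun x hx z hz => hM' x (Finset.mem_insert_of_mem hx) z (Finset.mem_insert_of_mem hz)
    have h1 : kap rm Q = 0 := by unfold kap; rw [if_neg hM]
    rw [Finset.sum_congr rfl h0, h1]
    simp

theorem kap_sum {α β : Type} [Fintype β] (rm : ℕ) (N : ℤ) (H : Finset α) (Q : Finset (α × β))
    (hQH : ∀ x ∈ Q, x.1 ∈ H) (hne : Q.Nonempty) (hcard : Q.card ≤ rm)
    (hN : N ∣ (H.card : ℤ)) (l : β) :
    N ∣ (∑ v ∈ H, kap rm (insert (v, l) Q)) - kap rm Q :=
  kap_sum_aux rm N H Q hQH hne hcard hN l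

theorem kap_swap {α β : Type} (rm : ℕ) (Q : Finset (α × β)) :
    kap rm (Q.map (Equiv.prodComm α β).toEmbedding) = kap rm Q := by
  have : IsM (Q.map (Equiv.prodComm α β).toEmbedding) ↔ IsM Q := by
    unfold IsM
    constructor
    · intro h x hx z hz
      have := h x.swap (by simpa using hx) z.swap (by simpa using hz)
      simpa using this.symm
    · intro h x hx z hz
      have hx' : x.swap ∈ Q := by
        obtain ⟨y, hy, rfl⟩ := Finset.mem_map.1 hx
        simpa using hy
      have hz' : z.swap ∈ Q := by
        obtain ⟨y, hy, rfl⟩ := Finset.mem_map.1 hz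
        simpa using hy
      have := h x.swap hx' z.swap hz'
      simpa using this.symm
  unfold kap
  rw [Finset.card_map]
  simp only [this]

theorem kap_sum' {α β : Type} [Fintype β] (rm : ℕ) (N : ℤ) (Q : Finset (α × β))
    (hne : Q.Nonempty) (hcard : Q.card ≤ rm)
    (hN : N ∣ (Fintype.card β : ℤ)) (v : α) :
    N ∣ (∑ l : β, kap rm (insert (v, l) Q)) - kap rm Q := by
  have := kap_sum_aux (α := β) (β := α) rm N Finset.univ (Q.map (Equiv.prodComm α β).toEmbedding)
    (fun x _ => Finset.mem_univ _) (by simpa using hne) (by simpa using hcard)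
    (by simpa using hN) v
  rw [kap_swap] at this
  have e : ∀ l : β, kap rm (insert (v, l) Q) =
      kap rm (insert (l, v) (Q.map (Equiv.prodComm α β).toEmbedding)) := by
    intro l
    rw [← kap_swap rm (insert (v, l) Q), Finset.map_insert]
    rfl
  rw [Finset.sum_congr rfl fun l _ => e l]
  exact this

end Pool.Agent.RepFLR
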