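import Pool.Agent.Helper26.FLR.KapD1

set_option autoImplicit false

namespace Pool.Agent.RepFLR

open Classical

end Pool.Agent.RepFLR

namespace Pool.Agent.RepFLR

open Classical

theorem kh_val (p rm j c : ℕ) (hp : p.Prime) (hc : p^c ∣ rm.factorial) (hj : 1 ≤ j) :
    ((p:ℤ)^c) ∣ (p:ℤ)^(j-2) * kh rm j := by
  haveI : Fact p.Prime := ⟨hp⟩
  unfold kh
  split_ifs with hjr
  · obtain ⟨r, rfl⟩ : ∃ r, j = r + 1 := ⟨j - 1, by omega⟩
    simp only [Nat.add_sub_cancel]
    have hr : r ≤ rm := by omega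
    have hdvd : r.factorial ∣ rm.factorial := Nat.factorial_dvd_factorial hr
    have hfac : rm.factorial = r.factorial * (rm.factorial / r.factorial) :=
      (Nat.mul_div_cancel' hdvd).symm
    have hnat : p ^ c ∣ p ^ (r + 1 - 2) * (rm.factorial / r.factorial) := by
      obtain ⟨v, m', hm', hv⟩ := Nat.exists_eq_pow_mul_and_not_dvd
        (Nat.factorial_ne_zero r) p hp.ne_one
      have hvle : v ≤ r + 1 - 2 := by
        rcases Nat.eq_zero_or_pos r with hr0 | hr0
        · subst hr0
          by_contra hcon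
          have hv1 : 1 ≤ v := by omega
          have h1 : p ∣ Nat.factorial 0 := by
            rw [hv]
            exact Dvd.dvd.mul_right (dvd_pow_self p (by omega)) _
          simp at h1
          exact hp.ne_one h1
        · have h1 : padicValNat p r.factorial < r := padicValNat_factorial_lt_of_ne_zero p (by omega)
          have h2 : v ≤ padicValNat p r.factorial := by
            rw [← padicValNat_dvd_iff_le (Nat.factorial_ne_zero r)]
            exact ⟨m', hv⟩
          omega
      rw [hfac, hv, mul_assoc] at hc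
      have hcop : Nat.Coprime (p ^ c) m' :=
        Nat.Coprime.pow_left c ((Nat.Prime.coprime_iff_not_dvd hp).mpr hm')
      have h3 : p ^ c ∣ m' * (p ^ v * (rm.factorial / (p ^ v * m'))) := by
        have h4 : p ^ v * (m' * (rm.factorial / (p ^ v * m'))) =
          m' * (p ^ v * (rm.factorial / (p ^ v * m'))) := by ring
        rw [← h4]
        exact hc
      have h5 : p ^ c ∣ p ^ v * (rm.factorial / (p ^ v * m')) := hcop.dvd_of_dvd_mul_left h3
      rw [hv]
      exact h5.trans (Nat.mul_dvd_mul_right (pow_dvd_pow p hvle) _)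
    have hint : ((p:ℤ)^c) ∣ (p:ℤ)^(r + 1 - 2) * ((rm.factorial / r.factorial : ℕ) : ℤ) := by
      exact_mod_cast hnat
    have h6 : (p:ℤ)^(r + 1 - 2) * ((-1) ^ r * ((rm.factorial / r.factorial : ℕ) : ℤ)) =
        (-1) ^ r * ((p:ℤ)^(r + 1 - 2) * ((rm.factorial / r.factorial : ℕ) : ℤ)) := by ring
    rw [h6]
    exact Dvd.dvd.mul_left hint _
  · simp

theorem exists_c (p k : ℕ) (hp : p.Prime) (hk : 1 ≤ k) :
    ∃ c : ℕ, p^c ∣ (p^k-1).factorial ∧ ¬ p^(c+1) ∣ (p^k-1).factorial ∧ k + c ≤ p^k - 1 := by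
  haveI : Fact p.Prime := ⟨hp⟩
  have hne := Nat.factorial_ne_zero (p ^ k - 1)
  have hpk : 1 ≤ p ^ k := Nat.one_le_pow _ _ hp.pos
  refine ⟨padicValNat p (p ^ k - 1).factorial, ?_, ?_, ?_⟩
  · exact pow_padicValNat_dvd
  · exact pow_succ_padicValNat_not_dvd hne
  · have h1 : padicValNat p (p ^ k).factorial < p ^ k :=
      padicValNat_factorial_lt_of_ne_zero p (by omega)
    have h2 : (p ^ k).factorial = p ^ k * (p ^ k - 1).factorial :=
      (Nat.mul_factorial_pred (by omega)).symm
    rw [h2, padicValNat.mul (by omega) hne, padicValNat.prime_pow] at h1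
    omega

end Pool.Agent.RepFLR
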