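import Mathlib

set_option autoImplicit false
set_option linter.unusedSectionVars false

namespace Pool.Agent.Helper26.FLT

section Basic

variable {R : Type*} [Ring R] [Finite R]

theorem unit_of_mul {x y : R} (h : x * y = 1) : IsUnit x ∧ IsUnit y := by
  have hinj : Function.Injective (fun z : R => y * z) := by
    intro a b hab
    have : x * (y * a) = x * (y * b) := congrArg (fun z => x * z) hab
    simpa [← mul_assoc, h] using this
  obtain ⟨z, hz⟩ := (Finite.injective_iff_surjective.mp hinj) 1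
  have hz' : y * z = 1 := hz
  have hxz : x = z := by
    calc x = x * (y * z) := by rw [hz', mul_one]
      _ = z := by rw [← mul_assoc, h, one_mul]
  subst hxz
  exact ⟨⟨⟨x, y, h, hz'⟩, rfl⟩, ⟨⟨y, x, hz', h⟩, rfl⟩⟩

theorem nonunit_mul_left {a : R} (r : R) (ha : ¬ IsUnit a) : ¬ IsUnit (r * a) := by
  intro h
  obtain ⟨u, hu⟩ := h
  apply ha
  have : (↑u⁻¹ * r) * a = 1 := by
    rw [mul_assoc, ← hu]; simp
  exact (unit_of_mul this).2

theorem nonunit_mul_right {a : R} (r : R) (ha : ¬ IsUnit a) : ¬ IsUnit (a * r) := by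
  intro h
  obtain ⟨u, hu⟩ := h
  apply ha
  have : a * (r * ↑u⁻¹) = 1 := by
    rw [← mul_assoc, ← hu]; simp
  exact (unit_of_mul this).1

variable [IsLocalRing R]

theorem nonunit_add {a b : R} (ha : ¬ IsUnit a) (hb : ¬ IsUnit b) : ¬ IsUnit (a + b) := by
  intro h
  obtain ⟨u, hu⟩ := h
  have h1 : ↑u⁻¹ * a + ↑u⁻¹ * b = 1 := by
    rw [← mul_add, ← hu]; simp
  rcases IsLocalRing.isUnit_or_isUnit_of_add_one h1 with h2 | h2
  · exact nonunit_mul_left _ ha h2
  · exact nonunit_mul_left _ hb h2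

theorem unit_one_sub {a : R} (ha : ¬ IsUnit a) : IsUnit (1 - a) := by
  rcases IsLocalRing.isUnit_or_isUnit_of_add_one (a := a) (b := 1 - a) (by abel) with h | h
  · exact absurd h ha
  · exact h

theorem nonunit_zero : ¬ IsUnit (0 : R) := by
  rw [isUnit_zero_iff]
  exact zero_ne_one

theorem nonunit_neg {a : R} (ha : ¬ IsUnit a) : ¬ IsUnit (-a) := by
  intro h; exact ha ((IsUnit.neg_iff a).mp h)

theorem nonunit_sub {a b : R} (ha : ¬ IsUnit a) (hb : ¬ IsUnit b) : ¬ IsUnit (a - b) := by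
  rw [sub_eq_add_neg]; exact nonunit_add ha (nonunit_neg hb)

/-- the ideal of nonunits, as a left ideal -/
def J (R : Type*) [Ring R] [Finite R] [IsLocalRing R] : Submodule R R where
  carrier := {a | ¬ IsUnit a}
  add_mem' := fun ha hb => nonunit_add ha hb
  zero_mem' := nonunit_zero
  smul_mem' := fun c _ ha => nonunit_mul_left c ha

theorem mem_J {a : R} : a ∈ J R ↔ ¬ IsUnit a := Iff.rfl

theorem J_mul_right {a : R} (r : R) (ha : a ∈ J R) : a * r ∈ J R := nonunit_mul_right r ha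

/-- characteristic of a finite local ring is a positive power of a prime -/
theorem exists_char : ∃ p k : ℕ, p.Prime ∧ 1 ≤ k ∧ CharP R (p ^ k) := by
  classical
  obtain ⟨c, hc⟩ := CharP.exists R
  have hc0 : c ≠ 0 := by
    intro h
    subst h
    have : CharZero R := CharP.charP_to_charZero R
    exact (not_finite_iff_infinite.mpr (CharZero.infinite R)) inferInstance
  have hc1 : c ≠ 1 := by
    intro h
    subst h
    have : ((1 : ℕ) : R) = 0 := (CharP.cast_eq_zero_iff R 1 1).mpr (dvd_refl 1)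
    rw [Nat.cast_one] at this
    exact one_ne_zero this
  set p := c.minFac with hp
  have hpp : p.Prime := Nat.minFac_prime hc1
  obtain ⟨k, m, hm, hkm⟩ : ∃ k m : ℕ, ¬ p ∣ m ∧ c = p ^ k * m := by
    exact Nat.exists_eq_pow_mul_and_not_dvd hc0 p hpp.ne_one
  have hk : 1 ≤ k := by
    by_contra hk
    have hk0 : k = 0 := by omega
    rw [hk0, pow_zero, one_mul] at hkm
    exact hm (hkm ▸ Nat.minFac_dvd c)
  have hcop : Nat.Coprime (p ^ k) m := Nat.Coprime.pow_left k ((Nat.Prime.coprime_iff_not_dvd hpp).mpr hm)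
  have hz : ((p ^ k : ℕ) : R) * ((m : ℕ) : R) = 0 := by
    rw [← Nat.cast_mul, ← hkm]
    exact (CharP.cast_eq_zero_iff R c c).mpr (dvd_refl c)
  have hbez : ∃ x y : ℤ, x * (p ^ k : ℕ) + y * (m : ℕ) = 1 := by
    have := Int.isCoprime_iff_gcd_eq_one.mpr (by simpa [Int.gcd] using hcop : Int.gcd ((p^k : ℕ) : ℤ) (m : ℤ) = 1)
    exact this
  obtain ⟨x, y, hxy⟩ := hbez
  have hR : ((x : R) * ((p ^ k : ℕ) : R)) + ((y : R) * ((m : ℕ) : R)) = 1 := by
    have := congrArg (fun z : ℤ => (z : R)) hxy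
    simpa using this
  have hpk : ((p ^ k : ℕ) : R) = 0 := by
    rcases IsLocalRing.isUnit_or_isUnit_of_add_one hR with h | h
    · -- p^k unit so m = 0
      have h2 : IsUnit ((p ^ k : ℕ) : R) := by
        by_contra h3
        exact nonunit_mul_left _ h3 h
      have hm0 : ((m : ℕ) : R) = 0 := by
        obtain ⟨u, hu⟩ := h2
        have : (↑u⁻¹ : R) * (((p ^ k : ℕ) : R) * ((m : ℕ) : R)) = 0 := by rw [hz, mul_zero]
        rw [← mul_assoc, ← hu] at this
        simpa using this
      have : c ∣ m := (CharP.cast_eq_zero_iff R c m).mp hm0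
      exact absurd ((Nat.minFac_dvd c).trans this) hm
    · have h2 : IsUnit ((m : ℕ) : R) := by
        by_contra h3
        exact nonunit_mul_left _ h3 h
      obtain ⟨u, hu⟩ := h2
      have : (((p ^ k : ℕ) : R) * ((m : ℕ) : R)) * (↑u⁻¹ : R) = 0 := by rw [hz, zero_mul]
      rw [mul_assoc, ← hu] at this
      simpa using this
  refine ⟨p, k, hpp, hk, ?_⟩
  have h1 : c ∣ p ^ k := (CharP.cast_eq_zero_iff R c (p ^ k)).mp hpk
  have h2 : p ^ k ∣ c := ⟨m, hkm⟩
  have h3 : c = p ^ k := Nat.dvd_antisymm h1 h2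
  rw [← h3]
  exact hc

end Basic

end Pool.Agent.Helper26.FLT
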