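import Mathlib
import Pool.Agent.Helper26.FLR.T1Flag

set_option autoImplicit false
set_option linter.unusedSectionVars false
set_option linter.style.haveILetI false
set_option linter.unusedVariables false

namespace Pool.Agent.Helper26.FLT

/-- cost function -/
def w {m : ℕ} (kk : Fin (m + 1) → ℕ) (a b : Fin (m + 1)) : ℕ :=
  (kk a - kk b) + if kk a = kk b ∧ b ≤ a then 1 else 0

section Main

variable {R : Type*} [Ring R] [Finite R] [IsLocalRing R]
variable {p k N f : ℕ} {Fs : ℕ → Submodule R R} {g : ℕ → ℕ} {e : ℕ → R} {om : Fin f → R}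

/-- the properties of the flag -/
structure Flag (p : ℕ) (N : ℕ) (Fs : ℕ → Submodule R R) (g : ℕ → ℕ) (e : ℕ → R) : Prop where
  bot : Fs 0 = ⊥
  kill : ∀ n < N, (p ^ (g n + 1)) • e n = 0
  notin : ∀ n < N, (p ^ (g n)) • e n ∉ Fs n
  Jin : ∀ n < N, ∀ j ∈ J R, j * ((p ^ (g n)) • e n) ∈ Fs n
  next : ∀ n < N, CC R p (g n + 1) ≤ Fs n
  succ : ∀ n < N, Fs (n + 1) = Fs n ⊔ Submodule.span R {(p ^ (g n)) • e n}
  mem : ∀ n < N, (p ^ (g n)) • e n ∈ CC R p (g n)
  top : CC R p 0 ≤ Fs N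

theorem exists_Flag {p k : ℕ} [hc : CharP R (p ^ k)] :
    ∃ (N : ℕ) (Fs : ℕ → Submodule R R) (g : ℕ → ℕ) (e : ℕ → R), Flag p N Fs g e := by
  obtain ⟨N, Fs, g, e, h0, h1, h2⟩ := exists_flag (R := R) (p := p) (k := k)
  exact ⟨N, Fs, g, e, h0, fun n hn => (h1 n hn).1, fun n hn => (h1 n hn).2.1,
    fun n hn => (h1 n hn).2.2.1, fun n hn => (h1 n hn).2.2.2.1, fun n hn => (h1 n hn).2.2.2.2.1,
    fun n hn => (h1 n hn).2.2.2.2.2, h2⟩

/-- properties of the lifts -/
structure Lifts (p : ℕ) (om : Fin f → R) : Prop where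
  span : ∀ r : R, ∃ n : Fin f → ℤ, r - ∑ s, n s • om s ∈ J R
  unit : ∀ n : Fin f → ℤ, (∃ s, ¬ ((p : ℤ) ∣ n s)) → IsUnit (∑ s, n s • om s)

theorem Flag.mono (hF : Flag p N Fs g e) {a b : ℕ} (hab : a ≤ b) (hb : b ≤ N) : Fs a ≤ Fs b := by
  induction b, hab using Nat.le_induction with
  | base => exact le_rfl
  | succ b hab ih =>
    refine (ih (by omega)).trans ?_
    rw [hF.succ b (by omega)]
    exact le_sup_left

theorem Flag.anti (hF : Flag p N Fs g e) {a b : ℕ} (hab : a ≤ b) (hb : b < N) : g b ≤ g a := by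
  by_contra hcon
  push Not at hcon
  have h1 := hF.next a (by omega)
  have h2 : CC R p (g b) ≤ CC R p (g a + 1) := CC_anti hcon
  exact hF.notin b hb (hF.mono hab hb.le (h1 (h2 (hF.mem b hb))))

theorem Flag.spanA (hF : Flag p N Fs g e) (hL : Lifts p om) :
    ∀ n ≤ N, ∀ x ∈ Fs n, ∃ c : ℕ → Fin f → ℤ,
      x = ∑ b ∈ Finset.range n, ∑ s, c b s • (om s * ((p ^ (g b)) • e b)) := by
  intro n
  induction n with
  | zero =>
    intro _ x hx
    rw [hF.bot] at hx
    exact ⟨0, by simpa using hx⟩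
  | succ n ih =>
    intro hn x hx
    rw [hF.succ n (by omega)] at hx
    obtain ⟨y, hy, z, hz, rfl⟩ := Submodule.mem_sup.mp hx
    obtain ⟨r, rfl⟩ := Submodule.mem_span_singleton.mp hz
    obtain ⟨c0, hc0⟩ := hL.span r
    have hj := hF.Jin n (by omega) _ hc0
    obtain ⟨c1, hc1⟩ := ih (by omega) _ (add_mem hy hj)
    refine ⟨fun b s => if b = n then c0 s else c1 b s, ?_⟩
    rw [Finset.sum_range_succ]
    have h1 : ∑ b ∈ Finset.range n, ∑ s, (if b = n then c0 s else c1 b s) • (om s * ((p ^ (g b)) • e b))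
        = ∑ b ∈ Finset.range n, ∑ s, (c1 b s) • (om s * ((p ^ (g b)) • e b)) := by
      refine Finset.sum_congr rfl fun b hb => Finset.sum_congr rfl fun s _ => ?_
      rw [if_neg (by have := Finset.mem_range.mp hb; omega)]
    rw [h1, ← hc1]
    simp only [if_true]
    have h2 : ∑ s, c0 s • (om s * ((p ^ (g n)) • e n)) = (∑ s, c0 s • om s) * ((p ^ (g n)) • e n) := by
      rw [Finset.sum_mul]
      refine Finset.sum_congr rfl fun s _ => ?_
      rw [zsmul_eq_mul, zsmul_eq_mul, mul_assoc]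
    rw [h2, smul_eq_mul, sub_mul]
    abel

theorem Flag.spanB (hF : Flag p N Fs g e) (hL : Lifts p om) :
    ∀ h : ℕ, ∀ x : R, (p ^ h) • x = 0 → ∃ c : ℕ → Fin f → ℤ,
      x = ∑ b ∈ Finset.range N, ∑ s, c b s • (om s * e b) := by
  classical
  intro h
  induction h with
  | zero =>
    intro x hx
    refine ⟨0, ?_⟩
    have : x = 0 := by simpa using hx
    simp [this]
  | succ h ih =>
    intro x hx
    have hy : (p ^ h) • x ∈ CC R p h := by
      refine ⟨⟨x, rfl⟩, ?_⟩
      rw [smul_smul, ← pow_succ']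
      exact hx
    -- the first index with g < h
    obtain ⟨n0, hn0, hle, hlt⟩ : ∃ n0 ≤ N, CC R p h ≤ Fs n0 ∧ ∀ b < n0, h ≤ g b := by
      by_cases hex : ∃ n < N, g n < h
      · refine ⟨Nat.find hex, (Nat.find_spec hex).1.le, ?_, ?_⟩
        · exact (CC_anti (Nat.find_spec hex).2).trans (hF.next _ (Nat.find_spec hex).1)
        · intro b hb
          have := Nat.find_min hex hb
          by_contra hcon
          exact this ⟨hb.trans (Nat.find_spec hex).1, by omega⟩
      · push Not at hex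
        exact ⟨N, le_rfl, (CC_anti (Nat.zero_le h)).trans hF.top, hex⟩
    obtain ⟨c, hc⟩ := hF.spanA hL n0 hn0 _ (hle hy)
    set z : R := ∑ b ∈ Finset.range n0, ∑ s, (c b s * (p : ℤ) ^ (g b - h)) • (om s * e b) with hz
    have h1 : (p ^ h) • (x - z) = 0 := by
      rw [smul_sub, hc, hz, Finset.smul_sum, sub_eq_zero]
      refine Finset.sum_congr rfl fun b hb => ?_
      rw [Finset.smul_sum]
      refine Finset.sum_congr rfl fun s _ => ?_
      have hgb : h ≤ g b := hlt b (Finset.mem_range.mp hb)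
      have h2 : ((p ^ (g b) : ℕ)) • e b = ((p : ℤ) ^ (g b)) • e b := by
        rw [← natCast_zsmul]; push_cast; rfl
      have h3 : ∀ y : R, ((p ^ h : ℕ)) • y = ((p : ℤ) ^ h) • y := by
        intro y; rw [← natCast_zsmul]; push_cast; rfl
      rw [h3, h2, mul_smul_comm, smul_smul, smul_smul]
      congr 1
      have : (p : ℤ) ^ (g b) = (p : ℤ) ^ h * (p : ℤ) ^ (g b - h) := by
        rw [← pow_add]; congr 1; omega
      rw [this]; ring
    obtain ⟨c2, hc2⟩ := ih _ h1
    refine ⟨fun b s => c2 b s + if b < n0 then c b s * (p : ℤ) ^ (g b - h) else 0, ?_⟩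
    have h4 : x = (x - z) + z := by abel
    rw [h4, hc2, hz]
    have h5 : ∑ b ∈ Finset.range N, ∑ s, (c2 b s + if b < n0 then c b s * (p : ℤ) ^ (g b - h) else 0) • (om s * e b)
        = ∑ b ∈ Finset.range N, ∑ s, (c2 b s) • (om s * e b)
          + ∑ b ∈ Finset.range N, ∑ s, (if b < n0 then c b s * (p : ℤ) ^ (g b - h) else 0) • (om s * e b) := by
      rw [← Finset.sum_add_distrib]
      refine Finset.sum_congr rfl fun b _ => ?_
      rw [← Finset.sum_add_distrib]
      refine Finset.sum_congr rfl fun s _ => ?_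
      rw [add_smul]
    rw [h5]
    congr 1
    rw [← Finset.sum_subset (Finset.range_subset_range.mpr hn0)]
    · refine Finset.sum_congr rfl fun b hb => Finset.sum_congr rfl fun s _ => ?_
      rw [if_pos (Finset.mem_range.mp hb)]
    · intro b _ hb
      refine Finset.sum_eq_zero fun s _ => ?_
      rw [if_neg (by simpa using hb), zero_smul]

theorem Flag.indep1 (hF : Flag p N Fs g e) (hL : Lifts p om) (n : ℕ → Fin f → ℤ)
    (h0 : ∑ b ∈ Finset.range N, ∑ s, n b s • (om s * ((p ^ (g b)) • e b)) = 0) :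
    ∀ b < N, ∀ s, (p : ℤ) ∣ n b s := by
  classical
  by_contra hcon
  push Not at hcon
  -- last a
  obtain ⟨a, ⟨haN, s0, hs0⟩, hmax⟩ : ∃ a, (a < N ∧ ∃ s, ¬ (p : ℤ) ∣ n a s) ∧
      ∀ b, a < b → b < N → ∀ s, (p : ℤ) ∣ n b s := by
    obtain ⟨b0, hb0, s0, hs0⟩ := hcon
    let S := (Finset.range N).filter (fun b => ∃ s, ¬ (p : ℤ) ∣ n b s)
    have hne : S.Nonempty := ⟨b0, by simp only [S, Finset.mem_filter, Finset.mem_range]; exact ⟨hb0, s0, hs0⟩⟩
    refine ⟨S.max' hne, ?_, ?_⟩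
    · have := S.max'_mem hne
      simp only [S, Finset.mem_filter, Finset.mem_range] at this
      exact this
    · intro b hb hbN s
      by_contra hns
      have : b ∈ S := by simp only [S, Finset.mem_filter, Finset.mem_range]; exact ⟨hbN, s, hns⟩
      have := S.le_max' b this
      omega
  have hu := hL.unit (n a) ⟨s0, hs0⟩
  have hzero : ∀ b, a < b → b < N → ∑ s, n b s • (om s * ((p ^ (g b)) • e b)) = 0 := by
    intro b hb hbN
    refine Finset.sum_eq_zero fun s _ => ?_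
    obtain ⟨q, hq⟩ := hmax b hb hbN s
    have hk := hF.kill b hbN
    have h2 : (p : ℤ) • ((p ^ (g b)) • e b) = 0 := by
      rw [natCast_zsmul, smul_smul, ← pow_succ']
      exact hk
    rw [hq, mul_comm, mul_smul, ← mul_smul_comm, h2, mul_zero, smul_zero]
  have hsplit : ∑ b ∈ Finset.range N, ∑ s, n b s • (om s * ((p ^ (g b)) • e b))
      = ∑ b ∈ Finset.range a, ∑ s, n b s • (om s * ((p ^ (g b)) • e b))
        + ∑ s, n a s • (om s * ((p ^ (g a)) • e a)) := by
    rw [← Finset.sum_range_succ]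
    symm
    refine Finset.sum_subset (Finset.range_subset_range.mpr (by omega)) ?_
    intro b hb hb2
    exact hzero b (by simpa using hb2) (Finset.mem_range.mp hb)
  rw [hsplit] at h0
  have hmemlt : ∑ b ∈ Finset.range a, ∑ s, n b s • (om s * ((p ^ (g b)) • e b)) ∈ Fs a := by
    refine Submodule.sum_mem _ fun b hb => Submodule.sum_mem _ fun s _ => ?_
    have hb' := Finset.mem_range.mp hb
    have h1 : (p ^ (g b)) • e b ∈ Fs a := by
      refine hF.mono (a := b + 1) (by omega) haN.le ?_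
      rw [hF.succ b (by omega)]
      exact Submodule.mem_sup_right (Submodule.mem_span_singleton_self _)
    have h2 : n b s • (om s * ((p ^ (g b)) • e b)) = ((n b s : R) * om s) • ((p ^ (g b)) • e b) := by
      rw [smul_eq_mul, zsmul_eq_mul, mul_assoc]
    rw [h2]
    exact (Fs a).smul_mem _ h1
  have h3 : (∑ s, n a s • om s) * ((p ^ (g a)) • e a) ∈ Fs a := by
    have h4 : (∑ s, n a s • om s) * ((p ^ (g a)) • e a) = ∑ s, n a s • (om s * ((p ^ (g a)) • e a)) := by
      rw [Finset.sum_mul]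
      refine Finset.sum_congr rfl fun s _ => ?_
      rw [zsmul_eq_mul, zsmul_eq_mul, mul_assoc]
    rw [h4]
    have h5 := eq_neg_of_add_eq_zero_right h0
    rw [h5]
    exact (Fs a).neg_mem hmemlt
  obtain ⟨u, hu⟩ := hu
  apply hF.notin a haN
  have h6 : (↑u⁻¹ : R) * ((∑ s, n a s • om s) * ((p ^ (g a)) • e a)) ∈ Fs a := (Fs a).smul_mem _ h3
  rw [← mul_assoc, ← hu, Units.inv_mul, one_mul] at h6
  exact h6

theorem Flag.indep2 (hF : Flag p N Fs g e) (hL : Lifts p om) (hp : p.Prime) : ∀ t : ℕ, ∀ c : ℕ → Fin f → ℤ,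
    (∑ b ∈ Finset.range N, ∑ s, c b s • (om s * e b) = 0) →
    (∀ b < N, ∀ s, (p : ℤ) ^ (g b + 1) ∣ (p : ℤ) ^ t * c b s) →
    ∀ b < N, ∀ s, (p : ℤ) ^ (g b + 1) ∣ c b s := by
  intro t
  have hp0 : (p : ℤ) ≠ 0 := by exact_mod_cast hp.ne_zero
  induction t with
  | zero =>
    intro c _ h b hb s
    simpa using h b hb s
  | succ t ih =>
    intro c h0 h
    refine ih c h0 ?_
    have hdiv : ∀ b < N, ∀ s, (p : ℤ) ^ (g b) ∣ (p : ℤ) ^ t * c b s := by
      intro b hb s
      have := h b hb s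
      have h2 : (p : ℤ) * (p : ℤ) ^ (g b) ∣ (p : ℤ) * ((p : ℤ) ^ t * c b s) := by
        rw [← pow_succ', ← mul_assoc, ← pow_succ']
        exact this
      exact (mul_dvd_mul_iff_left hp0).mp h2
    have hex : ∀ b s, ∃ q : ℤ, b < N → (p : ℤ) ^ t * c b s = (p : ℤ) ^ (g b) * q := by
      intro b s
      by_cases hb : b < N
      · obtain ⟨q, hq⟩ := hdiv b hb s
        exact ⟨q, fun _ => hq⟩
      · exact ⟨0, fun h => absurd h hb⟩
    choose q hq using hex
    have hsum : ∑ b ∈ Finset.range N, ∑ s, q b s • (om s * ((p ^ (g b)) • e b)) = 0 := by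
      have h1 : ((p : ℤ) ^ t) • (∑ b ∈ Finset.range N, ∑ s, c b s • (om s * e b)) = 0 := by
        rw [h0, smul_zero]
      rw [Finset.smul_sum] at h1
      rw [← h1]
      refine Finset.sum_congr rfl fun b hb => ?_
      rw [Finset.smul_sum]
      refine Finset.sum_congr rfl fun s _ => ?_
      have h2 : ((p ^ (g b) : ℕ)) • e b = ((p : ℤ) ^ (g b)) • e b := by
        rw [← natCast_zsmul]; push_cast; rfl
      rw [h2, mul_smul_comm, smul_smul, smul_smul, hq b s (Finset.mem_range.mp hb), mul_comm]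
    intro b hb s
    obtain ⟨z, hz⟩ := hF.indep1 hL q hsum b hb s
    refine ⟨z, ?_⟩
    rw [hq b s hb, hz, pow_succ]
    ring

theorem Flag.indep (hF : Flag p N Fs g e) (hL : Lifts p om) (hp : p.Prime) (c : ℕ → Fin f → ℤ)
    (h0 : ∑ b ∈ Finset.range N, ∑ s, c b s • (om s * e b) = 0) :
    ∀ b < N, ∀ s, (p : ℤ) ^ (g b + 1) ∣ c b s := by
  refine hF.indep2 hL hp (g 0 + 1) c h0 ?_
  intro b hb s
  refine Dvd.dvd.mul_right ?_ _
  exact pow_dvd_pow _ (by have := hF.anti (Nat.zero_le b) hb; omega)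

/-- the action of a nonunit -/
theorem Flag.act (hF : Flag p N Fs g e) (hL : Lifts p om) (hp : p.Prime) [hc : CharP R (p ^ k)]
    (y : R) (hy : y ∈ J R) (b : ℕ) (hb : b < N) :
    ∃ φ : ℕ → Fin f → ℤ, y * e b = ∑ a ∈ Finset.range N, ∑ s, φ a s • (om s * e a) ∧
      ∀ a < N, ∀ s, (p : ℤ) ^ ((g a - g b) + if g a = g b ∧ b ≤ a then 1 else 0) ∣ φ a s := by
  classical
  have hp0 : (p : ℤ) ≠ 0 := by exact_mod_cast hp.ne_zero
  have hpk : (p ^ k) • (y * e b) = 0 := by
    rw [nsmul_eq_mul]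
    have := (CharP.cast_eq_zero_iff R (p ^ k) (p ^ k)).mpr (dvd_refl _)
    rw [this, zero_mul]
  obtain ⟨φ, hφ⟩ := hF.spanB hL k _ hpk
  refine ⟨φ, hφ, ?_⟩
  intro a ha s
  by_cases htie : g a = g b ∧ b ≤ a
  · rw [if_pos htie]
    obtain ⟨hg, hba⟩ := htie
    have h1 : y * ((p ^ (g b)) • e b) ∈ Fs b := hF.Jin b hb y hy
    obtain ⟨n, hn⟩ := hF.spanA hL b hb.le _ h1
    have h2 : ∀ z : R, ∀ t : ℕ, ((p ^ t : ℕ)) • z = ((p : ℤ) ^ t) • z := by
      intro z t; rw [← natCast_zsmul]; push_cast; rfl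
    have h3 : ∑ c ∈ Finset.range N, ∑ s, ((p : ℤ) ^ (g b) * φ c s - if c < b then n c s * (p : ℤ) ^ (g c) else 0)
        • (om s * e c) = 0 := by
      have h4 : ((p : ℤ) ^ (g b)) • (y * e b) = ∑ c ∈ Finset.range b, ∑ s, n c s • (om s * ((p ^ (g c)) • e c)) := by
        rw [← hn, h2, mul_smul_comm]
      have h5 : ∑ c ∈ Finset.range b, ∑ s, n c s • (om s * ((p ^ (g c)) • e c))
          = ∑ c ∈ Finset.range N, ∑ s, (if c < b then n c s * (p : ℤ) ^ (g c) else 0) • (om s * e c) := by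
        rw [← Finset.sum_subset (Finset.range_subset_range.mpr hb.le)]
        · refine Finset.sum_congr rfl fun c hc => Finset.sum_congr rfl fun s _ => ?_
          rw [if_pos (Finset.mem_range.mp hc), h2, mul_smul_comm, smul_smul]
        · intro c _ hc
          refine Finset.sum_eq_zero fun s _ => ?_
          rw [if_neg (by simpa using hc), zero_smul]
      rw [h5, hφ, Finset.smul_sum] at h4
      rw [← sub_eq_zero] at h4
      rw [← h4, ← Finset.sum_sub_distrib]
      refine Finset.sum_congr rfl fun c _ => ?_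
      rw [Finset.smul_sum, ← Finset.sum_sub_distrib]
      refine Finset.sum_congr rfl fun s _ => ?_
      rw [sub_smul, smul_smul]
    have h6 := hF.indep hL hp _ h3 a ha s
    rw [if_neg (by omega), sub_zero, hg, pow_succ] at h6
    have h7 := (mul_dvd_mul_iff_left (pow_ne_zero _ hp0)).mp h6
    rw [hg, Nat.sub_self, zero_add, pow_one]
    exact h7
  · rw [if_neg htie, add_zero]
    by_cases hlt : g a ≤ g b
    · rw [Nat.sub_eq_zero_of_le hlt, pow_zero]
      exact one_dvd _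
    · push Not at hlt
      have h1 : ∑ c ∈ Finset.range N, ∑ s, ((p : ℤ) ^ (g b + 1) * φ c s) • (om s * e c) = 0 := by
        have h2 : ((p : ℤ) ^ (g b + 1)) • (y * e b) = 0 := by
          have h3 := hF.kill b hb
          have h4 : ((p ^ (g b + 1) : ℕ)) • e b = ((p : ℤ) ^ (g b + 1)) • e b := by
            rw [← natCast_zsmul]; push_cast; rfl
          rw [← mul_smul_comm, ← h4, h3, mul_zero]
        rw [hφ, Finset.smul_sum] at h2
        rw [← h2]
        refine Finset.sum_congr rfl fun c _ => ?_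
        rw [Finset.smul_sum]
        refine Finset.sum_congr rfl fun s _ => ?_
        rw [smul_smul]
      have h2 := hF.indep hL hp _ h1 a ha s
      have h3 : (p : ℤ) ^ (g a + 1) = (p : ℤ) ^ (g b + 1) * (p : ℤ) ^ (g a - g b) := by
        rw [← pow_add]; congr 1; omega
      rw [h3] at h2
      exact (mul_dvd_mul_iff_left (pow_ne_zero _ hp0)).mp h2

end Main

/-- THEOREM I: structure of finite local rings. -/
theorem theoremI (R : Type*) [Ring R] [Finite R] [IsLocalRing R] :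
    ∃ (p k f m : ℕ) (kk : Fin (m + 1) → ℕ) (e : Fin (m + 1) → Fin f → R), p.Prime ∧ 1 ≤ k ∧ 1 ≤ f ∧
      Antitone kk ∧ (∀ a, 1 ≤ kk a) ∧ kk 0 = k ∧ CharP R (p ^ k) ∧
      (∀ r : R, ∃ n : Fin (m + 1) → Fin f → ℤ, r = ∑ a, ∑ s, n a s • e a s) ∧
      (∀ n : Fin (m + 1) → Fin f → ℤ, ∑ a, ∑ s, n a s • e a s = 0 ↔ ∀ a s, (p : ℤ) ^ (kk a) ∣ n a s) ∧
      (∀ r : R, ∃ (M : Matrix (Fin f) (Fin f) ℤ) (d : Fin (m + 1) → Fin (m + 1) → Matrix (Fin f) (Fin f) ℤ),
        (∀ b s, r * e b s = ∑ s', M s' s • e b s' + ∑ a, ∑ s', ((p : ℤ) ^ (w kk a b) * d a b s' s) • e a s') ∧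
        (¬ IsUnit r → M = 0)) := by
  classical
  obtain ⟨p, k, hp, hk, hc⟩ := exists_char (R := R)
  obtain ⟨f, om, hf, hom1, hom2⟩ := exists_lift (R := R) (k := k) hp hk
  have hL : Lifts (R := R) p om := ⟨hom1, hom2⟩
  obtain ⟨N, Fs, g, e, hF⟩ := exists_Flag (R := R) (p := p) (k := k)
  have hpk0 : (p ^ k) • (1 : R) = 0 := by
    rw [nsmul_eq_mul, mul_one]
    exact (CharP.cast_eq_zero_iff R (p ^ k) (p ^ k)).mpr (dvd_refl _)
  have hpk1 : (p ^ (k - 1)) • (1 : R) ≠ 0 := by
    intro h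
    rw [nsmul_eq_mul, mul_one] at h
    have h2 := (CharP.cast_eq_zero_iff R (p ^ k) (p ^ (k - 1))).mp h
    have h3 := (Nat.pow_dvd_pow_iff_le_right hp.one_lt).mp h2
    omega
  have hmem : (p ^ (k - 1)) • (1 : R) ∈ CC R p (k - 1) := by
    refine ⟨⟨1, rfl⟩, ?_⟩
    rw [smul_smul, ← pow_succ', Nat.sub_add_cancel hk]
    exact hpk0
  have hN : 0 < N := by
    by_contra hcon
    have hN0 : N = 0 := by omega
    have h1 := hF.top
    rw [hN0, hF.bot] at h1
    have h2 := h1 (CC_anti (Nat.zero_le _) hmem)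
    exact hpk1 ((Submodule.mem_bot R).mp h2)
  have hg0 : g 0 = k - 1 := by
    apply le_antisymm
    · -- g 0 <= k-1
      by_contra hcon
      have h1 := hF.mem 0 hN
      have h2 : CC R p (g 0) ≤ CC R p k := CC_anti (by omega)
      have h3 := h2 h1
      rw [CC_bot] at h3
      apply hF.notin 0 hN
      rw [(Submodule.mem_bot R).mp h3]
      exact Submodule.zero_mem _
    · by_contra hcon
      have h1 := hF.next 0 hN
      rw [hF.bot] at h1
      have h2 := h1 (CC_anti (by omega) hmem)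
      exact hpk1 ((Submodule.mem_bot R).mp h2)
  obtain ⟨m, rfl⟩ : ∃ m, N = m + 1 := ⟨N - 1, by omega⟩
  have hkill : ∀ b < m + 1, ((p : ℤ) ^ (g b + 1)) • e b = 0 := by
    intro b hb
    have h4 : ((p ^ (g b + 1) : ℕ)) • e b = ((p : ℤ) ^ (g b + 1)) • e b := by
      rw [← natCast_zsmul]; push_cast; rfl
    rw [← h4]
    exact hF.kill b hb
  refine ⟨p, k, f, m, fun a => g a + 1, fun a s => om s * e a, hp, hk, hf, ?_, fun a => Nat.le_add_left 1 _, ?_, hc,
    ?_, ?_, ?_⟩
  · intro a b hab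
    have := hF.anti (a := (a : ℕ)) (b := (b : ℕ)) hab b.isLt
    simpa using this
  · show g ((0 : Fin (m + 1)) : ℕ) + 1 = k
    rw [Fin.val_zero, hg0]
    omega
  · intro r
    have hr : (p ^ k) • r = 0 := by
      rw [nsmul_eq_mul]
      rw [(CharP.cast_eq_zero_iff R (p ^ k) (p ^ k)).mpr (dvd_refl _), zero_mul]
    obtain ⟨c, hcc⟩ := hF.spanB hL k r hr
    refine ⟨fun a s => c a s, ?_⟩
    rw [hcc, Finset.sum_range]
  · intro n
    constructor
    · intro h0 a s
      let c : ℕ → Fin f → ℤ := fun b s => if hb : b < m + 1 then n ⟨b, hb⟩ s else 0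
      have hcn : ∀ (b : Fin (m + 1)) (s : Fin f), c b s = n b s := fun b s => by
        simp only [c]
        rw [dif_pos b.isLt]
      have h1 : ∑ b ∈ Finset.range (m + 1), ∑ s, c b s • (om s * e b) = 0 := by
        rw [Finset.sum_range, ← h0]
        refine Finset.sum_congr rfl fun b _ => Finset.sum_congr rfl fun s _ => ?_
        rw [hcn]
      have h2 := hF.indep hL hp c h1 a a.isLt s
      rw [hcn] at h2
      exact h2
    · intro h
      refine Finset.sum_eq_zero fun a _ => Finset.sum_eq_zero fun s _ => ?_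
      obtain ⟨q, hq⟩ := h a s
      rw [hq, mul_comm, mul_smul, ← mul_smul_comm, hkill a a.isLt, mul_zero, smul_zero]
  · intro r
    -- decomposition of r * om s
    obtain ⟨M, hM, hM0⟩ : ∃ M : Matrix (Fin f) (Fin f) ℤ, (∀ s, r * om s - ∑ s', M s' s • om s' ∈ J R) ∧
        (¬ IsUnit r → M = 0) := by
      by_cases hr : IsUnit r
      · choose n hn using hL.span
        exact ⟨fun s' s => n (r * om s) s', fun s => hn (r * om s), fun h => absurd hr h⟩
      · refine ⟨0, fun s => ?_, fun _ => rfl⟩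
        simp only [Matrix.zero_apply, zero_smul, Finset.sum_const_zero, sub_zero]
        exact J_mul_right (om s) hr
    have hact : ∀ (b : Fin (m + 1)) (s : Fin f), ∃ d : Fin (m + 1) → Fin f → ℤ,
        (r * om s - ∑ s', M s' s • om s') * e b =
          ∑ a : Fin (m + 1), ∑ s', ((p : ℤ) ^ (w (fun a : Fin (m + 1) => g a + 1) a b) * d a s') • (om s' * e a) := by
      intro b s
      obtain ⟨φ, hφ, hdiv⟩ := hF.act (k := k) hL hp _ (hM s) b b.isLt
      have hq : ∀ (a : Fin (m + 1)) (s' : Fin f), ∃ q : ℤ,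
          φ a s' = (p : ℤ) ^ (w (fun a : Fin (m + 1) => g a + 1) a b) * q := by
        intro a s'
        have h1 := hdiv a a.isLt s'
        have h2 : w (fun a : Fin (m + 1) => g a + 1) a b
            = (g a - g b) + if g a = g b ∧ (b : ℕ) ≤ a then 1 else 0 := by
          simp only [w, Nat.add_right_cancel_iff, Fin.le_def, Nat.add_sub_add_right]
        rw [h2]
        exact h1
      choose q hq using hq
      refine ⟨q, ?_⟩
      rw [hφ, Finset.sum_range]
      refine Finset.sum_congr rfl fun a _ => Finset.sum_congr rfl fun s' _ => ?_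
      rw [hq]
    choose d hd using hact
    refine ⟨M, fun a b => Matrix.of (fun s' s => d b s a s'), ?_, hM0⟩
    intro b s
    have h1 := hd b s
    rw [sub_mul, sub_eq_iff_eq_add'] at h1
    have h2 : (∑ s', M s' s • om s') * e b = ∑ s', M s' s • (om s' * e b) := by
      rw [Finset.sum_mul]
      refine Finset.sum_congr rfl fun s' _ => ?_
      rw [zsmul_eq_mul, zsmul_eq_mul, mul_assoc]
    rw [← mul_assoc, h1, h2]
    rfl

end Pool.Agent.Helper26.FLT
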