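import Pool.Agent.Helper26.FLR.Defs
import Pool.Agent.Helper26.FLR.T1ThmI

set_option autoImplicit false

namespace Pool.Agent.RepFLR

/-- structure of finite local rings -/
theorem thmI (R : Type) [Ring R] [Finite R] [IsLocalRing R] :
    ∃ (p : ℕ) (_ : p.Prime) (f m : ℕ) (kk : Fin (m+1) → ℕ) (e : Fin (m+1) → Fin f → R),
      Antitone kk ∧ (∀ a, 1 ≤ kk a) ∧
      (∀ x : R, ∃ n : Fin (m+1) → Fin f → ℤ, x = ∑ a, ∑ s, n a s • e a s) ∧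
      (∀ n : Fin (m+1) → Fin f → ℤ,
        ∑ a, ∑ s, n a s • e a s = 0 ↔ ∀ a s, (p:ℤ)^(kk a) ∣ n a s) ∧
      (∀ r : R, ∃ (M : Matrix (Fin f) (Fin f) ℤ)
          (d : Fin (m+1) → Fin (m+1) → Matrix (Fin f) (Fin f) ℤ),
        (¬ IsUnit r → M = 0) ∧
        ∀ b s, r * e b s = ∑ s', M s' s • e b s' +
          ∑ a, ∑ s', ((p:ℤ)^(wt kk a b) * d a b s' s) • e a s') := by
  obtain ⟨p, k, f, m, kk, e, hp, hk, hf, h1, h2, h3, h4, h5, h6, h7⟩ :=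
    Pool.Agent.Helper26.FLT.theoremI R
  refine ⟨p, hp, f, m, kk, e, h1, h2, h5, h6, ?_⟩
  intro r
  obtain ⟨M, d, ha, hb⟩ := h7 r
  exact ⟨M, d, hb, ha⟩

end Pool.Agent.RepFLR
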