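import Pool.Agent.Helper26.FLR.Z2
import Pool.Agent.Helper26.FLR.ThmI

set_option autoImplicit false

namespace Pool.Agent.RepFLR

theorem main (R : Type) [Ring R] [Finite R] [IsLocalRing R] :
    ∃ (C : Type) (_ : CommRing C) (n : ℕ) (f : R →+* Matrix (Fin n) (Fin n) C),
        Function.Injective f := by
  obtain ⟨p, hp, f, m, kk, e, h1, h2, h3, h4, h5⟩ := thmI R
  exact assemble R p hp f m kk e h1 h2 h3 h4 h5 (thmII p m hp kk h1 h2)

end Pool.Agent.RepFLR
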