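import Pool.Agent.Helper26.FLR.Defs

set_option autoImplicit false

namespace Pool.Agent.RepFLR

open Classical

end Pool.Agent.RepFLR

namespace Pool.Agent.RepFLR

open Classical

section A
variable {q : ℕ} [NeZero q]

theorem nu_empty (x : Fin q → Ltr q) : nu ∅ x = 1 := by
  rw [nu, if_pos rfl]

theorem nu_ne_eq (S : Finset (Fin q)) (hS : S ≠ ∅) (x : Fin q → Ltr q) :
    nu S x = ∑ T ∈ S.ssubsets,
      (-1)^(S.card - T.card - 1) * nu T x *
        (if ∀ i ∈ S \ T, x i = ltr q S.card (rk S i) then 1 else 0) := by
  rw [nu, if_neg hS]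
  exact Finset.sum_coe_sort S.ssubsets (fun T =>
      (-1)^(S.card - T.card - 1) * nu T x *
        (if ∀ i ∈ S \ T, x i = ltr q S.card (rk S i) then 1 else 0))

theorem nu_congr_aux (n : ℕ) : ∀ (S : Finset (Fin q)), S.card = n → ∀ (x x' : Fin q → Ltr q),
    (∀ i ∈ S, x i = x' i) → nu S x = nu S x' := by
  induction n using Nat.strong_induction_on with
  | _ n ih =>
    intro S hSn x x' h
    by_cases hS : S = ∅
    · subst hS
      rw [nu_empty, nu_empty]
    · rw [nu_ne_eq S hS x, nu_ne_eq S hS x']
      refine Finset.sum_congr rfl ?_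
      intro T hT
      have hTS : T ⊂ S := Finset.mem_ssubsets.mp hT
      have h1 : nu T x = nu T x' :=
        ih T.card (hSn ▸ Finset.card_lt_card hTS) T rfl x x' (fun i hi => h i (hTS.1 hi))
      have h2 : (∀ i ∈ S \ T, x i = ltr q S.card (rk S i)) ↔
          (∀ i ∈ S \ T, x' i = ltr q S.card (rk S i)) := by
        constructor
        · intro hh i hi
          rw [← h i (Finset.mem_sdiff.mp hi).1]
          exact hh i hi
        · intro hh i hi
          rw [h i (Finset.mem_sdiff.mp hi).1]
          exact hh i hi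
      rw [h1]
      simp only [h2]

theorem nu_congr (S : Finset (Fin q)) (x x' : Fin q → Ltr q) (h : ∀ i ∈ S, x i = x' i) :
    nu S x = nu S x' := nu_congr_aux S.card S rfl x x' h

theorem rk_lt_card (S : Finset (Fin q)) (i : Fin q) (hi : i ∈ S) : rk S i < S.card := by
  unfold rk
  apply Finset.card_lt_card
  rw [Finset.ssubset_iff_of_subset (Finset.filter_subset _ _)]
  exact ⟨i, hi, by simp⟩

theorem rk_strict (S : Finset (Fin q)) (i j : Fin q) (hi : i ∈ S) (hij : i < j) :
    rk S i < rk S j := by
  unfold rk
  apply Finset.card_lt_card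
  have hsub : (S.filter (fun k => k < i)) ⊆ (S.filter (fun k => k < j)) := by
    intro k hk
    rw [Finset.mem_filter] at hk ⊢
    exact ⟨hk.1, hk.2.trans hij⟩
  rw [Finset.ssubset_iff_of_subset hsub]
  exact ⟨i, by simp [hi, hij], by simp⟩

theorem rk_inj (S : Finset (Fin q)) (i j : Fin q) (hi : i ∈ S) (hj : j ∈ S)
    (h : rk S i = rk S j) : i = j := by
  rcases lt_trichotomy i j with h1 | h1 | h1
  · exact absurd h (rk_strict S i j hi h1).ne
  · exact h1
  · exact absurd h.symm (rk_strict S j i hj h1).ne

theorem card_le_q (S : Finset (Fin q)) : S.card ≤ q := by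
  simpa using Finset.card_le_univ S

theorem nu_inj_aux (n : ℕ) : ∀ (S : Finset (Fin q)), S.card = n → ∀ (x : Fin q → Ltr q),
    nu S x ≠ 0 → Set.InjOn x (S : Set (Fin q)) ∧ ∀ j ∈ S, ((x j).1 : ℕ) < S.card := by
  induction n using Nat.strong_induction_on with
  | _ n ih =>
    intro S hSn x h
    by_cases hS : S = ∅
    · subst hS
      simp
    · rw [nu_ne_eq S hS x] at h
      obtain ⟨T, hT, hne⟩ := Finset.exists_ne_zero_of_sum_ne_zero h
      have hTS : T ⊂ S := Finset.mem_ssubsets.mp hT
      have hlt := Finset.card_lt_card hTS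
      have h1 : nu T x ≠ 0 := by
        intro h0
        apply hne
        rw [h0]; simp
      have h2 : ∀ i ∈ S \ T, x i = ltr q S.card (rk S i) := by
        by_contra h0
        apply hne
        rw [if_neg h0]; simp
      obtain ⟨ih1, ih2⟩ := ih T.card (hSn ▸ hlt) T rfl x h1
      have hq := card_le_q S
      have hfst : ∀ i ∈ S \ T, ((x i).1 : ℕ) = S.card - 1 := by
        intro i hi
        rw [h2 i hi]
        unfold ltr
        simp only [Fin.val_ofNat]
        exact Nat.mod_eq_of_lt (by omega)
      have hsnd : ∀ i ∈ S \ T, ((x i).2 : ℕ) = rk S i := by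
        intro i hi
        rw [h2 i hi]
        unfold ltr
        simp only [Fin.val_ofNat]
        have := rk_lt_card S i (Finset.mem_sdiff.mp hi).1
        exact Nat.mod_eq_of_lt (by omega)
      refine ⟨?_, ?_⟩
      · intro i hi j hj hij
        have hi' : i ∈ S := hi
        have hj' : j ∈ S := hj
        by_cases hiT : i ∈ T
        · by_cases hjT : j ∈ T
          · exact ih1 (by exact hiT) (by exact hjT) hij
          · exfalso
            have a1 := ih2 i hiT
            have a2 := hfst j (Finset.mem_sdiff.mpr ⟨hj', hjT⟩)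
            rw [hij] at a1
            omega
        · by_cases hjT : j ∈ T
          · exfalso
            have a1 := ih2 j hjT
            have a2 := hfst i (Finset.mem_sdiff.mpr ⟨hi', hiT⟩)
            rw [hij] at a2
            omega
          · have a1 := hsnd i (Finset.mem_sdiff.mpr ⟨hi', hiT⟩)
            have a2 := hsnd j (Finset.mem_sdiff.mpr ⟨hj', hjT⟩)
            rw [hij] at a1
            exact rk_inj S i j hi' hj' (by omega)
      · intro j hj
        by_cases hjT : j ∈ T
        · exact (ih2 j hjT).trans hlt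
        · have a2 := hfst j (Finset.mem_sdiff.mpr ⟨hj, hjT⟩)
          omega

theorem nu_inj (S : Finset (Fin q)) (x : Fin q → Ltr q) (h : nu S x ≠ 0) :
    Set.InjOn x (S : Set (Fin q)) := (nu_inj_aux S.card S rfl x h).1

theorem nu_single (i : Fin q) (x : Fin q → Ltr q) :
    nu {i} x = if x i = (0, 0) then 1 else 0 := by
  rw [nu_ne_eq {i} (by simp) x]
  have hss : ({i} : Finset (Fin q)).ssubsets = {∅} := by
    ext T
    simp [Finset.mem_ssubsets, Finset.ssubset_singleton_iff]
  have hl : ltr q 1 0 = (0, 0) := by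
    unfold ltr
    rfl
  have hr : rk ({i} : Finset (Fin q)) i = 0 := by
    have := rk_lt_card ({i} : Finset (Fin q)) i (by simp)
    simp at this
    omega
  rw [hss, Finset.sum_singleton, nu_empty]
  simp [hr, hl]

end A

end Pool.Agent.RepFLR
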