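import Pool.Agent.Helper26.FLR.NuA1

set_option autoImplicit false

namespace Pool.Agent.RepFLR

open Classical

end Pool.Agent.RepFLR

namespace Pool.Agent.RepFLR

open Classical

section A
variable {q : ℕ} [NeZero q]

theorem h441_rec (S : Finset (Fin q)) (hS : S ≠ ∅) (x : Fin q → Ltr q) :
    nu S x = ∑ T ∈ S.ssubsets, (-1)^(S.card - T.card - 1) * nu T x *
        (if ∀ i ∈ S \ T, x i = ltr q S.card (rk S i) then 1 else 0) := by
  rw [nu, if_neg hS]
  exact Finset.sum_coe_sort S.ssubsets (fun T => (-1)^(S.card - T.card - 1) * nu T x *
        (if ∀ i ∈ S \ T, x i = ltr q S.card (rk S i) then (1 : ℤ) else 0))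

theorem h441_ss (S : Finset (Fin q)) (i : Fin q) (hi : i ∉ S) (f : Finset (Fin q) → ℤ) :
    ∑ T ∈ (insert i S).ssubsets, f T = f S + ∑ T ∈ S.ssubsets, (f T + f (insert i T)) := by
  have h1 := Finset.sum_powerset_insert hi f
  have h2 : ∀ (s : Finset (Fin q)) (g : Finset (Fin q) → ℤ),
      ∑ T ∈ s.ssubsets, g T + g s = ∑ T ∈ s.powerset, g T := by
    intro s g
    exact Finset.sum_erase_add _ g (Finset.mem_powerset_self s)
  have h3 := h2 (insert i S) f
  have h4 := h2 S f
  have h5 := h2 S (fun T => f (insert i T))
  rw [Finset.sum_add_distrib]
  linarith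

theorem nu_marginal (S : Finset (Fin q)) (i : Fin q) (hi : i ∉ S) (x : Fin q → Ltr q) :
    ∑ v : Ltr q, nu (insert i S) (Function.update x i v) = nu S x := by
  induction S using Finset.strongInduction with
  | H S ih =>
    have hne : insert i S ≠ ∅ := Finset.insert_ne_empty i S
    have hcard : (insert i S).card = S.card + 1 := Finset.card_insert_of_notMem hi
    set S' := insert i S with hS'
    set v0 : Ltr q := ltr q S'.card (rk S' i) with hv0
    have h1 : ∀ v : Ltr q, nu S' (Function.update x i v) =
        (-1)^(S'.card - S.card - 1) * nu S (Function.update x i v) *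
        (if ∀ j ∈ S' \ S, Function.update x i v j = ltr q S'.card (rk S' j) then 1 else 0) +
        ∑ T ∈ S.ssubsets, ((-1)^(S'.card - T.card - 1) * nu T (Function.update x i v) *
        (if ∀ j ∈ S' \ T, Function.update x i v j = ltr q S'.card (rk S' j) then 1 else 0) +
        (-1)^(S'.card - (insert i T).card - 1) * nu (insert i T) (Function.update x i v) *
        (if ∀ j ∈ S' \ (insert i T), Function.update x i v j = ltr q S'.card (rk S' j) then 1 else 0)) := by
      intro v
      rw [h441_rec S' hne]
      exact h441_ss S i hi (fun T => (-1)^(S'.card - T.card - 1) * nu T (Function.update x i v) *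
        (if ∀ j ∈ S' \ T, Function.update x i v j = ltr q S'.card (rk S' j) then 1 else 0))
    simp only [h1]
    rw [Finset.sum_add_distrib, Finset.sum_comm]
    have hupd : ∀ (T : Finset (Fin q)), T ⊆ S → ∀ v, nu T (Function.update x i v) = nu T x := by
      intro T hT v
      apply nu_congr
      intro j hj
      rw [Function.update_of_ne]
      rintro rfl
      exact hi (hT hj)
    have hS0 : ∑ v : Ltr q, ((-1)^(S'.card - S.card - 1) * nu S (Function.update x i v) *
        (if ∀ j ∈ S' \ S, Function.update x i v j = ltr q S'.card (rk S' j) then 1 else 0)) =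
        nu S x := by
      have e1 : ∀ v : Ltr q, (∀ j ∈ S' \ S, Function.update x i v j = ltr q S'.card (rk S' j)) ↔
          v = v0 := by
        intro v
        constructor
        · intro h
          have := h i (by simp [hS', hi])
          rwa [Function.update_self] at this
        · intro h j hj
          rw [Finset.mem_sdiff, hS', Finset.mem_insert] at hj
          rcases hj.1 with rfl | h2
          · rw [Function.update_self]
            exact h
          · exact absurd h2 hj.2
      simp only [e1, hupd S (Finset.Subset.refl S)]
      rw [hcard, show S.card + 1 - S.card - 1 = 0 by omega]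
      simp
    rw [hS0]
    have hT0 : ∀ T ∈ S.ssubsets, ∑ v : Ltr q,
        ((-1)^(S'.card - T.card - 1) * nu T (Function.update x i v) *
        (if ∀ j ∈ S' \ T, Function.update x i v j = ltr q S'.card (rk S' j) then 1 else 0) +
        (-1)^(S'.card - (insert i T).card - 1) * nu (insert i T) (Function.update x i v) *
        (if ∀ j ∈ S' \ (insert i T), Function.update x i v j = ltr q S'.card (rk S' j) then 1 else 0))
        = 0 := by
      intro T hT
      rw [Finset.mem_ssubsets] at hT
      have hTS := hT.subset
      have hiT : i ∉ T := fun h => hi (hTS h)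
      have hlt := Finset.card_lt_card hT
      have ih' := ih T hT hiT
      have hcT : (insert i T).card = T.card + 1 := Finset.card_insert_of_notMem hiT
      set P : Prop := ∀ j ∈ S \ T, x j = ltr q S'.card (rk S' j) with hP
      have e1 : ∀ v : Ltr q, (∀ j ∈ S' \ T, Function.update x i v j = ltr q S'.card (rk S' j)) ↔
          (v = v0 ∧ P) := by
        intro v
        constructor
        · intro h
          refine ⟨?_, ?_⟩
          · have := h i (by simp [hS', hiT])
            rwa [Function.update_self] at this
          · intro j hj
            rw [Finset.mem_sdiff] at hj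
            have := h j (by simp [hS', hj.1, hj.2])
            rwa [Function.update_of_ne (by rintro rfl; exact hi hj.1)] at this
        · rintro ⟨h2, h3⟩ j hj
          rw [Finset.mem_sdiff, hS', Finset.mem_insert] at hj
          by_cases hji : j = i
          · rw [hji, Function.update_self]
            exact h2
          · rw [Function.update_of_ne hji]
            exact h3 j (Finset.mem_sdiff.mpr ⟨hj.1.resolve_left hji, hj.2⟩)
      have e2 : ∀ v : Ltr q, (∀ j ∈ S' \ (insert i T), Function.update x i v j = ltr q S'.card (rk S' j)) ↔
          P := by
        intro v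
        constructor
        · intro h j hj
          rw [Finset.mem_sdiff] at hj
          have hji : j ≠ i := by rintro rfl; exact hi hj.1
          have := h j (by simp [hS', hj.1, hj.2, hji])
          rwa [Function.update_of_ne hji] at this
        · intro h3 j hj
          rw [Finset.mem_sdiff, hS', Finset.mem_insert, Finset.mem_insert, not_or] at hj
          rw [Function.update_of_ne hj.2.1]
          exact h3 j (Finset.mem_sdiff.mpr ⟨hj.1.resolve_left hj.2.1, hj.2.2⟩)
      simp only [e1, e2, hupd T hTS]
      rw [Finset.sum_add_distrib, ← Finset.sum_mul, ← Finset.mul_sum, ← Finset.mul_sum, ih']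
      by_cases hPP : P
      · simp only [hPP, and_true, if_true, mul_one]
        rw [Finset.sum_ite_eq' Finset.univ v0 (fun _ => (1 : ℤ))]
        simp only [Finset.mem_univ, if_true, mul_one]
        rw [hcard, hcT, show S.card + 1 - T.card - 1 = (S.card - T.card - 1) + 1 by omega,
          show S.card + 1 - (T.card + 1) - 1 = S.card - T.card - 1 by omega, pow_succ]
        ring
      · simp only [hPP, and_false, if_false, mul_zero, Finset.sum_const_zero, add_zero]
    rw [Finset.sum_eq_zero hT0, add_zero]

end A

end Pool.Agent.RepFLR
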