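import Pool.Agent.Helper26.FLR.NuA2

set_option autoImplicit false

namespace Pool.Agent.RepFLR

open Classical

end Pool.Agent.RepFLR

namespace Pool.Agent.RepFLR

open Classical

section A
variable {q : ℕ} [NeZero q]

theorem nu_order (S : Finset (Fin q)) (θ : Fin q → Fin q)
    (hθ : StrictMonoOn θ (S : Set (Fin q))) (x : Fin q → Ltr q) :
    nu (S.image θ) x = nu S (x ∘ θ) := by
  induction' hn : S.card using Nat.strong_induction_on with n ih generalizing S
  subst hn
  have hinj : Set.InjOn θ (S : Set (Fin q)) := hθ.injOn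
  have hcard : (S.image θ).card = S.card := Finset.card_image_of_injOn hinj
  rw [nu, nu]
  by_cases hS : S = ∅
  · subst hS; simp
  · have hS' : ¬ (S.image θ = ∅) := by simpa using hS
    rw [if_neg hS, if_neg hS']
    symm
    have hrk : ∀ i ∈ S, rk (S.image θ) (θ i) = rk S i := by
      intro i hi
      unfold rk
      have hsub : ((S.filter (fun j => j < i) : Finset (Fin q)) : Set (Fin q)) ⊆ (S : Set (Fin q)) := by
        intro j hj
        exact (Finset.mem_filter.mp (Finset.mem_coe.mp hj)).1
      rw [← Finset.card_image_of_injOn (s := S.filter (fun j => j < i)) (f := θ) (hinj.mono hsub)]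
      congr 1
      ext k
      simp only [Finset.mem_filter, Finset.mem_image]
      constructor
      · rintro ⟨⟨j, hj, rfl⟩, hlt⟩
        exact ⟨j, ⟨hj, (hθ.lt_iff_lt (Finset.mem_coe.mpr hj) (Finset.mem_coe.mpr hi)).mp hlt⟩, rfl⟩
      · rintro ⟨j, ⟨hj, hlt⟩, rfl⟩
        exact ⟨⟨j, hj, rfl⟩, (hθ.lt_iff_lt (Finset.mem_coe.mpr hj) (Finset.mem_coe.mpr hi)).mpr hlt⟩
    have hmem : ∀ T : Finset (Fin q), T ∈ S.ssubsets → T.image θ ∈ (S.image θ).ssubsets := by
      intro T hT
      have hT' := Finset.mem_ssubsets.mp hT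
      have hTi : Set.InjOn θ (T : Set (Fin q)) := hinj.mono (Finset.coe_subset.mpr hT'.1)
      rw [Finset.mem_ssubsets]
      refine (Finset.ssubset_iff_subset_ne).mpr ⟨Finset.image_subset_image hT'.1, ?_⟩
      intro h
      have h1 := congrArg Finset.card h
      rw [hcard, Finset.card_image_of_injOn hTi] at h1
      have h2 := Finset.card_lt_card hT'
      omega
    refine Fintype.sum_bijective (fun T : {T : Finset (Fin q) // T ∈ S.ssubsets} =>
      (⟨T.1.image θ, hmem T.1 T.2⟩ : {T : Finset (Fin q) // T ∈ (S.image θ).ssubsets})) ?_ _ _ ?_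
    · constructor
      · rintro ⟨T1, h1⟩ ⟨T2, h2⟩ h
        have h' : T1.image θ = T2.image θ := congrArg Subtype.val h
        apply Subtype.ext
        show T1 = T2
        have e1 := (Finset.mem_ssubsets.mp h1).1
        have e2 := (Finset.mem_ssubsets.mp h2).1
        ext i
        constructor
        · intro hi
          have : θ i ∈ T2.image θ := h' ▸ Finset.mem_image_of_mem θ hi
          obtain ⟨j, hj, hji⟩ := Finset.mem_image.mp this
          have : j = i := hinj (Finset.mem_coe.mpr (e2 hj)) (Finset.mem_coe.mpr (e1 hi)) hji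
          exact this ▸ hj
        · intro hi
          have : θ i ∈ T1.image θ := h' ▸ Finset.mem_image_of_mem θ hi
          obtain ⟨j, hj, hji⟩ := Finset.mem_image.mp this
          have : j = i := hinj (Finset.mem_coe.mpr (e1 hj)) (Finset.mem_coe.mpr (e2 hi)) hji
          exact this ▸ hj
      · rintro ⟨U, hU⟩
        have hU' := Finset.mem_ssubsets.mp hU
        have him : (S.filter (fun i => θ i ∈ U)).image θ = U := by
          ext k
          simp only [Finset.mem_image, Finset.mem_filter]
          constructor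
          · rintro ⟨i, ⟨_, hi⟩, rfl⟩
            exact hi
          · intro hk
            obtain ⟨i, hi, rfl⟩ := Finset.mem_image.mp (hU'.1 hk)
            exact ⟨i, ⟨hi, hk⟩, rfl⟩
        have hss : S.filter (fun i => θ i ∈ U) ∈ S.ssubsets := by
          rw [Finset.mem_ssubsets]
          refine (Finset.ssubset_iff_subset_ne).mpr ⟨Finset.filter_subset _ _, ?_⟩
          intro h
          rw [h] at him
          exact hU'.ne him.symm
        exact ⟨⟨_, hss⟩, Subtype.ext him⟩
    · rintro ⟨T, hT⟩
      have hT' := Finset.mem_ssubsets.mp hT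
      have hTi : Set.InjOn θ (T : Set (Fin q)) := hinj.mono (Finset.coe_subset.mpr hT'.1)
      have hih := ih T.card (Finset.card_lt_card hT') T (hθ.mono (Finset.coe_subset.mpr hT'.1)) rfl
      simp only
      rw [hih, hcard, Finset.card_image_of_injOn hTi]
      congr 1
      have hiff : (∀ i ∈ S \ T, (x ∘ θ) i = ltr q S.card (rk S i)) ↔
          (∀ i ∈ (S.image θ) \ (T.image θ), x i = ltr q S.card (rk (S.image θ) i)) := by
        constructor
        · intro h k hk
          obtain ⟨hk1, hk2⟩ := Finset.mem_sdiff.mp hk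
          obtain ⟨i, hi, rfl⟩ := Finset.mem_image.mp hk1
          have hiT : i ∉ T := fun hc => hk2 (Finset.mem_image_of_mem θ hc)
          rw [hrk i hi]
          exact h i (Finset.mem_sdiff.mpr ⟨hi, hiT⟩)
        · intro h i hi
          obtain ⟨hi1, hi2⟩ := Finset.mem_sdiff.mp hi
          have h3 : θ i ∈ (S.image θ) \ (T.image θ) := by
            refine Finset.mem_sdiff.mpr ⟨Finset.mem_image_of_mem θ hi1, ?_⟩
            intro hc
            obtain ⟨j, hj, hji⟩ := Finset.mem_image.mp hc
            have : j = i := hinj (Finset.mem_coe.mpr (hT'.1 hj)) (Finset.mem_coe.mpr hi1) hji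
            exact hi2 (this ▸ hj)
          have h4 := h (θ i) h3
          rw [hrk i hi1] at h4
          exact h4
      by_cases hc : (∀ i ∈ S \ T, (x ∘ θ) i = ltr q S.card (rk S i))
      · rw [if_pos hc, if_pos (hiff.mp hc)]
      · rw [if_neg hc, if_neg (fun h => hc (hiff.mpr h))]

end A

end Pool.Agent.RepFLR
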