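import Pool.Agent.Helper26.FLR.NuA3

set_option autoImplicit false

namespace Pool.Agent.RepFLR

open Classical

end Pool.Agent.RepFLR

namespace Pool.Agent.RepFLR

open Classical

section A
variable {q : ℕ} [NeZero q]

theorem nu_total (S : Finset (Fin q)) (x : Fin q → Ltr q) :
    ∑ u : Fin q → Ltr q, nu Finset.univ u * (if ∀ i ∈ S, u i = x i then 1 else 0) = nu S x := by
  obtain ⟨n, hn⟩ : ∃ n, (Finset.univ \ S).card = n := ⟨_, rfl⟩
  induction n generalizing S x with
  | zero =>
    have hS : S = Finset.univ := by
      rw [Finset.card_eq_zero, Finset.sdiff_eq_empty_iff_subset] at hn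
      exact Finset.univ_subset_iff.mp hn
    subst hS
    rw [Finset.sum_eq_single x]
    · simp
    · intro u _ hu
      rw [if_neg, mul_zero]
      intro h
      exact hu (funext fun i => h i (Finset.mem_univ i))
    · intro h
      exact absurd (Finset.mem_univ x) h
  | succ n ih =>
    have hne : (Finset.univ \ S).Nonempty := by
      rw [← Finset.card_pos, hn]; exact Nat.succ_pos n
    obtain ⟨i, hi⟩ := hne
    have hiS : i ∉ S := (Finset.mem_sdiff.mp hi).2
    have hcard : (Finset.univ \ insert i S).card = n := by
      have : Finset.univ \ insert i S = (Finset.univ \ S).erase i := by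
        ext j
        simp only [Finset.mem_sdiff, Finset.mem_univ, true_and, Finset.mem_insert,
          Finset.mem_erase, not_or]
      rw [this, Finset.card_erase_of_mem hi, hn]
      rfl
    have key : ∀ u : Fin q → Ltr q, (if ∀ j ∈ S, u j = x j then (1:ℤ) else 0)
        = ∑ v : Ltr q, (if ∀ j ∈ insert i S, u j = (Function.update x i v) j then (1:ℤ) else 0) := by
      intro u
      rw [Finset.sum_eq_single (u i)]
      · have hiff : (∀ j ∈ S, u j = x j) ↔
            (∀ j ∈ insert i S, u j = (Function.update x i (u i)) j) := by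
          constructor
          · intro h j hj
            rcases Finset.mem_insert.mp hj with rfl | hj'
            · simp
            · have hne' : j ≠ i := fun h' => hiS (h' ▸ hj')
              rw [Function.update_of_ne hne']
              exact h j hj'
          · intro h j hj
            have hne' : j ≠ i := fun h' => hiS (h' ▸ hj)
            have := h j (Finset.mem_insert_of_mem hj)
            rwa [Function.update_of_ne hne'] at this
        by_cases hc : ∀ j ∈ S, u j = x j
        · rw [if_pos hc, if_pos (hiff.mp hc)]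
        · rw [if_neg hc, if_neg (fun h' => hc (hiff.mpr h'))]
      · intro v _ hv
        rw [if_neg]
        intro h
        have := h i (Finset.mem_insert_self i S)
        rw [Function.update_self] at this
        exact hv this.symm
      · intro h
        exact absurd (Finset.mem_univ _) h
    calc ∑ u : Fin q → Ltr q, nu Finset.univ u * (if ∀ i ∈ S, u i = x i then 1 else 0)
        = ∑ u : Fin q → Ltr q, ∑ v : Ltr q, nu Finset.univ u *
            (if ∀ j ∈ insert i S, u j = (Function.update x i v) j then (1:ℤ) else 0) := by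
          refine Finset.sum_congr rfl fun u _ => ?_
          rw [key u, Finset.mul_sum]
      _ = ∑ v : Ltr q, ∑ u : Fin q → Ltr q, nu Finset.univ u *
            (if ∀ j ∈ insert i S, u j = (Function.update x i v) j then (1:ℤ) else 0) :=
          Finset.sum_comm
      _ = ∑ v : Ltr q, nu (insert i S) (Function.update x i v) := by
          refine Finset.sum_congr rfl fun v _ => ?_
          exact ih (insert i S) (Function.update x i v) hcard
      _ = nu S x := nu_marginal S i hiS x

/-- moments: labels `lam x` for the letters `x ∈ T` -/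
noncomputable def mb (T : Finset (Ltr q)) (lam : Ltr q → Fin q) : ℤ :=
  ∑ u : Fin q → Ltr q, nu Finset.univ u * (if ∀ x ∈ T, u (lam x) = x then 1 else 0)

theorem mb_eq (T : Finset (Ltr q)) (lam : Ltr q → Fin q) (w : Fin q → Ltr q)
    (hw : ∀ x ∈ T, w (lam x) = x) : mb T lam = nu (T.image lam) w := by
  rw [← nu_total]
  unfold mb
  refine Finset.sum_congr rfl fun u _ => ?_
  have hiff : (∀ x ∈ T, u (lam x) = x) ↔ (∀ i ∈ T.image lam, u i = w i) := by
    constructor
    · intro h i hi
      obtain ⟨x, hx, rfl⟩ := Finset.mem_image.mp hi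
      rw [h x hx, hw x hx]
    · intro h x hx
      rw [h _ (Finset.mem_image_of_mem lam hx), hw x hx]
  by_cases hc : ∀ x ∈ T, u (lam x) = x
  · rw [if_pos hc, if_pos (hiff.mp hc)]
  · rw [if_neg hc, if_neg (fun h' => hc (hiff.mpr h'))]

theorem mb_order (T : Finset (Ltr q)) (lam : Ltr q → Fin q) (θ : Fin q → Fin q)
    (hθ : StrictMonoOn θ (lam '' (T : Set (Ltr q)))) : mb T (θ ∘ lam) = mb T lam := by
  by_cases hw : ∃ w : Fin q → Ltr q, ∀ x ∈ T, w (θ (lam x)) = x
  · obtain ⟨w, hw⟩ := hw
    rw [mb_eq T (θ ∘ lam) w hw, mb_eq T lam (w ∘ θ) hw, ← nu_order]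
    · rw [Finset.image_image]
    · rw [Finset.coe_image]
      exact hθ
  · have hl : ∀ u : Fin q → Ltr q, ¬ ∀ x ∈ T, u ((θ ∘ lam) x) = x := fun u hu => hw ⟨u, hu⟩
    have hr : ∀ u : Fin q → Ltr q, ¬ ∀ x ∈ T, u (lam x) = x := by
      intro u hu
      apply hw
      refine ⟨fun i => if h : ∃ x ∈ T, θ (lam x) = i then Classical.choose h else u 0, ?_⟩
      intro x hx
      have hex : ∃ y ∈ T, θ (lam y) = θ (lam x) := ⟨x, hx, rfl⟩
      simp only [dif_pos hex]
      obtain ⟨h1, h2⟩ := Classical.choose_spec hex
      have h3 : lam (Classical.choose hex) = lam x :=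
        hθ.injOn ⟨_, h1, rfl⟩ ⟨_, hx, rfl⟩ h2
      rw [← hu _ h1, h3, hu x hx]
    unfold mb
    rw [Finset.sum_eq_zero, Finset.sum_eq_zero]
    · intro u _
      rw [if_neg (hr u), mul_zero]
    · intro u _
      rw [if_neg (hl u), mul_zero]

end A

end Pool.Agent.RepFLR
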