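import Pool.Agent.Helper26.FLR.NuA4

set_option autoImplicit false

namespace Pool.Agent.RepFLR

open Classical

theorem order_sum_dvd_aux1 (p M w s : ℕ) (hp : p.Prime) (hs0 : s ≠ 0) (hsw : s ≤ w + 1) :
    p^M ∣ p^w * (p^M).choose s := by
  obtain ⟨t, rfl⟩ : ∃ t, s = t + 1 := ⟨s - 1, by omega⟩
  have h1 : (p^M).choose (t+1) * (t+1) = p^M * (p^M - 1).choose t := by
    have hpos : 0 < p^M := pow_pos hp.pos M
    obtain ⟨n, hn⟩ : ∃ n, p^M = n + 1 := ⟨p^M - 1, by omega⟩
    rw [hn]
    have := Nat.add_one_mul_choose_eq n t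
    rw [this.symm]
    simp
  -- write t+1 = p^v * r with r coprime to p
  obtain ⟨v, r, hr, hvr⟩ := Nat.exists_eq_pow_mul_and_not_dvd (n := t + 1) (by omega) p hp.ne_one
  have hv : v ≤ w := by
    by_contra hcon
    push Not at hcon
    have h2 : w + 1 ≤ v := hcon
    have h3 : 2 ^ (w+1) ≤ p ^ v := by
      calc 2 ^ (w+1) ≤ 2 ^ v := Nat.pow_le_pow_right (by norm_num) h2
        _ ≤ p ^ v := Nat.pow_le_pow_left hp.two_le v
    have h4 : p ^ v ≤ t + 1 := by
      rw [hvr]
      have : 0 < r := by
        rcases Nat.eq_zero_or_pos r with h | h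
        · subst h; simp at hvr
        · exact h
      exact Nat.le_mul_of_pos_right _ this
    have h5 : w + 1 < 2 ^ (w+1) := Nat.lt_two_pow_self
    omega
  have hcop : Nat.Coprime (p^M) r := Nat.Coprime.pow_left M ((Nat.Prime.coprime_iff_not_dvd hp).2 hr)
  have h6 : p^M ∣ (p^v * (p^M).choose (t+1)) * r := by
    refine ⟨(p^M - 1).choose t, ?_⟩
    rw [← h1]
    calc p ^ v * (p ^ M).choose (t + 1) * r = (p ^ M).choose (t + 1) * (p ^ v * r) := by ring
      _ = (p ^ M).choose (t + 1) * (t + 1) := by rw [← hvr]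
  have h7 : p^M ∣ p^v * (p^M).choose (t+1) := hcop.dvd_of_dvd_mul_right h6
  obtain ⟨u, hu⟩ : ∃ u, w = v + u := ⟨w - v, by omega⟩
  rw [hu, pow_add]
  have : p^v * p^u * (p^M).choose (t+1) = p^v * (p^M).choose (t+1) * p^u := by ring
  rw [this]
  exact Dvd.dvd.mul_right h7 _

/-- Module C: sums of order-invariant functions over label maps -/
theorem order_sum_dvd (p M q w : ℕ) (hp : p.Prime) (hq : q = p^M) (T : Type) [Fintype T] [Nonempty T]
    (g : (T → Fin q) → ℤ)
    (hg : ∀ (lam : T → Fin q) (θ : Fin q → Fin q), StrictMonoOn θ (Set.range lam) → g (θ ∘ lam) = g lam)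
    (hb : ∀ lam, g lam ≠ 0 → (Finset.univ.image lam).card ≤ w + 1) :
    ((p:ℤ)^M) ∣ (p:ℤ)^w * ∑ lam, g lam := by
  set h : Finset (Fin q) → ℤ := fun S => ∑ lam ∈ Finset.univ.filter (fun lam : T → Fin q => Finset.univ.image lam = S), g lam with hh
  have h1 : ∑ lam, g lam = ∑ S : Finset (Fin q), h S := by
    simp only [hh]
    rw [Finset.sum_fiberwise]
  have hinv : ∀ S S1 : Finset (Fin q), S.card = S1.card → h S = h S1 := by
    intro S S1 hc
    let e : S ≃o S1 := (S.orderIsoOfFin rfl).symm.trans (S1.orderIsoOfFin hc.symm)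
    let θ : Fin q → Fin q := fun x => if hx : x ∈ S then (e ⟨x, hx⟩ : Fin q) else x
    let θ1 : Fin q → Fin q := fun x => if hx : x ∈ S1 then (e.symm ⟨x, hx⟩ : Fin q) else x
    have ht : ∀ x, (hx : x ∈ S) → θ x = e ⟨x, hx⟩ := fun x hx => by simp [θ, hx]
    have ht1 : ∀ x, (hx : x ∈ S1) → θ1 x = e.symm ⟨x, hx⟩ := fun x hx => by simp [θ1, hx]
    have htm : ∀ x, x ∈ S → θ x ∈ S1 := fun x hx => by rw [ht x hx]; exact (e ⟨x, hx⟩).2
    have ht1m : ∀ x, x ∈ S1 → θ1 x ∈ S := fun x hx => by rw [ht1 x hx]; exact (e.symm ⟨x, hx⟩).2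
    have h10 : ∀ x, x ∈ S → θ1 (θ x) = x := fun x hx => by
      rw [ht1 _ (htm x hx)]
      have : (⟨θ x, htm x hx⟩ : S1) = e ⟨x, hx⟩ := Subtype.ext (ht x hx)
      rw [this]; simp
    have h01 : ∀ x, x ∈ S1 → θ (θ1 x) = x := fun x hx => by
      rw [ht _ (ht1m x hx)]
      have : (⟨θ1 x, ht1m x hx⟩ : S) = e.symm ⟨x, hx⟩ := Subtype.ext (ht1 x hx)
      rw [this]; simp
    have hmono : StrictMonoOn θ (S : Set (Fin q)) := by
      intro x hx y hy hxy
      rw [ht x hx, ht y hy]
      have : e ⟨x, hx⟩ < e ⟨y, hy⟩ := e.lt_iff_lt.2 (by exact hxy)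
      exact this
    have hrange : ∀ (lam : T → Fin q), (Set.range lam) = ((Finset.univ.image lam : Finset (Fin q)) : Set (Fin q)) := by
      intro lam; simp
    simp only [hh]
    refine Finset.sum_bij' (fun lam _ => θ ∘ lam) (fun lam _ => θ1 ∘ lam) ?_ ?_ ?_ ?_ ?_
    · intro lam hl
      simp only [Finset.mem_filter, Finset.mem_univ, true_and] at hl ⊢
      rw [← Finset.image_image, hl]
      ext y
      simp only [Finset.mem_image]
      constructor
      · rintro ⟨x, hx, rfl⟩; exact htm x hx
      · intro hy; exact ⟨θ1 y, ht1m y hy, h01 y hy⟩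
    · intro lam hl
      simp only [Finset.mem_filter, Finset.mem_univ, true_and] at hl ⊢
      rw [← Finset.image_image, hl]
      ext y
      simp only [Finset.mem_image]
      constructor
      · rintro ⟨x, hx, rfl⟩; exact ht1m x hx
      · intro hy; exact ⟨θ y, htm y hy, h10 y hy⟩
    · intro lam hl
      simp only [Finset.mem_filter, Finset.mem_univ, true_and] at hl
      funext t
      have : lam t ∈ S := by rw [← hl]; exact Finset.mem_image_of_mem _ (Finset.mem_univ t)
      exact h10 _ this
    · intro lam hl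
      simp only [Finset.mem_filter, Finset.mem_univ, true_and] at hl
      funext t
      have : lam t ∈ S1 := by rw [← hl]; exact Finset.mem_image_of_mem _ (Finset.mem_univ t)
      exact h01 _ this
    · intro lam hl
      simp only [Finset.mem_filter, Finset.mem_univ, true_and] at hl
      refine (hg lam θ ?_).symm
      rw [hrange, hl]
      exact hmono
  rw [h1]
  have h2 : ∑ S : Finset (Fin q), h S = ∑ s ∈ Finset.range (q+1), ∑ S ∈ Finset.powersetCard s Finset.univ, h S := by
    rw [← Finset.powerset_univ, Finset.sum_powerset]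
    simp
  rw [h2, Finset.mul_sum]
  apply Finset.dvd_sum
  intro s hs
  by_cases hs0 : s = 0
  · subst hs0
    have : ∑ S ∈ Finset.powersetCard 0 (Finset.univ : Finset (Fin q)), h S = 0 := by
      rw [Finset.powersetCard_zero, Finset.sum_singleton]
      simp only [hh]
      apply Finset.sum_eq_zero
      intro lam hl
      simp only [Finset.mem_filter, Finset.mem_univ, true_and] at hl
      exfalso
      have := Finset.mem_image_of_mem lam (Finset.mem_univ (Classical.arbitrary T))
      rw [hl] at this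
      simp at this
    rw [this]; simp
  by_cases hsw : s ≤ w + 1
  · by_cases hne : (Finset.powersetCard s (Finset.univ : Finset (Fin q))).Nonempty
    · obtain ⟨S0, hS0⟩ := hne
      have h3 : ∑ S ∈ Finset.powersetCard s (Finset.univ : Finset (Fin q)), h S = (q.choose s : ℤ) * h S0 := by
        have : ∀ S ∈ Finset.powersetCard s (Finset.univ : Finset (Fin q)), h S = h S0 := by
          intro S hS
          apply hinv
          rw [(Finset.mem_powersetCard.1 hS).2, (Finset.mem_powersetCard.1 hS0).2]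
        rw [Finset.sum_congr rfl this]
        simp [Finset.card_powersetCard]
      rw [h3, ← mul_assoc]
      apply Dvd.dvd.mul_right
      have := order_sum_dvd_aux1 p M w s hp hs0 hsw
      rw [hq]
      exact_mod_cast this
    · rw [Finset.not_nonempty_iff_eq_empty] at hne
      rw [hne]; simp
  · have : ∑ S ∈ Finset.powersetCard s (Finset.univ : Finset (Fin q)), h S = 0 := by
      apply Finset.sum_eq_zero
      intro S hS
      simp only [hh]
      apply Finset.sum_eq_zero
      intro lam hl
      simp only [Finset.mem_filter, Finset.mem_univ, true_and] at hl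
      by_contra hcon
      have := hb lam hcon
      rw [hl, (Finset.mem_powersetCard.1 hS).2] at this
      exact hsw this
    rw [this]; simp

end Pool.Agent.RepFLR
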