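import Pool.Agent.Helper26.FLR.CostE2

set_option autoImplicit false

namespace Pool.Agent.RepFLR

open Classical

/-- the functional on polynomials -/
noncomputable def LK (E : Type) (EE : Multiset E → ℤ) : MvPolynomial E ℤ →ₗ[ℤ] ℤ :=
  (MvPolynomial.basisMonomials E ℤ).constr ℤ (fun m => EE (Finsupp.toMultiset m))

theorem LK_mono (E : Type) (EE : Multiset E → ℤ) (m : E →₀ ℕ) :
    LK E EE (MvPolynomial.monomial m 1) = EE (Finsupp.toMultiset m) := by
  have h := (MvPolynomial.basisMonomials E ℤ).constr_basis ℤ
    (fun m => EE (Finsupp.toMultiset m)) m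
  rw [MvPolynomial.coe_basisMonomials] at h
  exact h

/-- the ideal of the functional -/
noncomputable def IK (E : Type) (EE : Multiset E → ℤ) (N : ℤ) : Ideal (MvPolynomial E ℤ) where
  carrier := {x | ∀ y, N ∣ LK E EE (x * y)}
  add_mem' := by
    intro a b ha hb y
    rw [add_mul, map_add]
    exact dvd_add (ha y) (hb y)
  zero_mem' := by
    intro y
    rw [zero_mul, map_zero]
    exact dvd_zero N
  smul_mem' := by
    intro c x hx y
    rw [smul_eq_mul, mul_comm c x, mul_assoc]
    exact hx (c * y)

theorem prod_X_eq (E : Type) (f : Multiset E) :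
    (f.map (fun e => (MvPolynomial.X e : MvPolynomial E ℤ))).prod
      = MvPolynomial.monomial (Multiset.toFinsupp f) 1 := by
  induction f using Multiset.induction_on with
  | empty => simp
  | cons a s ih =>
    rw [Multiset.map_cons, Multiset.prod_cons, ih, ← Multiset.singleton_add, map_add,
      Multiset.toFinsupp_singleton, MvPolynomial.X, MvPolynomial.monomial_mul, one_mul]

/-- Module K: the universal commutative ring of a functional on monomials -/
theorem exists_K (E : Type) (EE : Multiset E → ℤ) (N : ℤ) :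
    ∃ (K : Type) (_ : CommRing K) (ξ : E → K),
      ∀ (ι : Type) (s : Finset ι) (c : ι → ℤ) (f : ι → Multiset E),
        (∑ i ∈ s, (c i : K) * ((f i).map ξ).prod = 0 ↔ ∀ g, N ∣ ∑ i ∈ s, c i * EE (f i + g)) := by
  refine ⟨MvPolynomial E ℤ ⧸ IK E EE N, inferInstance,
    fun e => Ideal.Quotient.mk _ (MvPolynomial.X e), ?_⟩
  intro ι s c f
  have h1 : ∀ f : Multiset E, (f.map (fun e => Ideal.Quotient.mk (IK E EE N)
      (MvPolynomial.X e))).prod
      = Ideal.Quotient.mk (IK E EE N) (MvPolynomial.monomial (Multiset.toFinsupp f) 1) := by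
    intro f
    rw [← prod_X_eq, map_multiset_prod, Multiset.map_map]
    rfl
  have h2 : ∑ i ∈ s, (c i : MvPolynomial E ℤ ⧸ IK E EE N) * ((f i).map
      (fun e => Ideal.Quotient.mk (IK E EE N) (MvPolynomial.X e))).prod
      = Ideal.Quotient.mk (IK E EE N) (∑ i ∈ s, (c i : MvPolynomial E ℤ) *
        MvPolynomial.monomial (Multiset.toFinsupp (f i)) 1) := by
    rw [map_sum]
    apply Finset.sum_congr rfl
    intro i _
    rw [h1, map_mul, map_intCast]
  rw [h2, Ideal.Quotient.eq_zero_iff_mem]
  have h3 : ∀ g : E →₀ ℕ, LK E EE ((∑ i ∈ s, (c i : MvPolynomial E ℤ) *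
        MvPolynomial.monomial (Multiset.toFinsupp (f i)) 1) * MvPolynomial.monomial g 1)
      = ∑ i ∈ s, c i * EE (f i + Finsupp.toMultiset g) := by
    intro g
    rw [Finset.sum_mul, map_sum]
    apply Finset.sum_congr rfl
    intro i _
    rw [mul_assoc, MvPolynomial.monomial_mul, one_mul, ← zsmul_eq_mul, map_zsmul, LK_mono,
      smul_eq_mul, map_add, Multiset.toFinsupp_toMultiset]
  constructor
  · intro h g
    have h4 := h (MvPolynomial.monomial (Multiset.toFinsupp g) 1)
    rw [h3, Multiset.toFinsupp_toMultiset] at h4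
    exact h4
  · intro h y
    induction y using MvPolynomial.induction_on' with
    | monomial u a =>
      have h5 : (MvPolynomial.monomial u a : MvPolynomial E ℤ)
          = a • MvPolynomial.monomial u 1 := by
        rw [MvPolynomial.smul_monomial, smul_eq_mul, mul_one]
      rw [h5, mul_smul_comm, map_zsmul, h3, smul_eq_mul]
      exact Dvd.dvd.mul_left (h _) a
    | add p q hp hq =>
      rw [mul_add, map_add]
      exact dvd_add hp hq

end Pool.Agent.RepFLR
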