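import Pool.Agent.Helper26.FLR.H5

set_option autoImplicit false

namespace Pool.Agent.RepFLR

open Classical

section
variable {m q : ℕ} [NeZero q]

end

section
variable {m q : ℕ} [NeZero q]

end

section
variable {m q : ℕ} [NeZero q]

end

section
variable {m q : ℕ} [NeZero q]

end

section
variable {m q : ℕ} [NeZero q]

end

section
variable {m q : ℕ} [NeZero q]

end

section
variable {m q : ℕ} [NeZero q]

end

section
variable {m q : ℕ} [NeZero q]

end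

section
variable {m q : ℕ} [NeZero q]

end

section
variable {m q : ℕ} [NeZero q]

end

section
variable {m q : ℕ} [NeZero q]

end

section
variable {m q : ℕ} [NeZero q]

theorem EE_R3 (p M c KK rm : ℕ) (hp : p.Prime) (hq : q = p^M)
    (kk : Fin (m+1) → ℕ) (hanti : Antitone kk) (hpos : ∀ a, 1 ≤ kk a)
    (hc : p^c ∣ rm.factorial) (hKK : KK = kk 0 + c) (hKM : KK ≤ M)
    (bs : Fin (m+1)) (hbs : kk bs = kk 0)
    (a b : Fin (m+1)) (i j : Vtx m q) (g : Multiset (Edge m q)) :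
    ((p:ℤ)^KK) ∣ (p:ℤ)^(kk a - wt kk a b) * EE p kk rm (snk m q bs) (⟨a, b, i, j⟩ ::ₘ g) := by
  classical
  have hwt : wt kk a b ≤ kk a := by
    unfold wt
    split_ifs with h
    · have := hpos a
      omega
    · omega
  have hwf : wf kk (⟨a, b, i, j⟩ ::ₘ g) = wt kk a b + wf kk g := by
    simp [wf]
  unfold EE
  split_ifs with hbal
  swap
  · simp
  have hrew : (p:ℤ)^(kk a - wt kk a b) * ((p:ℤ)^(wf kk (⟨a, b, i, j⟩ ::ₘ g)) * Yf rm (⟨a, b, i, j⟩ ::ₘ g))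
      = (p:ℤ)^(kk a) * ((p:ℤ)^(wf kk g) * Yf rm (⟨a, b, i, j⟩ ::ₘ g)) := by
    rw [hwf, ← mul_assoc, ← pow_add, ← mul_assoc, ← pow_add]
    congr 2
    omega
  rw [hrew]
  set e0 : Edge m q := ⟨a, b, i, j⟩ with he0
  by_cases hgood : good (e0 ::ₘ g) e0.i ∨ ∃ e1 ∈ e0 ::ₘ g, good (e0 ::ₘ g) e1.i ∧
      (e1.a ∈ Bs (e0 ::ₘ g) e0.a ∨ e1.b ∈ Bs (e0 ::ₘ g) e0.a)
  · unfold Yf
    rw [Finset.mul_sum, Finset.mul_sum]
    refine Finset.dvd_sum (fun y _ => ?_)
    by_cases hnu : nuy y = 0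
    · rw [hnu]; simp
    by_cases hok : ∀ e ∈ e0 ::ₘ g, ok y e
    swap
    · rw [if_neg hok]; simp
    rw [if_pos hok]
    unfold kap
    by_cases hM : IsM (Qf y (e0 ::ₘ g))
    swap
    · rw [if_neg hM]; simp
    rw [if_pos hM]
    have hinj := nuy_inj y hnu
    have hgc := good_case kk hanti bs hbs e0 g hbal y hinj hok hM hgood
    have hj : 1 ≤ (Qf y (e0 ::ₘ g)).card := by
      rw [Nat.one_le_iff_ne_zero, Ne, Finset.card_eq_zero]
      exact Finset.ne_empty_of_mem (Finset.mem_insert_self _ _)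
    have hk := kh_val p rm (Qf y (e0 ::ₘ g)).card c hp hc hj
    set J := (Qf y (e0 ::ₘ g)).card with hJ
    have ha0 : kk a ≤ kk 0 := hanti (Fin.zero_le a)
    have hea : e0.a = a := rfl
    rw [hea] at hgc
    obtain ⟨t, ht⟩ := Nat.exists_eq_add_of_le hgc
    have e1 : (p:ℤ)^(kk a) * ((p:ℤ)^(wf kk g) * (nuy y * kh rm J)) =
        (p:ℤ)^(kk 0) * ((p:ℤ)^(J-2) * kh rm J) * ((p:ℤ)^t * nuy y) := by
      have h2 : kk a + wf kk g = kk 0 + (J - 2) + t := by omega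
      calc (p:ℤ)^(kk a) * ((p:ℤ)^(wf kk g) * (nuy y * kh rm J))
          = (p:ℤ)^(kk a + wf kk g) * (nuy y * kh rm J) := by rw [pow_add]; ring
        _ = (p:ℤ)^(kk 0 + (J - 2) + t) * (nuy y * kh rm J) := by rw [h2]
        _ = _ := by rw [pow_add, pow_add]; ring
    rw [e1, hKK, pow_add]
    exact Dvd.dvd.mul_right (mul_dvd_mul_left _ hk) _
  · push Not at hgood
    obtain ⟨h1, h2⟩ := hgood
    obtain ⟨h0, haB, hcl⟩ := bad_closed (e0 ::ₘ g) e0 (Multiset.mem_cons_self _ _) h1 h2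
    have := bad_case p M rm hp hq kk (snk m q bs) e0 g hbal (Bs (e0 ::ₘ g) e0.a) h0 haB hcl
    exact Dvd.dvd.mul_left ((pow_dvd_pow _ hKM).trans this) _

end

end Pool.Agent.RepFLR
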