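import Pool.Agent.Helper26.FLR.J

set_option autoImplicit false

namespace Pool.Agent.RepFLR

open Classical

section
variable {m q : ℕ} [NeZero q]

end

section
variable {m q : ℕ} [NeZero q]

end

section
variable {m q : ℕ} [NeZero q]

end

section
variable {m q : ℕ} [NeZero q]

end

section
variable {m q : ℕ} [NeZero q]

end

section
variable {m q : ℕ} [NeZero q]

end

section
variable {m q : ℕ} [NeZero q]

end

section
variable {m q : ℕ} [NeZero q]

end

theorem wt_tri' {m : ℕ} (kk : Fin (m+1) → ℕ) (a b c : Fin (m+1)) :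
    wt kk a c ≤ wt kk a b + wt kk b c := by
  unfold wt
  simp only [Fin.le_def]
  split_ifs <;> omega

theorem exists_bs {m : ℕ} (kk : Fin (m+1) → ℕ) (hanti : Antitone kk) :
    ∃ bs : Fin (m+1), kk bs = kk 0 ∧ ∀ b, bs < b → kk b < kk 0 := by
  have hne : (Finset.univ.filter (fun b : Fin (m+1) => kk b = kk 0)).Nonempty := ⟨0, by simp⟩
  refine ⟨Finset.max' _ hne, ?_, ?_⟩
  · have := Finset.max'_mem _ hne
    simpa using this
  · intro b hb
    rcases (hanti (Fin.zero_le b)).lt_or_eq with h | h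
    · exact h
    · exact absurd (Finset.le_max' _ b (by simpa using h)) (not_le.mpr hb)

theorem thmII (p m : ℕ) (hp : p.Prime) (kk : Fin (m+1) → ℕ) (hanti : Antitone kk)
    (hpos : ∀ a, 1 ≤ kk a) : Rep p m kk := by
  obtain ⟨bs, hbs, hlast⟩ := exists_bs kk hanti
  have hk0 : 1 ≤ kk 0 := hpos 0
  obtain ⟨c, hc1, hc2, hc3⟩ := exists_c p (kk 0) hp hk0
  set rm : ℕ := p ^ (kk 0) - 1 with hrm
  set KK : ℕ := kk 0 + c with hKK
  obtain ⟨q, hq⟩ : ∃ q : ℕ, q = p ^ KK := ⟨_, rfl⟩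
  have : NeZero q := ⟨by rw [hq]; exact (pow_pos hp.pos _).ne'⟩
  obtain ⟨K, _, ξ, hK⟩ := exists_K (Edge m q) (EE p kk rm (snk m q bs)) ((p : ℤ) ^ KK)
  set s0 : Vtx m q := Sum.inl 0 with hs0
  set j0 : Vtx m q := snk m q bs with hj0
  -- weights
  have hle : ∀ a, kk a ≤ kk 0 := fun a => hanti (Fin.zero_le a)
  have hw0bs : wt kk 0 bs = if bs = 0 then 1 else 0 := by
    unfold wt
    rw [hbs]
    by_cases h : bs = 0
    · simp [h]
    · simp [h]
  have hw0bs1 : wt kk 0 bs ≤ 1 := by rw [hw0bs]; split_ifs <;> omega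
  have hw0a : ∀ a, a ≠ 0 → wt kk 0 a = kk 0 - kk a := by
    intro a ha
    unfold wt
    simp [ha]
  have hwbbs : ∀ b, b ≠ bs → wt kk b bs = 0 := by
    intro b hb
    unfold wt
    rw [hbs]
    have h1 : kk b - kk 0 = 0 := by have := hle b; omega
    have h2 : ¬ (kk b = kk 0 ∧ bs ≤ b) := by
      rintro ⟨h3, h4⟩
      have := hlast b (lt_of_le_of_ne h4 (Ne.symm hb))
      omega
    simp [h1, h2]
  have hw0b : ∀ b, wt kk 0 bs ≤ wt kk 0 b := by
    intro b
    by_cases hb : b = bs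
    · rw [hb]
    · have := wt_tri' kk 0 b bs
      rw [hwbbs b hb] at this
      simpa using this
  -- relations
  have hrelo : ∀ (ι : Type) [Fintype ι] (cc : ι → ℤ) (f : ι → Multiset (Edge m q)) (c0 : ℤ)
      (f0 : Multiset (Edge m q)),
      (∀ g, (p : ℤ) ^ KK ∣ ∑ i, cc i * EE p kk rm j0 (f i + g) + c0 * EE p kk rm j0 (f0 + g)) →
      ∑ i, (cc i : K) * ((f i).map ξ).prod + (c0 : K) * (f0.map ξ).prod = 0 := by
    intro ι _ cc f c0 f0 h
    have := (hK (Option ι) Finset.univ (fun o => o.elim c0 cc) (fun o => o.elim f0 f)).mpr (by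
      intro g
      rw [Fintype.sum_option]
      simpa [add_comm] using h g)
    rw [Fintype.sum_option] at this
    simpa [add_comm] using this
  -- R1, b ≠ c
  have hR1ne : ∀ a b c' d, b ≠ c' → ∀ i j : Vtx m q, ∑ v, ξ ⟨a, b, i, v⟩ * ξ ⟨c', d, v, j⟩ = 0 := by
    intro a b c' d hbc i j
    have := hrelo (Vtx m q) (fun _ => 1) (fun v => ⟨a, b, i, v⟩ ::ₘ ⟨c', d, v, j⟩ ::ₘ 0) 0 0 (by
      intro g
      have : ∀ v : Vtx m q, EE p kk rm j0
          ((⟨a, b, i, v⟩ ::ₘ ⟨c', d, v, j⟩ ::ₘ (0 : Multiset (Edge m q))) + g) = 0 := by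
        intro v
        rw [Multiset.cons_add, Multiset.cons_add, zero_add]
        exact EE_R1_ne p kk rm j0 a b c' d hbc i v j g
      have h2 : ∑ v : Vtx m q, (fun _ => (1 : ℤ)) v * EE p kk rm j0
          ((⟨a, b, i, v⟩ ::ₘ ⟨c', d, v, j⟩ ::ₘ (0 : Multiset (Edge m q))) + g) = 0 := by
        apply Finset.sum_eq_zero
        intro v _
        rw [this v, mul_zero]
      rw [h2]
      simp)
    simpa using this
  have hR1 : ∀ a b c' (i j : Vtx m q), ∑ v, ξ ⟨a, b, i, v⟩ * ξ ⟨b, c', v, j⟩ =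
      (p : K) ^ (wt kk a b + wt kk b c' - wt kk a c') * ξ ⟨a, c', i, j⟩ := by
    intro a b c' i j
    have := hrelo (Vtx m q) (fun _ => 1) (fun v => ⟨a, b, i, v⟩ ::ₘ ⟨b, c', v, j⟩ ::ₘ 0)
      (-(p : ℤ) ^ (wt kk a b + wt kk b c' - wt kk a c')) (⟨a, c', i, j⟩ ::ₘ 0) (by
      intro g
      have h := EE_R1 p KK KK rm hq le_rfl hc3 kk hanti j0 a b c' i j g
      simpa [Multiset.cons_add, sub_eq_add_neg] using h)
    have h2 : ∑ v, ξ ⟨a, b, i, v⟩ * ξ ⟨b, c', v, j⟩ +
        -((p : K) ^ (wt kk a b + wt kk b c' - wt kk a c') * ξ ⟨a, c', i, j⟩) = 0 := by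
      simpa using this
    exact add_neg_eq_zero.mp h2
  have hR2 : ∀ i j : Vtx m q, ∑ a, ξ ⟨a, a, i, j⟩ = if i = j then (p : K) else 0 := by
    intro i j
    have := hrelo (Fin (m+1)) (fun _ => 1) (fun a => ⟨a, a, i, j⟩ ::ₘ 0)
      (if i = j then -(p : ℤ) else 0) 0 (by
      intro g
      have h := EE_R2 p kk rm j0 i j g
      simp only [one_mul, Multiset.cons_add, zero_add]
      rw [h]
      split_ifs <;> simp)
    have h2 : ∑ a, ξ ⟨a, a, i, j⟩ + ((if i = j then -(p : ℤ) else 0 : ℤ) : K) = 0 := by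
      simpa using this
    split_ifs with h
    · rw [if_pos h] at h2
      push_cast at h2
      exact add_neg_eq_zero.mp h2
    · rw [if_neg h] at h2
      simpa using h2
  have hR3 : ∀ a b (i j : Vtx m q), (p : K) ^ (kk a - wt kk a b) * ξ ⟨a, b, i, j⟩ = 0 := by
    intro a b i j
    have := hrelo Unit (fun _ => 0) (fun _ => 0) ((p : ℤ) ^ (kk a - wt kk a b))
      (⟨a, b, i, j⟩ ::ₘ 0) (by
      intro g
      have h := EE_R3 p KK c KK rm hp hq kk hanti hpos hc1 hKK le_rfl bs hbs a b i j g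
      simpa [Multiset.cons_add] using h)
    simpa using this
  have hrow : ∀ a b (j : Vtx m q), a ≠ 0 → ξ ⟨a, b, s0, j⟩ = 0 := by
    intro a b j ha
    have := hrelo Unit (fun _ => 0) (fun _ => 0) 1
      (⟨a, b, s0, j⟩ ::ₘ 0) (by
      intro g
      have h := EE_row p kk rm j0 a b ha j g
      simp [Multiset.cons_add, hs0, h])
    simpa using this
  have hcol : ∀ b, b ≠ bs → ξ ⟨0, b, s0, j0⟩ = 0 := by
    intro b hb
    have := hrelo Unit (fun _ => 0) (fun _ => 0) 1
      (⟨0, b, s0, j0⟩ ::ₘ 0) (by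
      intro g
      have h := EE_col p kk rm bs b hb g
      simp [Multiset.cons_add, hs0, hj0, h])
    simpa using this
  have hpZ : Prime (p : ℤ) := Nat.prime_iff_prime_int.mp hp
  -- divisibility facts
  have hfac : ∀ (n : ℤ) (e : ℕ), (p : ℤ) ^ (e + c) ∣ n * (rm.factorial : ℤ) → (p : ℤ) ^ e ∣ n := by
    intro n e h
    obtain ⟨u, hu⟩ := hc1
    have hpu : ¬ (p : ℤ) ∣ (u : ℤ) := by
      intro h1
      apply hc2
      have h2 : p ∣ u := by exact_mod_cast h1
      obtain ⟨v, hv⟩ := h2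
      exact ⟨v, by rw [hu, hv]; ring⟩
    rw [hu] at h
    push_cast at h
    rw [pow_add] at h
    have h3 : (p : ℤ) ^ c * (p : ℤ) ^ e ∣ (p : ℤ) ^ c * (n * u) := by
      have e1 : (p : ℤ) ^ c * (p : ℤ) ^ e = (p : ℤ) ^ e * (p : ℤ) ^ c := by ring
      have e2 : (p : ℤ) ^ c * (n * u) = n * ((p : ℤ) ^ c * u) := by ring
      rw [e1, e2]
      exact h
    have h4 := (mul_dvd_mul_iff_left (pow_ne_zero c hpZ.ne_zero)).mp h3
    have hcop : IsCoprime ((p : ℤ) ^ e) (u : ℤ) :=
      ((Prime.coprime_iff_not_dvd hpZ).mpr hpu).pow_left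
    exact hcop.dvd_of_dvd_mul_right h4
  have hcorner : ∀ n : ℤ, (n : K) * ξ ⟨0, bs, s0, j0⟩ = 0 → (p : ℤ) ^ (kk 0 - wt kk 0 bs) ∣ n := by
    intro n hn
    have h := (hK Unit Finset.univ (fun _ => n) (fun _ => {⟨0, bs, s0, j0⟩})).mp (by simpa using hn) 0
    have h1 := EE_corner (q := q) p kk rm bs
    rw [← hj0, ← hs0] at h1
    have h2 : (p : ℤ) ^ KK ∣ n * ((p : ℤ) ^ (wt kk 0 bs) * (rm.factorial : ℤ)) := by
      rw [← h1]
      simpa using h
    apply hfac
    have e : KK = wt kk 0 bs + (kk 0 - wt kk 0 bs + c) := by omega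
    rw [e, pow_add] at h2
    have e2 : n * ((p : ℤ) ^ (wt kk 0 bs) * (rm.factorial : ℤ)) =
        (p : ℤ) ^ (wt kk 0 bs) * (n * (rm.factorial : ℤ)) := by ring
    rw [e2] at h2
    exact (mul_dvd_mul_iff_left (pow_ne_zero _ hpZ.ne_zero)).mp h2
  have hnt : Nontrivial K := by
    by_contra hcon
    rw [not_nontrivial_iff_subsingleton] at hcon
    have hall : ∀ f, (p : ℤ) ^ KK ∣ EE p kk rm j0 f := by
      intro f
      have h := (hK Unit Finset.univ (fun _ => 1) (fun _ => 0)).mp (Subsingleton.elim _ _) f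
      simpa using h
    by_cases hb0 : bs = 0
    · have h1 := EE_R2 (q := q) p kk rm j0 s0 s0 0
      rw [if_pos rfl] at h1
      rw [Finset.sum_eq_single 0] at h1
      · have h2 := EE_corner (q := q) p kk rm bs
        rw [← hj0, ← hs0] at h2
        have hjs : j0 = s0 := by rw [hj0, hs0]; unfold snk; rw [if_pos hb0]
        rw [hb0] at h2
        have h3 : EE p kk rm j0 (⟨0, 0, s0, s0⟩ ::ₘ 0) =
            (p : ℤ) ^ (wt kk 0 0) * (rm.factorial : ℤ) := by
          rw [← h2, hjs]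
          rfl
        rw [h3] at h1
        have h4 : wt kk 0 0 = 1 := by simp [wt]
        rw [h4, pow_one] at h1
        have h5 := mul_left_cancel₀ hpZ.ne_zero h1
        have h6 := hall 0
        rw [← h5] at h6
        have h7 := hfac 1 1 (by
          rw [one_mul]
          exact (pow_dvd_pow _ (by omega)).trans h6)
        rw [pow_one] at h7
        exact hpZ.not_isUnit (isUnit_of_dvd_one h7)
      · intro b _ hb
        rw [hs0]
        exact EE_row p kk rm j0 b b hb _ 0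
      · intro h; exact absurd (Finset.mem_univ _) h
    · have h1 := hall {⟨0, bs, s0, j0⟩}
      have h2 := EE_corner (q := q) p kk rm bs
      rw [← hj0, ← hs0] at h2
      rw [h2, hw0bs, if_neg hb0, pow_zero] at h1
      have h7 := hfac 1 1 (by
          exact (pow_dvd_pow _ (by omega)).trans h1)
      rw [pow_one] at h7
      exact hpZ.not_isUnit (isUnit_of_dvd_one h7)
  -- left vectors
  have hL : ∀ a, ∃ ℓ : Vtx m q → K,
      (∀ a1 b1 j, a1 ≠ a → ∑ v, ℓ v * ξ ⟨a1, b1, v, j⟩ = 0) ∧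
      (∀ b1 j, ∑ v, ℓ v * ξ ⟨a, b1, v, j⟩ =
        (p : K) ^ ((kk 0 - kk a) + wt kk a b1 - wt kk 0 b1) * ξ ⟨0, b1, s0, j⟩) := by
    intro a
    by_cases ha : a = 0
    · refine ⟨fun v => if v = s0 then 1 else 0, ?_, ?_⟩
      · intro a1 b1 j h
        simp only [ite_mul, one_mul, zero_mul, Finset.sum_ite_eq', Finset.mem_univ, if_true]
        exact hrow a1 b1 j (by rw [← ha]; exact h)
      · intro b1 j
        simp only [ite_mul, one_mul, zero_mul, Finset.sum_ite_eq', Finset.mem_univ, if_true]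
        rw [ha]
        simp
    · refine ⟨fun v => ξ ⟨0, a, s0, v⟩, ?_, ?_⟩
      · intro a1 b1 j h
        exact hR1ne 0 a a1 b1 (Ne.symm h) s0 j
      · intro b1 j
        have := hR1 0 a b1 s0 j
        rw [hw0a a ha] at this
        exact this
  have hRr : ∀ b, ∃ r : Vtx m q → K,
      (∀ b1, b1 ≠ b → ∑ v, ξ ⟨0, b1, s0, v⟩ * r v = 0) ∧
      ∑ v, ξ ⟨0, b, s0, v⟩ * r v = (p : K) ^ (wt kk 0 b - wt kk 0 bs) * ξ ⟨0, bs, s0, j0⟩ := by
    intro b
    by_cases hb : b = bs
    · refine ⟨fun v => if v = j0 then 1 else 0, ?_, ?_⟩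
      · intro b1 h
        simp only [mul_ite, mul_one, mul_zero, Finset.sum_ite_eq', Finset.mem_univ, if_true]
        exact hcol b1 (by rw [← hb]; exact h)
      · simp only [mul_ite, mul_one, mul_zero, Finset.sum_ite_eq', Finset.mem_univ, if_true]
        rw [hb]
        simp
    · refine ⟨fun v => ξ ⟨b, bs, v, j0⟩, ?_, ?_⟩
      · intro b1 h
        exact hR1ne 0 b1 b bs h s0 j0
      · have := hR1 0 b bs s0 j0
        rw [hwbbs b hb] at this
        simpa using this
  refine ⟨Vtx m q, inferInstance, inferInstance, ⟨s0⟩, K, inferInstance, hnt,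
    fun a b => Matrix.of fun i j => ξ ⟨a, b, i, j⟩, ?_, ?_, ?_, ?_, ?_⟩
  · intro a b c' d hbc
    ext i j
    rw [Matrix.mul_apply]
    exact hR1ne a b c' d hbc i j
  · intro a b c'
    ext i j
    rw [Matrix.mul_apply]
    exact hR1 a b c' i j
  · ext i j
    rw [Matrix.sum_apply]
    have := hR2 i j
    rw [Matrix.smul_apply, Matrix.one_apply]
    simpa using this
  · intro a b
    ext i j
    exact hR3 a b i j
  · intro cf hcf a b
    obtain ⟨ℓ, hℓ1, hℓ2⟩ := hL a
    obtain ⟨r, hr1, hr2⟩ := hRr b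
    have hent : ∀ v j : Vtx m q, ∑ a1, ∑ b1, (cf a1 b1 : K) * ξ ⟨a1, b1, v, j⟩ = 0 := by
      intro v j
      have := congrFun (congrFun hcf v) j
      simpa [Matrix.sum_apply] using this
    have h1 : ∑ j, (∑ v, ℓ v * ∑ a1, ∑ b1, (cf a1 b1 : K) * ξ ⟨a1, b1, v, j⟩) * r j = 0 := by
      simp [hent]
    have h2 : ∑ j, (∑ v, ℓ v * ∑ a1, ∑ b1, (cf a1 b1 : K) * ξ ⟨a1, b1, v, j⟩) * r j =
        ∑ b1, (cf a b1 : K) * ((p : K) ^ ((kk 0 - kk a) + wt kk a b1 - wt kk 0 b1) *
          ∑ j, ξ ⟨0, b1, s0, j⟩ * r j) := by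
      have e1 : ∀ j, (∑ v, ℓ v * ∑ a1, ∑ b1, (cf a1 b1 : K) * ξ ⟨a1, b1, v, j⟩) =
          ∑ b1, (cf a b1 : K) * ((p : K) ^ ((kk 0 - kk a) + wt kk a b1 - wt kk 0 b1) *
            ξ ⟨0, b1, s0, j⟩) := by
        intro j
        have e2 : (∑ v, ℓ v * ∑ a1, ∑ b1, (cf a1 b1 : K) * ξ ⟨a1, b1, v, j⟩) =
            ∑ a1, ∑ b1, (cf a1 b1 : K) * ∑ v, ℓ v * ξ ⟨a1, b1, v, j⟩ := by
          simp only [Finset.mul_sum]
          rw [Finset.sum_comm]
          apply Finset.sum_congr rfl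
          intro a1 _
          rw [Finset.sum_comm]
          apply Finset.sum_congr rfl
          intro b1 _
          apply Finset.sum_congr rfl
          intro v _
          ring
        rw [e2, Finset.sum_eq_single a]
        · apply Finset.sum_congr rfl
          intro b1 _
          rw [hℓ2]
        · intro a1 _ ha1
          apply Finset.sum_eq_zero
          intro b1 _
          rw [hℓ1 a1 b1 j ha1, mul_zero]
        · intro h; exact absurd (Finset.mem_univ _) h
      simp only [e1, Finset.sum_mul]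
      rw [Finset.sum_comm]
      apply Finset.sum_congr rfl
      intro b1 _
      simp only [Finset.mul_sum]
      apply Finset.sum_congr rfl
      intro j _
      ring
    rw [h2, Finset.sum_eq_single b] at h1
    · rw [hr2] at h1
      have hx1 : wt kk 0 b ≤ (kk 0 - kk a) + wt kk a b := by
        by_cases ha : a = 0
        · rw [ha]; simp
        · have := wt_tri' kk 0 a b
          rw [hw0a a ha] at this
          exact this
      have hx2 := hw0b b
      have h3 : ((cf a b * (p : ℤ) ^ ((kk 0 - kk a) + wt kk a b - wt kk 0 bs) : ℤ) : K) *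
          ξ ⟨0, bs, s0, j0⟩ = 0 := by
        push_cast
        have e : (kk 0 - kk a) + wt kk a b - wt kk 0 bs =
          ((kk 0 - kk a) + wt kk a b - wt kk 0 b) + (wt kk 0 b - wt kk 0 bs) := by omega
        rw [e, pow_add]
        rw [← h1]
        ring
      have h4 := hcorner _ h3
      by_cases hlt : kk a ≤ wt kk a b
      · rw [Nat.sub_eq_zero_of_le hlt, pow_zero]
        exact one_dvd _
      · have hka := hle a
        have e : kk 0 - wt kk 0 bs = (kk a - wt kk a b) +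
          ((kk 0 - kk a) + wt kk a b - wt kk 0 bs) := by omega
        rw [e, pow_add] at h4
        exact (mul_dvd_mul_iff_right (pow_ne_zero _ hpZ.ne_zero)).mp h4
    · intro b1 _ hb1
      rw [hr1 b1 hb1]
      ring
    · intro h; exact absurd (Finset.mem_univ _) h

end Pool.Agent.RepFLR
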